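import Pool.Agent.TH685.TI.Mom
import Pool.Agent.TH685.TI.Sq

set_option autoImplicit false
set_option maxHeartbeats 1000000

/-! # The singular factor over the differences of the squares of the elements of an arbitrary set -/

namespace Pool.Agent.Y561.SQ

open Finset Pool.Agent.H197R2.PG Pool.Agent.TH685.TI
open Pool.Agent.TH685.Sq (dist_sq gg_mul_le)

/-- the rough part of the singular factor of `a² - b²` -/
noncomputable def fz (w : ℕ) (z : ℕ × ℕ) : ℝ := gw w (Nat.dist z.1 z.2) * gw w (z.1 + z.2)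

lemma one_le_fz (w : ℕ) (z : ℕ × ℕ) : 1 ≤ fz w z := by
  unfold fz
  have h1 := one_le_gw w (Nat.dist z.1 z.2)
  have h2 := one_le_gw w (z.1 + z.2)
  nlinarith

lemma exp_two_le_eight : Real.exp 2 ≤ 8 := by
  have h7 := Real.exp_one_lt_d9
  have h8 : Real.exp 2 = Real.exp 1 ^ 2 := by
    rw [← Real.exp_nat_mul]; norm_num
  have h9 := Real.exp_pos 1
  rw [h8]
  nlinarith

lemma moment_fz (w q M : ℕ) (S : Finset ℕ) (hq : 1 ≤ q) (hqw : 2 * q ≤ w) (hS : S ⊆ Icc 1 M) :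
    ∑ z ∈ S.offDiag, fz w z ^ q ≤ 16 * #S * M := by
  classical
  have hpt : ∀ z ∈ S.offDiag, fz w z ^ q ≤
      (gw w (Nat.dist z.1 z.2) ^ (2 * q) + gw w (z.1 + z.2) ^ (2 * q)) / 2 := by
    intro z _
    unfold fz
    rw [mul_pow, two_mul, pow_add, pow_add]
    nlinarith [sq_nonneg (gw w (Nat.dist z.1 z.2) ^ q - gw w (z.1 + z.2) ^ q)]
  have hf : ∀ n, 0 ≤ gw w n ^ (2 * q) := fun n => pow_nonneg (by linarith [one_le_gw w n]) _
  have h3 := sum_dist_le S M hS (fun n => gw w n ^ (2 * q)) hf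
  have h4 : ∑ z ∈ S.offDiag, gw w (z.1 + z.2) ^ (2 * q) ≤
      #S * (((2 * M : ℕ) : ℝ) * Real.exp 2) := by
    have h5 : ∑ z ∈ S.offDiag, gw w (z.1 + z.2) ^ (2 * q) ≤
        ∑ z ∈ S ×ˢ S, gw w (z.1 + z.2) ^ (2 * q) := by
      apply Finset.sum_le_sum_of_subset_of_nonneg
      · intro z hz
        rw [mem_offDiag] at hz
        rw [mem_product]
        exact ⟨hz.1, hz.2.1⟩
      · intro z _ _
        exact hf _
    refine h5.trans ?_
    rw [Finset.sum_product, ← nsmul_eq_mul, ← Finset.sum_const]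
    apply Finset.sum_le_sum
    intro a ha
    have ha1 := mem_Icc.1 (hS ha)
    refine le_trans ?_ (moment_gw_le w (2 * q) (2 * M) (by omega) hqw)
    rw [← Finset.sum_image (f := fun n => gw w n ^ (2 * q)) (g := fun b => a + b)
      (fun b _ b' _ h => by
        simp only at h
        omega)]
    apply Finset.sum_le_sum_of_subset_of_nonneg
    · intro n hn
      obtain ⟨b, hb, rfl⟩ := mem_image.1 hn
      have hb1 := mem_Icc.1 (hS hb)
      rw [mem_Icc]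
      omega
    · intro n _ _
      exact hf n
  have h5 := moment_gw_le w (2 * q) M (by omega) hqw
  have he := exp_two_le_eight
  have hS0 : (0 : ℝ) ≤ #S := Nat.cast_nonneg _
  have hM0 : (0 : ℝ) ≤ M := Nat.cast_nonneg _
  have h6 := Finset.sum_le_sum hpt
  rw [← Finset.sum_div, Finset.sum_add_distrib] at h6
  have h7 : 2 * (#S : ℝ) * ∑ h ∈ Icc 1 M, gw w h ^ (2 * q) ≤ 2 * #S * (M * 8) := by
    apply mul_le_mul_of_nonneg_left _ (by positivity)
    exact h5.trans (mul_le_mul_of_nonneg_left he hM0)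
  have h8 : (#S : ℝ) * (((2 * M : ℕ) : ℝ) * Real.exp 2) ≤ #S * ((2 * M) * 8) := by
    push_cast
    apply mul_le_mul_of_nonneg_left _ hS0
    exact mul_le_mul_of_nonneg_left he (by positivity)
  have h9 := h3.trans h7
  have h10 := h4.trans h8
  linarith

/-- the average of the rough factor -/
theorem avg_fz (w q M : ℕ) (S : Finset ℕ) (E : ℝ) (hq : 1 ≤ q) (hqw : 2 * q ≤ w) (hS : S ⊆ Icc 1 M)
    (hE : 0 ≤ E) (hT : 16 * (M : ℝ) ≤ E ^ q * #S) :
    ∑ z ∈ S.offDiag, fz w z ≤ E * (#S : ℝ) ^ 2 := by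
  classical
  obtain ⟨X, hX⟩ : ∃ X : ℝ, X = ∑ z ∈ S.offDiag, fz w z := ⟨_, rfl⟩
  rw [← hX]
  obtain ⟨m, rfl⟩ : ∃ m, q = m + 1 := ⟨q - 1, by omega⟩
  have h1 : X ^ (m + 1) ≤ (#S.offDiag : ℝ) ^ m * ∑ z ∈ S.offDiag, fz w z ^ (m + 1) := by
    rw [hX]
    exact pow_sum_le_card_mul_sum_pow (fun z _ => by linarith [one_le_fz w z]) m
  have h2 : (#S.offDiag : ℝ) ≤ (#S : ℝ) ^ 2 := by
    have : #S.offDiag ≤ #S * #S := by
      rw [offDiag_card]
      exact Nat.sub_le _ _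
    calc (#S.offDiag : ℝ) ≤ ((#S * #S : ℕ) : ℝ) := by exact_mod_cast this
      _ = (#S : ℝ) ^ 2 := by push_cast; ring
  have h5 := moment_fz w (m + 1) M S (by omega) hqw hS
  have h8 : X ^ (m + 1) ≤ (E * (#S : ℝ) ^ 2) ^ (m + 1) := by
    calc X ^ (m + 1) ≤ (#S.offDiag : ℝ) ^ m * ∑ z ∈ S.offDiag, fz w z ^ (m + 1) := h1
      _ ≤ ((#S : ℝ) ^ 2) ^ m * (16 * #S * M) := by
          apply mul_le_mul
          · gcongr
          · exact h5
          · apply Finset.sum_nonneg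
            intro z _
            exact pow_nonneg (by linarith [one_le_fz w z]) _
          · positivity
      _ = ((#S : ℝ) ^ 2) ^ m * (#S * (16 * M)) := by ring
      _ ≤ ((#S : ℝ) ^ 2) ^ m * (#S * (E ^ (m + 1) * #S)) := by gcongr
      _ = (E * (#S : ℝ) ^ 2) ^ (m + 1) := by
          rw [mul_pow]
          ring
  exact le_of_pow_le_pow_left₀ (by omega) (by positivity) h8

lemma prod_union_le (s t : Finset ℕ) :
    ∏ p ∈ s ∪ t, (1 + 1 / (p : ℝ)) ≤ (∏ p ∈ s, (1 + 1 / (p : ℝ))) * ∏ p ∈ t, (1 + 1 / (p : ℝ)) := by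
  have h1 := Finset.prod_union_inter (s₁ := s) (s₂ := t) (f := fun p : ℕ => (1 + 1 / (p : ℝ)))
  have h2 := one_le_pp (s ∩ t)
  have h3 := one_le_pp (s ∪ t)
  rw [← h1]
  nlinarith

lemma prod_sub_le (s t : Finset ℕ) (hst : s ⊆ t) :
    ∏ p ∈ s, (1 + 1 / (p : ℝ)) ≤ ∏ p ∈ t, (1 + 1 / (p : ℝ)) := by
  apply Finset.prod_le_prod_of_subset_of_one_le hst
  · intro p _
    positivity
  · intro p _ _
    have : (0 : ℝ) ≤ 1 / (p : ℝ) := by positivity
    linarith

/-- splitting off the small primes -/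
lemma gg_split (w : ℕ) (hw : 2 ≤ w) (d s : ℕ) (hd : 0 < d) (hs : 0 < s) :
    gg (2 * (d * s)) ≤ (∏ p ∈ (Icc 1 w).filter Nat.Prime, (1 + 1 / (p : ℝ))) * (gw w d * gw w s) := by
  classical
  unfold gg gw
  refine (prod_sub_le _ ((Icc 1 w).filter Nat.Prime ∪ (d.primeFactors.filter (fun p => w < p) ∪
    s.primeFactors.filter (fun p => w < p))) ?_).trans ?_
  · intro p hp
    rw [Nat.mem_primeFactors] at hp
    obtain ⟨hpp, hpd, _⟩ := hp
    rw [mem_union, mem_union, mem_filter, mem_filter, mem_filter, mem_Icc]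
    by_cases hpw : p ≤ w
    · exact Or.inl ⟨⟨hpp.one_lt.le, hpw⟩, hpp⟩
    · right
      push Not at hpw
      rcases (Nat.Prime.dvd_mul hpp).1 hpd with h | h
      · exact absurd (Nat.le_of_dvd (by norm_num) h) (by omega)
      · rcases (Nat.Prime.dvd_mul hpp).1 h with h | h
        · exact Or.inl ⟨Nat.mem_primeFactors.2 ⟨hpp, h, hd.ne'⟩, hpw⟩
        · exact Or.inr ⟨Nat.mem_primeFactors.2 ⟨hpp, h, hs.ne'⟩, hpw⟩
  · refine (prod_union_le _ _).trans ?_
    apply mul_le_mul_of_nonneg_left (prod_union_le _ _)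
    exact le_trans zero_le_one (one_le_pp _)

/-- the singular factor over the differences of the squares -/
theorem sum_gg (w q M : ℕ) (S : Finset ℕ) (E : ℝ) (hq : 1 ≤ q) (hqw : 2 * q ≤ w) (hS : S ⊆ Icc 1 M)
    (hE : 0 ≤ E) (hT : 16 * (M : ℝ) ≤ E ^ q * #S) :
    ∑ z ∈ (S.image (fun m => m ^ 2)).offDiag, gg (2 * Nat.dist z.1 z.2) ≤
      (∏ p ∈ (Icc 1 w).filter Nat.Prime, (1 + 1 / (p : ℝ))) * (E * (#S : ℝ) ^ 2) := by
  classical
  have hinj : ∀ a b : ℕ, a ^ 2 = b ^ 2 → a = b := fun a b h =>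
    (Nat.pow_left_injective (n := 2) (by norm_num)) h
  have hsub : (S.image (fun m => m ^ 2)).offDiag ⊆
      S.offDiag.image (fun z : ℕ × ℕ => (z.1 ^ 2, z.2 ^ 2)) := by
    intro z hz
    rw [mem_offDiag, mem_image, mem_image] at hz
    obtain ⟨⟨a, ha, hae⟩, ⟨b, hb, hbe⟩, hne⟩ := hz
    rw [mem_image]
    refine ⟨(a, b), ?_, ?_⟩
    · rw [mem_offDiag]
      refine ⟨ha, hb, ?_⟩
      rintro h
      apply hne
      have h' : a = b := h
      rw [← hae, ← hbe, h']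
    · exact Prod.ext hae hbe
  have h1 : ∑ z ∈ (S.image (fun m => m ^ 2)).offDiag, gg (2 * Nat.dist z.1 z.2) ≤
      ∑ z ∈ S.offDiag.image (fun z : ℕ × ℕ => (z.1 ^ 2, z.2 ^ 2)), gg (2 * Nat.dist z.1 z.2) :=
    Finset.sum_le_sum_of_subset_of_nonneg hsub (fun z _ _ => by linarith [one_le_gg (2 * Nat.dist z.1 z.2)])
  refine h1.trans ?_
  rw [Finset.sum_image (fun z _ z' _ h => by
    have h2 := congrArg Prod.fst h
    have h3 := congrArg Prod.snd h
    exact Prod.ext (hinj _ _ h2) (hinj _ _ h3))]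
  have h2 : ∀ z ∈ S.offDiag, gg (2 * Nat.dist (z.1 ^ 2) (z.2 ^ 2)) ≤
      (∏ p ∈ (Icc 1 w).filter Nat.Prime, (1 + 1 / (p : ℝ))) * fz w z := by
    intro z hz
    rw [mem_offDiag] at hz
    have hz1 := mem_Icc.1 (hS hz.1)
    have hd : 0 < Nat.dist z.1 z.2 := Nat.dist_pos_of_ne hz.2.2
    rw [dist_sq]
    exact gg_split w (by omega) _ _ hd (by omega)
  refine (Finset.sum_le_sum h2).trans ?_
  rw [← Finset.mul_sum]
  apply mul_le_mul_of_nonneg_left (avg_fz w q M S E hq hqw hS hE hT)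
  exact le_trans zero_le_one (one_le_pp _)

end Pool.Agent.Y561.SQ
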