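import Pool.Agent.H197R2.PG6
import Pool.Agent.Helper601.BT

set_option autoImplicit false
set_option maxHeartbeats 1000000

/-! # The upper bound sieve for prime pairs, all differences, with the sharp singular factor

The proofs of `selberg_gen`, `pair_sieve_all` and `second_moment_all` are those of
`Pool.Agent.H197R2.PG` (starting point), for all differences up to the length of the interval. -/

open Filter Topology

namespace Pool.Agent.Y561.SQ

open Pool.Agent.H197R2.PG
open Pool.Agent.Helper601.HK (sfR mem_sfR sfR_prod harmonic_le log_le)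
open Pool.Agent.H357R2.SI

lemma selberg_gen {h M N : ℕ} (hh : 0 < h) (hM : 1 ≤ M) (hMN : M * M ≤ N) (R1 : Finset ℕ)
    (hR1 : R1 ⊆ (2 * h).primeFactors) (hR1M : (∏ p ∈ R1, p) ≤ M) (K : ℝ) (hK : 1 ≤ K)
    (hKR : gg (2 * h) ≤ K * ∏ r ∈ R1, (1 + 1 / (r : ℝ))) :
    Real.log M ^ 2 / (32 * K * gg (2 * h)) ≤
      ∑ l ∈ (Finset.Icc 1 N).filter Squarefree, ∏ p ∈ l.primeFactors,
        (if p ∈ (Finset.Icc 1 N).filter (fun p => p.Prime ∧ ¬ p ∣ 2 * h) then
          2 / ((p : ℝ) - 2) else 1 / ((p : ℝ) - 1)) := by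
  classical
  set R' := (2 * h).primeFactors with hR'
  have hR'p : ∀ r ∈ R', r.Prime := fun r hr => Nat.prime_of_mem_primeFactors hr
  set P : ℝ := gg (2 * h) with hP
  have hP1 : 1 ≤ P := one_le_gg _
  have hPdef : P = ∏ r ∈ R', (1 + 1 / (r : ℝ)) := rfl
  set F : ℕ → ℝ := fun l => ∏ p ∈ l.primeFactors,
        (if p ∈ (Finset.Icc 1 N).filter (fun p => p.Prime ∧ ¬ p ∣ 2 * h) then
          2 / ((p : ℝ) - 2) else 1 / ((p : ℝ) - 1)) with hF
  have h1 := log_le M hM
  have h2 := harmonic_le (Nat.sqrt M)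
  have h3 := sfR_prod (Nat.sqrt M) R' hR'p
  set Q := ∑ a ∈ sfR R' (Nat.sqrt M), 1 / (a : ℝ) with hQ
  have hQ0 : 0 ≤ Q := Finset.sum_nonneg (fun _ _ => by positivity)
  rw [← hPdef] at h3
  have h5 : Real.log M ≤ 4 * P * Q := by linarith
  have hlog0 : 0 ≤ Real.log M := Real.log_natCast_nonneg M
  have h6 : Real.log M ^ 2 ≤ (4 * P * Q) ^ 2 := by gcongr
  have h7 := pair_lower R' hR'p M
  set D := ∑ l ∈ sfR R' M, (l.divisors.card : ℝ) / l with hD
  rw [← hQ] at h7
  have hD0 : 0 ≤ D := Finset.sum_nonneg (fun _ _ => by positivity)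
  have h8aux : ∀ A P1 D1 K1 L1 : ℝ, 0 < A → 0 < K1 → 0 ≤ D1 → L1 ≤ 16 * A ^ 2 * (2 * D1) → A ≤ K1 * P1 →
      L1 / (32 * K1 * A) ≤ P1 * D1 := by
    intro A P1 D1 K1 L1 hA hK1 hD1 hL1 hAK
    rw [div_le_iff₀ (by positivity)]
    have h10 : 32 * (A * D1) * A ≤ 32 * (A * D1) * (K1 * P1) :=
      mul_le_mul_of_nonneg_left hAK (by positivity)
    calc L1 ≤ 16 * A ^ 2 * (2 * D1) := hL1
      _ = 32 * (A * D1) * A := by ring
      _ ≤ 32 * (A * D1) * (K1 * P1) := h10
      _ = P1 * D1 * (32 * K1 * A) := by ring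
  have h8 : Real.log M ^ 2 / (32 * K * P) ≤ (∏ r ∈ R1, (1 + 1 / (r : ℝ))) * D := by
    apply h8aux P _ D K _ (by linarith) (by linarith) hD0 _ hKR
    have e1 : (4 * P * Q) ^ 2 = 16 * P ^ 2 * Q ^ 2 := by ring
    rw [e1] at h6
    exact h6.trans (mul_le_mul_of_nonneg_left h7 (by positivity))
  refine h8.trans ?_
  set S : Finset (Finset ℕ × ℕ) := R1.powerset ×ˢ sfR R' M with hS
  set i : Finset ℕ × ℕ → ℕ := fun x => (∏ p ∈ x.1, p) * x.2 with hi
  have hexp : (∏ r ∈ R1, (1 + 1 / (r : ℝ))) * D =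
      ∑ x ∈ S, (∏ p ∈ x.1, (1 / (p : ℝ))) * ((x.2.divisors.card : ℝ) / x.2) := by
    rw [Finset.prod_one_add, hD, Finset.sum_mul_sum, hS, Finset.sum_product]
  have hfac : ∀ x ∈ S, x.1 ⊆ R' ∧ (∏ p ∈ x.1, p).primeFactors = x.1 ∧
      Nat.Coprime (∏ p ∈ x.1, p) x.2 ∧ 1 ≤ x.2 ∧ x.2 ≤ M ∧ Squarefree x.2 ∧
      (∀ r ∈ R', ¬ r ∣ x.2) := by
    intro x hx
    rw [hS, Finset.mem_product, Finset.mem_powerset, mem_sfR] at hx
    obtain ⟨hx0, ⟨hx2, hx3⟩, hx4, hx5⟩ := hx
    have hx1 : x.1 ⊆ R' := hx0.trans hR1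
    refine ⟨hx1, Nat.primeFactors_prod (fun p hp => hR'p p (hx1 hp)), ?_, hx2, hx3, hx4, hx5⟩
    apply Nat.Coprime.prod_left
    intro p hp
    exact (Nat.Prime.coprime_iff_not_dvd (hR'p p (hx1 hp))).mpr (hx5 p (hx1 hp))
  have hne : ∀ x ∈ S, (∏ p ∈ x.1, p) ≠ 0 := by
    intro x hx
    rw [Finset.prod_ne_zero_iff]
    intro p hp
    exact (hR'p p ((hfac x hx).1 hp)).ne_zero
  have hpf : ∀ x ∈ S, (i x).primeFactors = x.1 ∪ x.2.primeFactors := by
    intro x hx
    obtain ⟨g1, g2, g3, g4, g5, g6, g7⟩ := hfac x hx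
    simp only [hi]
    rw [g3.primeFactors_mul, g2]
  have hdisj : ∀ x ∈ S, Disjoint x.1 x.2.primeFactors := by
    intro x hx
    obtain ⟨g1, g2, g3, g4, g5, g6, g7⟩ := hfac x hx
    rw [Finset.disjoint_left]
    intro p hp hp2
    exact g7 p (g1 hp) (Nat.dvd_of_mem_primeFactors hp2)
  have hinj : Set.InjOn i (S : Set (Finset ℕ × ℕ)) := by
    intro x hx y hy hxy
    have hx' := hfac x hx
    have hy' := hfac y hy
    have e1 : ∀ z ∈ S, (i z).primeFactors ∩ R' = z.1 := by
      intro z hz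
      obtain ⟨g1, g2, g3, g4, g5, g6, g7⟩ := hfac z hz
      rw [hpf z hz]
      ext p
      rw [Finset.mem_inter, Finset.mem_union]
      constructor
      · rintro ⟨h | h, h'⟩
        · exact h
        · exact absurd (Nat.dvd_of_mem_primeFactors h) (g7 p h')
      · intro h
        exact ⟨Or.inl h, g1 h⟩
    have e2 : x.1 = y.1 := by rw [← e1 x hx, ← e1 y hy, hxy]
    have e3 : x.2 = y.2 := by
      simp only [hi] at hxy
      rw [e2] at hxy
      exact Nat.eq_of_mul_eq_mul_left (Nat.pos_of_ne_zero (hne y hy)) hxy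
    exact Prod.ext e2 e3
  have hmaps : ∀ x ∈ S, i x ∈ (Finset.Icc 1 N).filter Squarefree := by
    intro x hx
    obtain ⟨g1, g2, g3, g4, g5, g6, g7⟩ := hfac x hx
    rw [Finset.mem_filter, Finset.mem_Icc]
    have hdvd : (∏ p ∈ x.1, p) ∣ 2 * h := by
      apply Finset.prod_primes_dvd
      · intro p hp
        exact (hR'p p (g1 hp)).prime
      · intro p hp
        exact Nat.dvd_of_mem_primeFactors (g1 hp)
    have hx0 : x.1 ⊆ R1 := by
      rw [hS, Finset.mem_product, Finset.mem_powerset] at hx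
      exact hx.1
    have hle : (∏ p ∈ x.1, p) ≤ M := (Finset.prod_le_prod_of_subset_of_one_le' hx0
      (fun p hp _ => (hR'p p (hR1 hp)).one_lt.le)).trans hR1M
    have hsq : Squarefree (∏ p ∈ x.1, p) := by
      refine Finset.squarefree_prod_of_pairwise_isCoprime (fun p hp r hr hpr => ?_) fun p hp => ?_
      · simp only [← Nat.coprime_iff_isRelPrime]
        exact (Nat.coprime_primes (hR'p p (g1 hp)) (hR'p r (g1 hr))).mpr hpr
      · exact (hR'p p (g1 hp)).squarefree
    refine ⟨⟨Nat.one_le_iff_ne_zero.mpr (Nat.mul_ne_zero (hne x hx) (by omega)), ?_⟩, ?_⟩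
    · exact (Nat.mul_le_mul hle g5).trans hMN
    · simp only [hi]
      rw [Nat.squarefree_mul g3]
      exact ⟨hsq, g6⟩
  have hFnn : ∀ l : ℕ, 0 ≤ F l := by
    intro l
    simp only [hF]
    apply Finset.prod_nonneg
    intro p hp
    have hpp := Nat.prime_of_mem_primeFactors hp
    have hp2 : (2 : ℝ) ≤ p := by exact_mod_cast hpp.two_le
    split_ifs
    · apply div_nonneg (by norm_num) (by linarith)
    · apply div_nonneg (by norm_num) (by linarith)
  have hterm : ∀ x ∈ S, (∏ p ∈ x.1, (1 / (p : ℝ))) * ((x.2.divisors.card : ℝ) / x.2) ≤ F (i x) := by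
    intro x hx
    obtain ⟨g1, g2, g3, g4, g5, g6, g7⟩ := hfac x hx
    simp only [hF]
    rw [hpf x hx, Finset.prod_union (hdisj x hx)]
    apply mul_le_mul
    · apply Finset.prod_le_prod
      · intro p _
        positivity
      · intro p hp
        have hpp := hR'p p (g1 hp)
        have hpd : p ∣ 2 * h := Nat.dvd_of_mem_primeFactors (g1 hp)
        rw [if_neg (by rw [Finset.mem_filter]; exact fun h => h.2.2 hpd)]
        have hp2 : (2 : ℝ) ≤ p := by exact_mod_cast hpp.two_le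
        apply div_le_div_of_nonneg_left (by norm_num) (by linarith) (by linarith)
    · rw [card_divisors_sqfree g6]
      have hlprod : (x.2 : ℝ) = ∏ p ∈ x.2.primeFactors, (p : ℝ) := by
        have := Nat.prod_primeFactors_of_squarefree g6
        conv_lhs => rw [← this]
        push_cast
        rfl
      conv_lhs => rw [hlprod]
      rw [← Finset.prod_div_distrib]
      apply Finset.prod_le_prod
      · intro p _; positivity
      · intro p hp
        have hpp := Nat.prime_of_mem_primeFactors hp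
        have hpl := Nat.dvd_of_mem_primeFactors hp
        have hpR' : ¬ p ∣ 2 * h := by
          intro hd
          exact g7 p (Nat.mem_primeFactors.mpr ⟨hpp, hd, by positivity⟩) hpl
        have hpN : p ≤ N := by
          have t1 : p ≤ x.2 := Nat.le_of_dvd g4 hpl
          have t2 : M ≤ M * M := Nat.le_mul_of_pos_left M hM
          omega
        have hpmem : p ∈ (Finset.Icc 1 N).filter (fun p => p.Prime ∧ ¬ p ∣ 2 * h) := by
          rw [Finset.mem_filter, Finset.mem_Icc]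
          exact ⟨⟨hpp.one_lt.le, hpN⟩, hpp, hpR'⟩
        rw [if_pos hpmem]
        have hp3 : 3 ≤ p := by
          rcases Nat.lt_or_ge p 3 with h9 | h9
          · have : p = 2 := le_antisymm (by omega) hpp.two_le
            subst this
            exact absurd (dvd_mul_right 2 h) hpR'
          · exact h9
        have hp3' : (3 : ℝ) ≤ p := by exact_mod_cast hp3
        apply div_le_div_of_nonneg_left (by norm_num) (by linarith) (by linarith)
    · positivity
    · apply Finset.prod_nonneg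
      intro p hp
      have hpp := hR'p p (g1 hp)
      have hp2 : (2 : ℝ) ≤ p := by exact_mod_cast hpp.two_le
      split_ifs
      · apply div_nonneg (by norm_num) (by linarith)
      · apply div_nonneg (by norm_num) (by linarith)
  rw [hexp]
  calc ∑ x ∈ S, (∏ p ∈ x.1, (1 / (p : ℝ))) * ((x.2.divisors.card : ℝ) / x.2)
      ≤ ∑ x ∈ S, F (i x) := Finset.sum_le_sum hterm
    _ = ∑ l ∈ S.image i, F l := (Finset.sum_image hinj).symm
    _ ≤ ∑ l ∈ (Finset.Icc 1 N).filter Squarefree, F l := by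
        apply Finset.sum_le_sum_of_subset_of_nonneg
        · intro l hl
          obtain ⟨x, hx, rfl⟩ := Finset.mem_image.mp hl
          exact hmaps x hx
        · intro l _ _
          exact hFnn l


lemma small_part (h M u : ℕ) (hh : 0 < h) (hhu : h ≤ u) (hM1 : 1 ≤ M) (hu1 : (1 : ℝ) < u)
    (hlogM : (1 / 32) * Real.log u ≤ Real.log M) :
    ∃ R1 : Finset ℕ, R1 ⊆ (2 * h).primeFactors ∧ (∏ p ∈ R1, p) ≤ M ∧
      gg (2 * h) ≤ Real.exp 128 * ∏ r ∈ R1, (1 + 1 / (r : ℝ)) := by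
  classical
  obtain ⟨y, hy⟩ : ∃ y : ℕ, y = Nat.log 4 M := ⟨_, rfl⟩
  have hlogu : 0 < Real.log u := Real.log_pos hu1
  have hlM : 0 < Real.log M := lt_of_lt_of_le (by positivity) hlogM
  have hlog2 := Real.log_two_gt_d9
  have hlog4 : Real.log 4 = 2 * Real.log 2 := by
    rw [show (4 : ℝ) = 2 ^ 2 by norm_num, Real.log_pow]
    norm_num
  refine ⟨(2 * h).primeFactors.filter (fun p => p ≤ y), Finset.filter_subset _ _, ?_, ?_⟩
  · have h1 : (∏ p ∈ (2 * h).primeFactors.filter (fun p => p ≤ y), p) ≤ primorial y := by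
      unfold primorial
      apply Finset.prod_le_prod_of_subset_of_one_le'
      · intro p hp
        rw [Finset.mem_filter] at hp
        rw [Finset.mem_filter, Finset.mem_range]
        exact ⟨by omega, Nat.prime_of_mem_primeFactors hp.1⟩
      · intro p hp _
        exact (Finset.mem_filter.1 hp).2.one_lt.le
    refine h1.trans ((primorial_le_four_pow y).trans ?_)
    rw [hy]
    exact Nat.pow_log_le_self 4 (by omega)
  · have h1 : gg (2 * h) = (∏ r ∈ (2 * h).primeFactors.filter (fun p => p ≤ y), (1 + 1 / (r : ℝ))) *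
        ∏ r ∈ (2 * h).primeFactors.filter (fun p => ¬ p ≤ y), (1 + 1 / (r : ℝ)) := by
      unfold gg
      exact (Finset.prod_filter_mul_prod_filter_not _ _ _).symm
    have h2 : ∏ r ∈ (2 * h).primeFactors.filter (fun p => ¬ p ≤ y), (1 + 1 / (r : ℝ)) ≤ Real.exp 128 := by
      have h3 : ∏ r ∈ (2 * h).primeFactors.filter (fun p => ¬ p ≤ y), (1 + 1 / (r : ℝ)) ≤
          ∏ _r ∈ (2 * h).primeFactors.filter (fun p => ¬ p ≤ y), Real.exp (Real.log 4 / Real.log M) := by
        apply Finset.prod_le_prod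
        · intro p _
          positivity
        · intro p hp
          rw [Finset.mem_filter] at hp
          have h4 : M < 4 ^ p := by
            have h5 : M < 4 ^ (y + 1) := by rw [hy]; exact Nat.lt_pow_succ_log_self (by norm_num) M
            exact h5.trans_le (Nat.pow_le_pow_right (by norm_num) (by omega))
          have h5 : Real.log M ≤ p * Real.log 4 := by
            rw [← Real.log_pow]
            apply Real.log_le_log (by exact_mod_cast hM1)
            exact_mod_cast h4.le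
          have h6 : (0 : ℝ) < p := by
            exact_mod_cast (Nat.prime_of_mem_primeFactors hp.1).pos
          have h7 : 1 / (p : ℝ) ≤ Real.log 4 / Real.log M := by
            rw [div_le_div_iff₀ h6 hlM]
            linarith
          have h8 := Real.add_one_le_exp (Real.log 4 / Real.log M)
          linarith
      refine h3.trans ?_
      rw [Finset.prod_const, ← Real.exp_nat_mul, Real.exp_le_exp]
      have h4 : 2 ^ ((2 * h).primeFactors.filter (fun p => ¬ p ≤ y)).card ≤ 2 * h := by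
        have h5 : 2 ^ ((2 * h).primeFactors.filter (fun p => ¬ p ≤ y)).card ≤
            ∏ p ∈ (2 * h).primeFactors.filter (fun p => ¬ p ≤ y), p := by
          apply Finset.pow_card_le_prod
          intro p hp
          exact (Nat.prime_of_mem_primeFactors (Finset.mem_filter.1 hp).1).two_le
        refine h5.trans ?_
        refine (Finset.prod_le_prod_of_subset_of_one_le' (Finset.filter_subset _ _)
          (fun p hp _ => (Nat.prime_of_mem_primeFactors hp).one_lt.le)).trans ?_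
        exact Nat.le_of_dvd (by omega) (Nat.prod_primeFactors_dvd _)
      have h5 : (((2 * h).primeFactors.filter (fun p => ¬ p ≤ y)).card : ℝ) * Real.log 2 ≤
          Real.log 2 + Real.log u := by
        have h6 : ((2 : ℝ)) ^ ((2 * h).primeFactors.filter (fun p => ¬ p ≤ y)).card ≤ 2 * u := by
          calc ((2 : ℝ)) ^ ((2 * h).primeFactors.filter (fun p => ¬ p ≤ y)).card ≤ 2 * h := by
                exact_mod_cast h4
            _ ≤ 2 * u := by
                have : (h : ℝ) ≤ u := by exact_mod_cast hhu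
                linarith
        have h7 := Real.log_le_log (by positivity) h6
        rwa [Real.log_pow, Real.log_mul (by norm_num) (by linarith)] at h7
      have h2u : Real.log 2 ≤ Real.log u := by
        apply Real.log_le_log (by norm_num)
        have : 1 < u := by exact_mod_cast hu1
        exact_mod_cast this
      rw [hlog4]
      have h8 : (((2 * h).primeFactors.filter (fun p => ¬ p ≤ y)).card : ℝ) *
          (2 * Real.log 2 / Real.log M) = 2 * ((((2 * h).primeFactors.filter (fun p => ¬ p ≤ y)).card : ℝ) *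
            Real.log 2) / Real.log M := by ring
      rw [h8, div_le_iff₀ hlM]
      linarith
    have h3 : (0 : ℝ) ≤ ∏ r ∈ (2 * h).primeFactors.filter (fun p => p ≤ y), (1 + 1 / (r : ℝ)) := by
      positivity
    rw [h1, mul_comm]
    exact mul_le_mul_of_nonneg_right h2 h3

/-- Upper bound sieve for prime pairs with a given difference, with the sharp dependence on
the difference. -/
theorem pair_sieve_all : ∃ C : ℝ, 1 ≤ C ∧ ∃ u0 : ℕ, ∀ h a u : ℕ, 0 < h → u0 ≤ u → h ≤ u →
    (((Finset.Ioc a (a + u)).filter (fun n => n.Prime ∧ (n + h).Prime)).card : ℝ) ≤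
      C * gg (2 * h) * u / Real.log u ^ 2 := by
  obtain ⟨K, hKd⟩ : ∃ K : ℝ, K = Real.exp 128 := ⟨_, rfl⟩
  have hK1 : 1 ≤ K := by rw [hKd]; exact Real.one_le_exp (by norm_num)
  refine ⟨32768 * K + 1, by linarith, ?_⟩
  obtain ⟨x0, hx0⟩ := Filter.eventually_atTop.mp (pair_asymp.and asymp32)
  refine ⟨⌈x0⌉₊, ?_⟩
  intro h a u hh hu hhu
  have hux : x0 ≤ (u : ℝ) := Nat.ceil_le.mp hu
  obtain ⟨⟨hu1, h16, h34⟩, h32⟩ := hx0 u hux
  have hu0 : (0 : ℝ) < u := by linarith
  have hlog : 0 < Real.log u := Real.log_pos hu1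
  have hgg := one_le_gg (2 * h)
  set M : ℕ := ⌊(u : ℝ) ^ (1 / 16 : ℝ)⌋₊ with hM
  set N : ℕ := M * M with hN
  have hM32 : (u : ℝ) ^ (1 / 32 : ℝ) ≤ M := by
    have := Nat.lt_floor_add_one ((u : ℝ) ^ (1 / 16 : ℝ))
    rw [← hM] at this
    linarith
  have h321 : 1 ≤ (u : ℝ) ^ (1 / 32 : ℝ) := Real.one_le_rpow hu1.le (by norm_num)
  have hM1r : (1 : ℝ) ≤ M := h321.trans hM32
  have hM1 : 1 ≤ M := by exact_mod_cast hM1r
  have hN1 : 1 ≤ N := Nat.mul_pos hM1 hM1
  have hM16 : (M : ℝ) ≤ (u : ℝ) ^ (1 / 16 : ℝ) := Nat.floor_le (by positivity)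
  have hN8 : (N : ℝ) ≤ (u : ℝ) ^ (1 / 8 : ℝ) := by
    have e : (u : ℝ) ^ (1 / 8 : ℝ) = (u : ℝ) ^ (1 / 16 : ℝ) * (u : ℝ) ^ (1 / 16 : ℝ) := by
      rw [← Real.rpow_add hu0]; norm_num
    rw [e, hN]
    push_cast
    gcongr
  have hlogM : (1 / 32) * Real.log u ≤ Real.log M := by
    rw [← Real.log_rpow hu0]
    exact Real.log_le_log (by positivity) hM32
  obtain ⟨R1, hR1, hR1M, hKR⟩ := small_part h M u hh hhu hM1 (by linarith) hlogM
  rw [← hKd] at hKR
  have hlow := selberg_gen hh hM1 le_rfl R1 hR1 hR1M K hK1 hKR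
  set R := (Finset.Icc 1 N).filter (fun p => p.Prime ∧ ¬ p ∣ 2 * h) with hR
  have hRp : ∀ r ∈ R, r.Prime := fun r hr => (Finset.mem_filter.mp hr).2.1
  have hR3 : ∀ r ∈ R, 3 ≤ r := by
    intro r hr
    have h1 := (Finset.mem_filter.mp hr).2
    rcases Nat.lt_or_ge r 3 with h9 | h9
    · have : r = 2 := le_antisymm (by omega) h1.1.two_le
      subst this
      exact absurd (dvd_mul_right 2 h) h1.2
    · exact h9
  have hRh : ∀ r ∈ R, ¬ r ∣ h := by
    intro r hr hd
    exact (Finset.mem_filter.mp hr).2.2 (hd.mul_left 2)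
  have hL : 0 < Real.log M ^ 2 / (32 * K * gg (2 * h)) := by
    have : 0 < Real.log M := lt_of_lt_of_le (by positivity) hlogM
    positivity
  have h1 := pair_aux (s := h) hR3 hRp hRh (a := a) (u := u) hN1 _ hL hlow
  have hsub : (Finset.Ioc a (a + u)).filter (fun n => n.Prime ∧ (n + h).Prime) ⊆
      (Finset.Ioc a (a + u)).filter (fun n => n.Prime ∧ ∀ r ∈ R, ¬ r ∣ n + h) ∪ Finset.Icc 1 N := by
    intro n hn
    rw [Finset.mem_filter] at hn
    obtain ⟨hn1, hn2, hn3⟩ := hn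
    rw [Finset.mem_union, Finset.mem_filter, Finset.mem_Icc]
    by_cases hnN : n ≤ N
    · exact Or.inr ⟨hn2.one_lt.le, hnN⟩
    · left
      refine ⟨hn1, hn2, ?_⟩
      intro r hr hd
      have hrN := (Finset.mem_Icc.mp (Finset.mem_filter.mp hr).1).2
      have := (Nat.prime_dvd_prime_iff_eq (hRp r hr) hn3).mp hd
      omega
  have h2 : (((Finset.Ioc a (a + u)).filter (fun n => n.Prime ∧ (n + h).Prime)).card : ℝ) ≤
      (((Finset.Ioc a (a + u)).filter (fun n => n.Prime ∧ ∀ r ∈ R, ¬ r ∣ n + h)).card : ℝ) + N := by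
    have := (Finset.card_le_card hsub).trans (Finset.card_union_le _ _)
    rw [Nat.card_Icc, Nat.add_sub_cancel] at this
    exact_mod_cast this
  have h3 : (u : ℝ) / (Real.log M ^ 2 / (32 * K * gg (2 * h))) ≤
      32768 * K * gg (2 * h) * u / Real.log u ^ 2 := by
    have h4 : (1 / 1024) * Real.log u ^ 2 ≤ Real.log M ^ 2 := by
      have : ((1 / 32) * Real.log u) ^ 2 ≤ Real.log M ^ 2 := by gcongr
      calc _ = ((1 / 32) * Real.log u) ^ 2 := by ring
        _ ≤ _ := this
    calc (u : ℝ) / (Real.log M ^ 2 / (32 * K * gg (2 * h)))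
        ≤ (u : ℝ) / ((1 / 1024) * Real.log u ^ 2 / (32 * K * gg (2 * h))) := by gcongr
      _ = 32768 * K * gg (2 * h) * u / Real.log u ^ 2 := by
          field_simp
          ring
  have h6 : (N : ℝ) ^ 6 ≤ (u : ℝ) ^ (3 / 4 : ℝ) := by
    calc (N : ℝ) ^ 6 ≤ ((u : ℝ) ^ (1 / 8 : ℝ)) ^ 6 := by gcongr
      _ = (u : ℝ) ^ (3 / 4 : ℝ) := by
          rw [← Real.rpow_natCast _ 6, ← Real.rpow_mul hu0.le]; norm_num
  have h7 : (N : ℝ) ≤ (u : ℝ) ^ (3 / 4 : ℝ) := by
    calc (N : ℝ) ≤ (u : ℝ) ^ (1 / 8 : ℝ) := hN8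
      _ ≤ (u : ℝ) ^ (3 / 4 : ℝ) := Real.rpow_le_rpow_of_exponent_le hu1.le (by norm_num)
  have h8 : (u : ℝ) / Real.log u ^ 2 ≤ gg (2 * h) * u / Real.log u ^ 2 := by
    apply div_le_div_of_nonneg_right _ (by positivity)
    nlinarith
  have h9 : (32768 * K + 1) * gg (2 * h) * (u : ℝ) / Real.log u ^ 2 =
    32768 * K * gg (2 * h) * u / Real.log u ^ 2 + gg (2 * h) * u / Real.log u ^ 2 := by ring
  rw [h9]
  linarith

open Finset in
/-- the second moment method, all sets of odd numbers up to `x` -/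
theorem second_moment_all : ∃ C : ℝ, 1 ≤ C ∧ ∃ u0 : ℕ, ∀ (x Y : ℕ) (S : Finset ℕ), u0 ≤ x →
    Y ≤ x → S ⊆ Icc 1 Y → (∀ a ∈ S, 3 ≤ a ∧ a % 2 = 1) →
    ((#S : ℝ) * #(QQ x)) ^ 2 ≤ #(RR S x) * ((#S : ℝ) * #(QQ x) +
      C * (∑ z ∈ S.offDiag, gg (2 * Nat.dist z.1 z.2)) * x / Real.log x ^ 2) := by
  classical
  obtain ⟨C, hC, u0, hps⟩ := pair_sieve_all
  refine ⟨C, hC, max u0 1, ?_⟩
  intro x Y S hx hY hS hodd
  have hx1 : 1 ≤ x := (le_max_right _ _).trans hx
  have hxu : u0 ≤ x := (le_max_left _ _).trans hx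
  have hx1' : (1 : ℝ) ≤ x := by exact_mod_cast hx1
  have hYx : Y ≤ x := hY
  set Q := QQ x with hQ
  set Pairs := S ×ˢ Q with hPairs
  set f : ℕ × ℕ → ℕ := fun z => z.1 + z.2 with hf
  set I := Pairs.image f with hI
  set r : ℕ → ℕ := fun m => #(Pairs.filter (fun z => f z = m)) with hr
  have hcardP : #Pairs = ∑ m ∈ I, r m := Finset.card_eq_sum_card_image f Pairs
  have hcardP' : (#Pairs : ℝ) = (#S : ℝ) * #Q := by
    rw [hPairs, Finset.card_product]
    push_cast
    rfl
  have hCS : (#Pairs : ℝ) ^ 2 ≤ #I * ∑ m ∈ I, (r m : ℝ) ^ 2 := by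
    rw [hcardP]
    push_cast
    exact sq_sum_le_card_mul_sum_sq
  -- the second moment
  have hmom : ∑ m ∈ I, (r m : ℝ) ^ 2 ≤ (#S : ℝ) * #Q +
      C * (∑ z ∈ S.offDiag, gg (2 * Nat.dist z.1 z.2)) * x / Real.log x ^ 2 := by
    have e1 : ∑ m ∈ I, (r m) ^ 2 = ∑ z ∈ Pairs, r (f z) := by
      rw [Finset.sum_comp r f]
      apply Finset.sum_congr rfl
      intro m _
      rw [smul_eq_mul, sq]
    have e2 : ∑ z ∈ Pairs, r (f z) = ∑ a ∈ S, ∑ b ∈ S,
        ∑ q ∈ Q, #(Q.filter (fun q' => b + q' = a + q)) := by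
      rw [hPairs, Finset.sum_product]
      apply Finset.sum_congr rfl
      intro a _
      rw [Finset.sum_comm]
      apply Finset.sum_congr rfl
      intro q _
      simp only [hr, hf, Finset.card_filter, hPairs]
      rw [Finset.sum_product]
    have e3 : ∑ a ∈ S, ∑ b ∈ S, ∑ q ∈ Q, #(Q.filter (fun q' => b + q' = a + q)) =
        ∑ z ∈ S ×ˢ S, ∑ q ∈ Q, #(Q.filter (fun q' => z.2 + q' = z.1 + q)) := by
      rw [Finset.sum_product]
    have e4 : ∑ z ∈ S ×ˢ S, ∑ q ∈ Q, #(Q.filter (fun q' => z.2 + q' = z.1 + q)) =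
        ∑ z ∈ S.diag, ∑ q ∈ Q, #(Q.filter (fun q' => z.2 + q' = z.1 + q)) +
        ∑ z ∈ S.offDiag, ∑ q ∈ Q, #(Q.filter (fun q' => z.2 + q' = z.1 + q)) := by
      rw [← Finset.diag_union_offDiag, Finset.sum_union (Finset.disjoint_diag_offDiag S)]
    have e5 : ∑ z ∈ S.diag, ∑ q ∈ Q, #(Q.filter (fun q' => z.2 + q' = z.1 + q)) ≤ #S * #Q := by
      rw [← Finset.diag_card S, ← smul_eq_mul, ← Finset.sum_const]
      apply Finset.sum_le_sum
      intro z hz
      rw [Finset.mem_diag] at hz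
      rw [← hz.2]
      exact cnt_self x z.1
    have e6 : ∀ z ∈ S.offDiag, ((∑ q ∈ Q, #(Q.filter (fun q' => z.2 + q' = z.1 + q)) : ℕ) : ℝ) ≤
        C * gg (2 * Nat.dist z.1 z.2) * x / Real.log x ^ 2 := by
      intro z hz
      rw [mem_offDiag] at hz
      have hz1 := mem_Icc.mp (hS hz.1)
      have hz2 := mem_Icc.mp (hS hz.2.1)
      have hd0 : 0 < Nat.dist z.1 z.2 := Nat.dist_pos_of_ne hz.2.2
      have hdY : Nat.dist z.1 z.2 ≤ Y := by
        unfold Nat.dist
        omega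
      have hdY' : Nat.dist z.1 z.2 ≤ x := hdY.trans hYx
      have hbound := hps (Nat.dist z.1 z.2) 0 x hd0 hxu hdY'
      have hcnt : ∑ q ∈ Q, #(Q.filter (fun q' => z.2 + q' = z.1 + q)) ≤
          #((Ioc 0 (0 + x)).filter (fun n => n.Prime ∧ (n + Nat.dist z.1 z.2).Prime)) := by
        rcases lt_or_gt_of_ne hz.2.2 with h | h
        · have e : Nat.dist z.1 z.2 = z.2 - z.1 := Nat.dist_eq_sub_of_le h.le
          rw [e, hQ, cnt_swap]
          exact cnt_le x z.2 z.1 h
        · have e : Nat.dist z.1 z.2 = z.1 - z.2 := Nat.dist_eq_sub_of_le_right h.le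
          rw [e]
          exact cnt_le x z.1 z.2 h
      calc ((∑ q ∈ Q, #(Q.filter (fun q' => z.2 + q' = z.1 + q)) : ℕ) : ℝ)
          ≤ (#((Ioc 0 (0 + x)).filter (fun n => n.Prime ∧ (n + Nat.dist z.1 z.2).Prime)) : ℝ) := by
            exact_mod_cast hcnt
        _ ≤ _ := hbound
    have e7 : ∑ m ∈ I, (r m : ℝ) ^ 2 = ((∑ m ∈ I, (r m) ^ 2 : ℕ) : ℝ) := by push_cast; rfl
    rw [e7, e1, e2, e3, e4]
    push_cast
    have e8 : (∑ z ∈ S.diag, ∑ q ∈ Q, (#(Q.filter (fun q' => z.2 + q' = z.1 + q)) : ℝ)) ≤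
        (#S : ℝ) * #Q := by exact_mod_cast e5
    have e9 : (∑ z ∈ S.offDiag, ∑ q ∈ Q, (#(Q.filter (fun q' => z.2 + q' = z.1 + q)) : ℝ)) ≤
        C * (∑ z ∈ S.offDiag, gg (2 * Nat.dist z.1 z.2)) * x / Real.log x ^ 2 := by
      have e10 : C * (∑ z ∈ S.offDiag, gg (2 * Nat.dist z.1 z.2)) * x / Real.log x ^ 2 =
          ∑ z ∈ S.offDiag, C * gg (2 * Nat.dist z.1 z.2) * x / Real.log x ^ 2 := by
        rw [Finset.mul_sum, Finset.sum_mul, Finset.sum_div]
      rw [e10]
      apply Finset.sum_le_sum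
      intro z hz
      have := e6 z hz
      push_cast at this
      exact this
    linarith
  -- the support
  have hsupp : #I ≤ #(RR S x) := by
    have h1 : I ⊆ (RR S x).image (fun n => 2 * n) := by
      intro m hm
      obtain ⟨z, hz, rfl⟩ := mem_image.mp hm
      rw [hPairs, mem_product] at hz
      obtain ⟨hz1, hz2⟩ := hz
      rw [hQ] at hz2
      unfold QQ at hz2
      rw [mem_filter, mem_Ioc] at hz2
      obtain ⟨⟨h2, h3⟩, h4⟩ := hz2
      have h5 := hodd z.1 hz1
      have h6 := mem_Icc.mp (hS hz1)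
      have h7 : z.2 % 2 = 1 := by
        rcases h4.eq_two_or_odd with h | h
        · omega
        · exact h
      rw [mem_image]
      refine ⟨(z.1 + z.2) / 2, ?_, ?_⟩
      · unfold RR
        rw [mem_filter, mem_Icc]
        refine ⟨⟨by omega, by omega⟩, z.1, hz1, z.2, h4, ?_⟩
        omega
      · simp only [hf]
        omega
    exact (Finset.card_le_card h1).trans Finset.card_image_le
  have hmom0 : 0 ≤ ∑ m ∈ I, (r m : ℝ) ^ 2 := Finset.sum_nonneg (fun _ _ => by positivity)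
  rw [← hcardP']
  refine hCS.trans ?_
  have hsupp' : (#I : ℝ) ≤ #(RR S x) := by exact_mod_cast hsupp
  rw [hcardP']
  apply mul_le_mul hsupp' hmom hmom0 (Nat.cast_nonneg _)

end Pool.Agent.Y561.SQ
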