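import Pool.Agent.Y561.SQ.Avg
import Pool.Agent.Y561.SQ.Pair

set_option autoImplicit false
set_option maxHeartbeats 1000000

/-! # The lower bound for the number of the even integers `q + m²`, `m ∈ S` -/

namespace Pool.Agent.Y561.SQ

open Finset Filter Pool.Agent.H197R2.PG

lemma e_le_log {r : ℝ} (hr : 16 ≤ r) : Real.exp 1 ≤ Real.log r := by
  have h1 : Real.log 16 ≤ Real.log r := Real.log_le_log (by norm_num) hr
  have h2 : Real.log 16 = 4 * Real.log 2 := by
    rw [show (16 : ℝ) = 2 ^ 4 by norm_num, Real.log_pow]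
    norm_num
  have h3 := Real.log_two_gt_d9
  have h4 := Real.exp_one_lt_d9
  linarith

lemma one_le_loglog {r : ℝ} (hr : 16 ≤ r) : 1 ≤ Real.log (Real.log r) := by
  have h1 := e_le_log hr
  have h2 := Real.exp_pos 1
  rw [Real.le_log_iff_exp_le (by linarith)]
  exact h1

/-- the elementary inequality at the end -/
lemma final_ineq (N t t0 B x L s l K : ℝ) (hN : 0 ≤ N) (hx : 0 < x) (hL : 0 < L) (hs : 0 < s)
    (hl : 1 ≤ l) (hK : 0 < K) (ht0 : t0 = s * x / (2 * L)) (hB : B = K * l * s ^ 2 * x / L ^ 2)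
    (ht : t0 ≤ t) (hmain : t ^ 2 ≤ N * (t + B)) :
    1 / (2 * (1 + 2 * K)) * (x * min (s / L) (1 / l)) ≤ N := by
  have ht0p : 0 < t0 := by rw [ht0]; positivity
  have htp : 0 < t := lt_of_lt_of_le ht0p ht
  obtain ⟨u, hu⟩ : ∃ u, u = s / L := ⟨_, rfl⟩
  have hup : 0 < u := by rw [hu]; positivity
  have hBt : B ≤ 2 * K * l * u * t := by
    have h1 : B = 2 * K * l * u * t0 := by
      rw [hB, hu, ht0]
      field_simp
    rw [h1]
    exact mul_le_mul_of_nonneg_left ht (by positivity)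
  have h2 : t * t ≤ t * (N * (1 + 2 * K * l * u)) := by
    calc t * t = t ^ 2 := by ring
      _ ≤ N * (t + B) := hmain
      _ ≤ N * (t + 2 * K * l * u * t) := by gcongr
      _ = t * (N * (1 + 2 * K * l * u)) := by ring
  have h3 : t ≤ N * (1 + 2 * K * l * u) := le_of_mul_le_mul_left h2 htp
  obtain ⟨m, hm⟩ : ∃ m, m = min u (1 / l) := ⟨_, rfl⟩
  have hm1 : m ≤ u := by rw [hm]; exact min_le_left _ _
  have hm2 : m ≤ 1 / l := by rw [hm]; exact min_le_right _ _
  have hl0 : 0 < l := by linarith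
  have hm0 : 0 < m := by rw [hm]; exact lt_min hup (by positivity)
  have hml : m * l ≤ 1 := by rwa [le_div_iff₀ hl0] at hm2
  rw [← hu, ← hm]
  have h4 : m * (1 + 2 * K * l * u) ≤ (1 + 2 * K) * u := by
    calc m * (1 + 2 * K * l * u) = m + 2 * K * u * (m * l) := by ring
      _ ≤ u + 2 * K * u * 1 := by gcongr
      _ = (1 + 2 * K) * u := by ring
  have h5 : x * u / 2 ≤ N * (1 + 2 * K * l * u) := by
    have : x * u / 2 = t0 := by rw [hu, ht0]; field_simp
    rw [this]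
    exact ht.trans h3
  have h6 : 0 < 1 + 2 * K * l * u := by positivity
  have h7 : 1 / (2 * (1 + 2 * K)) * (x * m) * (1 + 2 * K * l * u) ≤ N * (1 + 2 * K * l * u) := by
    calc 1 / (2 * (1 + 2 * K)) * (x * m) * (1 + 2 * K * l * u) =
        1 / (2 * (1 + 2 * K)) * x * (m * (1 + 2 * K * l * u)) := by ring
      _ ≤ 1 / (2 * (1 + 2 * K)) * x * ((1 + 2 * K) * u) := by gcongr
      _ = x * u / 2 := by field_simp
      _ ≤ _ := h5
  exact le_of_mul_le_mul_right h7 h6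

theorem lower : ∃ c : ℝ, 0 < c ∧ ∃ x0 : ℕ, ∀ x M : ℕ, x0 ≤ x →
    M ^ 2 ≤ x → ∀ S : Finset ℕ, S.Nonempty → S ⊆ Icc 3 M →
    (∀ m ∈ S, m % 2 = 1) →
    c * (x * min (#S / Real.log x) (1 / Real.log (Real.log (16 * M / #S)))) ≤
      #(RR (S.image (fun m => m ^ 2)) x) := by
  classical
  obtain ⟨C2, hC2, u0, hsm⟩ := second_moment_all
  obtain ⟨Cs, hCs, hsmall⟩ := Pool.Agent.TH685.TI.small_le
  obtain ⟨x1, hx1⟩ := eventually_atTop.mp QQ_card
  refine ⟨1 / (2 * (1 + 2 * (9 * C2 * Cs))), by positivity, max (max u0 x1) 3, ?_⟩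
  intro x M hx hMx S hSne hSM hodd
  have hxu : u0 ≤ x := (le_max_left _ _).trans ((le_max_left _ _).trans hx)
  have hxx1 : x1 ≤ x := (le_max_right _ _).trans ((le_max_left _ _).trans hx)
  have hx3 : 3 ≤ x := (le_max_right _ _).trans hx
  have hxr : (3 : ℝ) ≤ x := by exact_mod_cast hx3
  have hL : 0 < Real.log x := Real.log_pos (by linarith)
  have hs1 : 1 ≤ #S := card_pos.2 hSne
  have hsr : (1 : ℝ) ≤ #S := by exact_mod_cast hs1
  have hSM1 : S ⊆ Icc 1 M := by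
    intro m hm
    have := mem_Icc.1 (hSM hm)
    rw [mem_Icc]
    omega
  have hsM : #S ≤ M := by
    have := card_le_card hSM1
    rwa [Nat.card_Icc, Nat.add_sub_cancel] at this
  have hsMr : (#S : ℝ) ≤ M := by exact_mod_cast hsM
  obtain ⟨r, hr⟩ : ∃ r : ℝ, r = 16 * M / #S := ⟨_, rfl⟩
  have hr16 : 16 ≤ r := by
    rw [hr, le_div_iff₀ (by linarith)]
    linarith
  obtain ⟨l, hl⟩ : ∃ l : ℝ, l = Real.log (Real.log r) := ⟨_, rfl⟩
  have hl1 : 1 ≤ l := by rw [hl]; exact one_le_loglog hr16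
  have he := e_le_log hr16
  have he1 : 1 < Real.exp 1 := by
    have := Real.add_one_lt_exp (show (1 : ℝ) ≠ 0 by norm_num)
    linarith
  have hlr : 1 < Real.log r := lt_of_lt_of_le he1 he
  obtain ⟨q, hq⟩ : ∃ q : ℕ, q = ⌈Real.log r⌉₊ := ⟨_, rfl⟩
  have hq1 : Real.log r ≤ q := by rw [hq]; exact Nat.le_ceil _
  have hq2 : (q : ℝ) < Real.log r + 1 := by rw [hq]; exact Nat.ceil_lt_add_one (by linarith)
  have hq2' : 2 ≤ q := by
    have : (1 : ℝ) < q := by linarith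
    exact_mod_cast this
  obtain ⟨w, hw⟩ : ∃ w : ℕ, w = 2 * q := ⟨_, rfl⟩
  have hw3 : 3 ≤ w := by omega
  have hlogw : Real.log w ≤ 3 * l := by
    have h1 : (w : ℝ) ≤ 4 * Real.log r := by
      rw [hw]
      push_cast
      linarith
    have h2 : Real.log w ≤ Real.log (4 * Real.log r) :=
      Real.log_le_log (by have : (3 : ℝ) ≤ w := by exact_mod_cast hw3
                          linarith) h1
    rw [Real.log_mul (by norm_num) (by linarith), ← hl] at h2
    have h3 : Real.log 4 = 2 * Real.log 2 := by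
      rw [show (4 : ℝ) = 2 ^ 2 by norm_num, Real.log_pow]
      norm_num
    have h4 := Real.log_two_lt_d9
    linarith
  have hT : 16 * (M : ℝ) ≤ Real.exp 1 ^ q * #S := by
    have h1 : r ≤ Real.exp 1 ^ q := by
      rw [← Real.exp_nat_mul, mul_one]
      calc r = Real.exp (Real.log r) := (Real.exp_log (by linarith)).symm
        _ ≤ Real.exp q := Real.exp_le_exp.2 hq1
    have h2 : 16 * (M : ℝ) = r * #S := by
      rw [hr]
      field_simp
    rw [h2]
    exact mul_le_mul_of_nonneg_right h1 (by linarith)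
  have hsum := sum_gg w q M S (Real.exp 1) (by omega) (by omega) hSM1 (Real.exp_pos 1).le hT
  have hcard : #(S.image (fun m => m ^ 2)) = #S := by
    rw [card_image_of_injective]
    exact fun a b h => (Nat.pow_left_injective (n := 2) (by norm_num)) h
  have hsub : S.image (fun m => m ^ 2) ⊆ Icc 1 (M ^ 2) := by
    intro a ha
    obtain ⟨m, hm, rfl⟩ := mem_image.1 ha
    have := mem_Icc.1 (hSM1 hm)
    rw [mem_Icc]
    exact ⟨Nat.one_le_pow _ _ (by omega), Nat.pow_le_pow_left this.2 2⟩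
  have hodd2 : ∀ a ∈ S.image (fun m => m ^ 2), 3 ≤ a ∧ a % 2 = 1 := by
    intro a ha
    obtain ⟨m, hm, rfl⟩ := mem_image.1 ha
    have h1 := mem_Icc.1 (hSM hm)
    have h2 := hodd m hm
    refine ⟨by nlinarith, ?_⟩
    rw [Nat.pow_mod, h2]
  have hmain := hsm x (M ^ 2) (S.image (fun m => m ^ 2)) hxu hMx hsub hodd2
  rw [hcard] at hmain
  have hQ := hx1 x hxx1
  obtain ⟨L, hLd⟩ : ∃ L : ℝ, L = Real.log x := ⟨_, rfl⟩
  rw [← hLd] at hL hmain hQ ⊢
  rw [← hr, ← hl]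
  obtain ⟨B, hB⟩ : ∃ B : ℝ, B = 9 * C2 * Cs * l * (#S : ℝ) ^ 2 * x / L ^ 2 := ⟨_, rfl⟩
  have hsum2 : ∑ z ∈ (S.image (fun m => m ^ 2)).offDiag, gg (2 * Nat.dist z.1 z.2) ≤
      9 * Cs * l * (#S : ℝ) ^ 2 := by
    refine hsum.trans ?_
    have h1 := hsmall w hw3
    have h2 := Real.exp_one_lt_d9
    have h3 : (∏ p ∈ (Icc 1 w).filter Nat.Prime, (1 + 1 / (p : ℝ))) ≤ Cs * (3 * l) :=
      h1.trans (mul_le_mul_of_nonneg_left hlogw (by linarith))
    calc (∏ p ∈ (Icc 1 w).filter Nat.Prime, (1 + 1 / (p : ℝ))) * (Real.exp 1 * (#S : ℝ) ^ 2) ≤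
        (Cs * (3 * l)) * (3 * (#S : ℝ) ^ 2) := by
          apply mul_le_mul h3 _ (by positivity) (by positivity)
          apply mul_le_mul_of_nonneg_right (by linarith) (by positivity)
      _ = 9 * Cs * l * (#S : ℝ) ^ 2 := by ring
  refine final_ineq _ ((#S : ℝ) * #(QQ x)) ((#S : ℝ) * x / (2 * L)) B x L #S l (9 * C2 * Cs)
    (Nat.cast_nonneg _) (by linarith) hL (by linarith) hl1 (by positivity) rfl hB ?_ ?_
  · calc (#S : ℝ) * x / (2 * L) = #S * (x / (2 * L)) := by ring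
      _ ≤ _ := mul_le_mul_of_nonneg_left hQ (by linarith)
  · refine hmain.trans ?_
    apply mul_le_mul_of_nonneg_left _ (Nat.cast_nonneg _)
    have h1 : C2 * (∑ z ∈ (S.image (fun m => m ^ 2)).offDiag, gg (2 * Nat.dist z.1 z.2)) * x / L ^ 2 ≤ B := by
      rw [hB]
      calc C2 * (∑ z ∈ (S.image (fun m => m ^ 2)).offDiag, gg (2 * Nat.dist z.1 z.2)) * x / L ^ 2 ≤
          C2 * (9 * Cs * l * (#S : ℝ) ^ 2) * x / L ^ 2 := by gcongr
        _ = _ := by ring
    linarith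

end Pool.Agent.Y561.SQ
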