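import Pool.Agent.Y561.SQ.Upper

set_option autoImplicit false
set_option maxHeartbeats 1000000

/-! # The exact order of the least number of the even integers `q + m²`, `m ∈ S` -/

namespace Pool.Agent.Y561.SQ

open Finset Filter Pool.Agent.H197R2.PG

theorem lower_reps : ∃ c : ℝ, 0 < c ∧ ∃ x0 : ℕ, ∀ x M : ℕ, x0 ≤ x → 2 * M ^ 2 ≤ x →
    ∀ S : Finset ℕ, S.Nonempty → S ⊆ Icc 3 M → (∀ m ∈ S, m % 2 = 1) →
    c * (x * min (#S / Real.log x) (1 / Real.log (Real.log (16 * M / #S)))) ≤ #(reps S x) := by
  obtain ⟨c, hc, x0, h⟩ := lower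
  refine ⟨c / 3, by positivity, 2 * x0 + 100, fun x M hx hM S hSne hSM hodd => ?_⟩
  have hx100 : 100 ≤ x := by omega
  have hxr : (100 : ℝ) ≤ x := by exact_mod_cast hx100
  obtain ⟨y, hy⟩ : ∃ y : ℕ, y = x / 2 := ⟨_, rfl⟩
  have hyx0 : x0 ≤ y := by omega
  have hy3 : (x : ℝ) / 3 ≤ y := by
    have : x ≤ 3 * y := by omega
    have : (x : ℝ) ≤ 3 * y := by exact_mod_cast this
    linarith
  have hyx : (y : ℝ) ≤ x := by exact_mod_cast (by omega : y ≤ x)
  have hy30 : (30 : ℝ) ≤ y := by exact_mod_cast (by omega : 30 ≤ y)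
  have hMx : M ^ 2 ≤ y := by omega
  have hmain := h y M hyx0 hMx S hSne hSM hodd
  have hcard : (#(RR (S.image (fun m => m ^ 2)) y) : ℝ) ≤ #(reps S x) := by
    rw [hy]
    exact_mod_cast RR_le S x
  refine le_trans ?_ (hmain.trans hcard)
  have hly : 0 < Real.log y := Real.log_pos (by linarith)
  have hlyx : Real.log y ≤ Real.log x := Real.log_le_log (by linarith) hyx
  have hmin : min ((#S : ℝ) / Real.log x) (1 / Real.log (Real.log (16 * M / #S))) ≤
      min (#S / Real.log y) (1 / Real.log (Real.log (16 * M / #S))) := by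
    apply min_le_min _ le_rfl
    exact div_le_div_of_nonneg_left (Nat.cast_nonneg _) hly hlyx
  have hmin0 : 0 ≤ min ((#S : ℝ) / Real.log x) (1 / Real.log (Real.log (16 * M / #S))) := by
    apply le_min
    · exact div_nonneg (Nat.cast_nonneg _) (by linarith)
    · have hs1 : 1 ≤ #S := card_pos.2 hSne
      have hsr : (1 : ℝ) ≤ #S := by exact_mod_cast hs1
      have hsM : #S ≤ M := by
        have h1 : S ⊆ Icc 1 M := hSM.trans (Icc_subset_Icc (by norm_num) le_rfl)
        have := card_le_card h1
        rwa [Nat.card_Icc, Nat.add_sub_cancel] at this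
      have hsMr : (#S : ℝ) ≤ M := by exact_mod_cast hsM
      have := one_le_loglog (r := 16 * M / #S) (by
        rw [le_div_iff₀ (by linarith)]
        linarith)
      positivity
  calc c / 3 * (x * min ((#S : ℝ) / Real.log x) (1 / Real.log (Real.log (16 * M / #S)))) =
      c * ((x / 3) * min ((#S : ℝ) / Real.log x) (1 / Real.log (Real.log (16 * M / #S)))) := by ring
    _ ≤ c * (y * min (#S / Real.log y) (1 / Real.log (Real.log (16 * M / #S)))) := by
        apply mul_le_mul_of_nonneg_left _ hc.le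
        exact mul_le_mul hy3 hmin hmin0 (by linarith)

lemma pi_up : ∀ᶠ x : ℕ in atTop, (Nat.primeCounting x : ℝ) ≤ 2 * (x / Real.log x) := by
  have h := Chebyshev.eventually_primeCounting_le (ε := 1 / 2) (by norm_num)
  have h2 := (tendsto_natCast_atTop_atTop (R := ℝ)).eventually h
  filter_upwards [h2, eventually_ge_atTop 2] with x hx hx2
  rw [Nat.floor_natCast] at hx
  refine hx.trans ?_
  have hxr : (2 : ℝ) ≤ x := by exact_mod_cast hx2
  have hlog : 0 < Real.log x := Real.log_pos (by linarith)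
  rw [mul_div_assoc]
  apply mul_le_mul_of_nonneg_right _ (by positivity)
  have h3 : Real.log 4 = 2 * Real.log 2 := by
    rw [show (4 : ℝ) = 2 ^ 2 by norm_num, Real.log_pow]
    norm_num
  have h4 := Real.log_two_lt_d9
  linarith

lemma pow_aux (w : ℕ) (hw : 3 ≤ w) : 2 * w * (w + 1) ≤ 4 ^ w := by
  induction w, hw using Nat.le_induction with
  | base => norm_num
  | succ n hn ih =>
    rw [pow_succ]
    nlinarith

theorem upper : ∃ C : ℝ, 0 < C ∧ ∃ x0 : ℕ, ∀ x M s : ℕ, x0 ≤ x → M ≤ x → 1 ≤ s →
    2 * s + 1 ≤ M → ∃ S : Finset ℕ, S ⊆ Icc 3 M ∧ (∀ m ∈ S, m % 2 = 1) ∧ #S = s ∧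
    (#(reps S x) : ℝ) ≤ C * (x * min (s / Real.log x) (1 / Real.log (Real.log (16 * M / s)))) := by
  classical
  obtain ⟨Ct, hCt, htot⟩ := totient_le
  obtain ⟨x1, hx1⟩ := eventually_atTop.mp pi_up
  refine ⟨4 * Ct + 2, by positivity, x1 + 3, fun x M s hx hMx hs hsM => ?_⟩
  have hpi := hx1 x (by omega)
  have hx3 : (3 : ℝ) ≤ x := by exact_mod_cast (by omega : 3 ≤ x)
  have hL : 0 < Real.log x := Real.log_pos (by linarith)
  have hsr : (1 : ℝ) ≤ s := by exact_mod_cast hs
  have hM3 : 3 ≤ M := by omega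
  have hMr : (3 : ℝ) ≤ M := by exact_mod_cast hM3
  have hsMr : (s : ℝ) ≤ M := by exact_mod_cast (by omega : s ≤ M)
  obtain ⟨r, hr⟩ : ∃ r : ℝ, r = 16 * M / s := ⟨_, rfl⟩
  have hr16 : 16 ≤ r := by
    rw [hr, le_div_iff₀ (by linarith)]
    linarith
  obtain ⟨l, hl⟩ : ∃ l : ℝ, l = Real.log (Real.log r) := ⟨_, rfl⟩
  have hl1 : 1 ≤ l := by rw [hl]; exact one_le_loglog hr16
  have hrM : r * s = 16 * M := by rw [hr]; field_simp
  rw [← hr, ← hl]
  -- the first odd numbers
  obtain ⟨S₁, hS₁⟩ : ∃ S₁ : Finset ℕ, S₁ = (Icc 1 s).image (fun j => 2 * j + 1) := ⟨_, rfl⟩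
  have hS₁M : S₁ ⊆ Icc 3 M := by
    intro m hm
    rw [hS₁] at hm
    obtain ⟨j, hj, rfl⟩ := mem_image.1 hm
    rw [mem_Icc] at hj ⊢
    omega
  have hS₁o : ∀ m ∈ S₁, m % 2 = 1 := by
    intro m hm
    rw [hS₁] at hm
    obtain ⟨j, hj, rfl⟩ := mem_image.1 hm
    omega
  have hS₁c : #S₁ = s := by
    rw [hS₁, card_image_of_injective, Nat.card_Icc, Nat.add_sub_cancel]
    intro a b h
    simp only at h
    omega
  by_cases hcase : (s : ℝ) / Real.log x ≤ 1 / l
  · refine ⟨S₁, hS₁M, hS₁o, hS₁c, ?_⟩
    rw [min_eq_left hcase]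
    have h1 : (#(reps S₁ x) : ℝ) ≤ s * Nat.primeCounting x := by
      have := reps_union S₁ x
      rw [hS₁c] at this
      exact_mod_cast this
    calc (#(reps S₁ x) : ℝ) ≤ s * Nat.primeCounting x := h1
      _ ≤ s * (2 * (x / Real.log x)) := mul_le_mul_of_nonneg_left hpi (by linarith)
      _ = 2 * (x * (s / Real.log x)) := by ring
      _ ≤ (4 * Ct + 2) * (x * (s / Real.log x)) := by
          apply mul_le_mul_of_nonneg_right (by linarith) (by positivity)
  · push Not at hcase
    rw [min_eq_right hcase.le]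
    obtain ⟨K, hK⟩ : ∃ K : ℕ, K = (M - 1) / s := ⟨_, rfl⟩
    have hKs : K * s ≤ M - 1 := by rw [hK]; exact Nat.div_mul_le_self _ _
    have hKs2 : M - 1 < s * (K + 1) := by
      rw [hK]
      exact Nat.lt_mul_div_succ _ (by omega)
    obtain ⟨w, hw⟩ : ∃ w : ℕ, w = Nat.log 4 K := ⟨_, rfl⟩
    have hK1 : 1 ≤ K := by
      rw [hK, Nat.one_le_div_iff (by omega)]
      omega
    have hw1 : K < 4 ^ (w + 1) := by rw [hw]; exact Nat.lt_pow_succ_log_self (by norm_num) K
    have hw2 : 4 ^ w ≤ K := by rw [hw]; exact Nat.pow_log_le_self 4 (by omega)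
    have hMs : M ≤ s * 4 ^ (w + 1) := by
      have h1 : s * (K + 1) ≤ s * 4 ^ (w + 1) := Nat.mul_le_mul_left s hw1
      omega
    have hrw : r ≤ 4 ^ (w + 3) := by
      have h1 : (M : ℝ) ≤ s * 4 ^ (w + 1) := by exact_mod_cast hMs
      rw [hr, div_le_iff₀ (by linarith)]
      calc 16 * (M : ℝ) ≤ 16 * (s * 4 ^ (w + 1)) := by linarith
        _ = 4 ^ (w + 3) * s := by ring
    have hlr0 : 0 < Real.log r := Real.log_pos (by linarith)
    have hlog4 : Real.log 4 < 1.3863 := by
      have h3 : Real.log 4 = 2 * Real.log 2 := by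
        rw [show (4 : ℝ) = 2 ^ 2 by norm_num, Real.log_pow]
        norm_num
      have h4 := Real.log_two_lt_d9
      linarith
    have hlrw : Real.log r ≤ (w + 3) * 1.3863 := by
      have h1 := Real.log_le_log (by linarith) hrw
      rw [Real.log_pow] at h1
      push_cast at h1
      have h2 : ((w : ℝ) + 3) * Real.log 4 ≤ (w + 3) * 1.3863 :=
        mul_le_mul_of_nonneg_left hlog4.le (by positivity)
      linarith
    by_cases hw3 : w < 3
    · refine ⟨S₁, hS₁M, hS₁o, hS₁c, ?_⟩
      have h1 : (#(reps S₁ x) : ℝ) ≤ x := by exact_mod_cast reps_le S₁ x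
      have h2 : (w : ℝ) ≤ 2 := by exact_mod_cast (by omega : w ≤ 2)
      have h3 : Real.log r ≤ 7 := by
        refine hlrw.trans ?_
        nlinarith
      have h4 : l ≤ 2 := by
        rw [hl, Real.log_le_iff_le_exp hlr0]
        have h5 := Real.exp_one_gt_d9
        have h6 : Real.exp 2 = Real.exp 1 ^ 2 := by
          rw [← Real.exp_nat_mul]; norm_num
        rw [h6]
        nlinarith
      refine h1.trans ?_
      have h5 : (1 : ℝ) / 2 ≤ 1 / l := div_le_div_of_nonneg_left (by norm_num) (by linarith) h4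
      calc (x : ℝ) = 2 * (x * (1 / 2)) := by ring
        _ ≤ (4 * Ct + 2) * (x * (1 / l)) := by
            apply mul_le_mul (by linarith) _ (by positivity) (by positivity)
            exact mul_le_mul_of_nonneg_left h5 (by linarith)
    · push Not at hw3
      obtain ⟨P, hP⟩ : ∃ P : ℕ, P = ∏ p ∈ (Icc 1 w).filter Nat.Prime, p := ⟨_, rfl⟩
      have hP4 : P ≤ 4 ^ w := by
        have h1 := primorial_le_four_pow w
        refine le_trans (le_of_eq ?_) h1
        rw [hP]
        unfold primorial
        congr 1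
        ext p
        rw [mem_filter, mem_filter, mem_Icc, mem_range]
        constructor
        · rintro ⟨h2, h3⟩
          exact ⟨by omega, h3⟩
        · rintro ⟨h2, h3⟩
          exact ⟨⟨h3.one_lt.le, by omega⟩, h3⟩
      have h2P : 2 ∣ P := by
        rw [hP]
        exact dvd_prod_of_mem (fun p : ℕ => p) (by
          rw [mem_filter, mem_Icc]
          exact ⟨⟨by norm_num, by omega⟩, Nat.prime_two⟩)
      have hPpos : 0 < P := by
        rw [hP]
        exact prod_pos fun p hp => (mem_filter.1 hp).2.pos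
      have hPs : P * s ≤ M - 1 := by
        calc P * s ≤ K * s := Nat.mul_le_mul_right s (hP4.trans hw2)
          _ ≤ M - 1 := hKs
      obtain ⟨S, hS⟩ : ∃ S : Finset ℕ, S = (Icc 1 s).image (fun j => 1 + P * j) := ⟨_, rfl⟩
      have hP2 : 2 ≤ P := Nat.le_of_dvd hPpos h2P
      refine ⟨S, ?_, ?_, ?_, ?_⟩
      · intro m hm
        rw [hS] at hm
        obtain ⟨j, hj, rfl⟩ := mem_image.1 hm
        rw [mem_Icc] at hj ⊢
        have h1 : P * 1 ≤ P * j := Nat.mul_le_mul_left P hj.1
        have h2 : P * j ≤ P * s := Nat.mul_le_mul_left P hj.2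
        omega
      · intro m hm
        rw [hS] at hm
        obtain ⟨j, hj, rfl⟩ := mem_image.1 hm
        obtain ⟨k, hk⟩ := h2P
        rw [hk, mul_assoc]
        omega
      · rw [hS, card_image_of_injective, Nat.card_Icc, Nat.add_sub_cancel]
        intro a b h
        simp only at h
        have h1 : P * a = P * b := by omega
        exact Nat.eq_of_mul_eq_mul_left hPpos h1
      · have h1 := reps_prog w 0 s x P hP S hS rfl
        have h2 := htot w hw3
        rw [← hP] at h2
        have hw3r : (3 : ℝ) ≤ w := by exact_mod_cast hw3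
        have hlw : 0 < Real.log w := Real.log_pos (by linarith)
        have hll : l ≤ 2 * Real.log w := by
          have h3 : Real.log r ≤ (w : ℝ) ^ 2 := by
            refine hlrw.trans ?_
            nlinarith
          have h4 : Real.log ((w : ℝ) ^ 2) = 2 * Real.log w := by
            rw [Real.log_pow]
            norm_num
          rw [hl, ← h4]
          exact Real.log_le_log hlr0 h3
        have hPx : (P : ℝ) ≤ x := by
          have h3 : P ≤ x := by
            have h4 : P * 1 ≤ P * s := Nat.mul_le_mul_left P hs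
            omega
          exact_mod_cast h3
        have h3 : ((Nat.totient P * (x / P + 1) : ℕ) : ℝ) ≤ 4 * Ct * (x * (1 / l)) := by
          push_cast
          have h4 : (((x / P : ℕ) : ℝ)) ≤ x / P := Nat.cast_div_le
          have hPr : (0 : ℝ) < P := by exact_mod_cast hPpos
          calc (Nat.totient P : ℝ) * (((x / P : ℕ) : ℝ) + 1) ≤
              (Ct / Real.log w * P) * (x / P + 1) := by
                apply mul_le_mul h2 (by linarith) (by positivity) (by positivity)
            _ = Ct / Real.log w * (x + P) := by field_simp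
            _ ≤ Ct / Real.log w * (2 * x) := by
                apply mul_le_mul_of_nonneg_left (by linarith) (by positivity)
            _ ≤ Ct * (2 / l) * (2 * x) := by
                apply mul_le_mul_of_nonneg_right _ (by positivity)
                rw [div_eq_mul_one_div Ct]
                apply mul_le_mul_of_nonneg_left _ (by linarith)
                rw [div_le_div_iff₀ hlw (by linarith)]
                linarith
            _ = 4 * Ct * (x * (1 / l)) := by ring
        have h4 : ((s * (w + 1) : ℕ) : ℝ) ≤ 2 * (x * (1 / l)) := by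
          have h5 : 2 * w * (w + 1) ≤ 4 ^ w := pow_aux w hw3
          have h6 : s * (2 * w * (w + 1)) ≤ x := by
            calc s * (2 * w * (w + 1)) ≤ s * K := Nat.mul_le_mul_left s (h5.trans hw2)
              _ = K * s := mul_comm _ _
              _ ≤ x := by omega
          have h6r : (s : ℝ) * (2 * w * (w + 1)) ≤ x := by exact_mod_cast h6
          have h7 : l ≤ 2 * w := by
            have := Real.log_le_sub_one_of_pos (show (0 : ℝ) < w by linarith)
            linarith
          push_cast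
          rw [← mul_assoc, mul_one_div, le_div_iff₀ (by linarith)]
          calc (s : ℝ) * (w + 1) * l ≤ s * (w + 1) * (2 * w) := by gcongr
            _ = s * (2 * w * (w + 1)) := by ring
            _ ≤ x := h6r
            _ ≤ 2 * x := by linarith
        have h5 : (#(reps S x) : ℝ) ≤ ((Nat.totient P * (x / P + 1) : ℕ) : ℝ) + ((s * (w + 1) : ℕ) : ℝ) := by
          exact_mod_cast h1
        calc (#(reps S x) : ℝ) ≤ _ := h5
          _ ≤ 4 * Ct * (x * (1 / l)) + 2 * (x * (1 / l)) := add_le_add h3 h4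
          _ = (4 * Ct + 2) * (x * (1 / l)) := by ring

end Pool.Agent.Y561.SQ
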