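import Pool.Agent.Y561.SQ.Lower

set_option autoImplicit false
set_option maxHeartbeats 1000000

/-! # The singular factor over the differences of an arbitrary set of primes -/

namespace Pool.Agent.Y561.SQ

open Finset Filter Pool.Agent.H197R2.PG Pool.Agent.TH685.TI

lemma gg_le_split (w : ℕ) (hw : 2 ≤ w) (d : ℕ) (hd : 0 < d) :
    gg (2 * d) ≤ (∏ p ∈ (Icc 1 w).filter Nat.Prime, (1 + 1 / (p : ℝ))) * gw w d := by
  have h := gg_split w hw d 1 hd one_pos
  have h1 : gw w 1 = 1 := by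
    unfold gw
    rw [Nat.primeFactors_one]
    simp
  rw [h1, mul_one, mul_one] at h
  exact h

/-- sums over the pairs of a set of primes -/
lemma sum_pairs (S : Finset ℕ) (M : ℕ) (hS : ∀ p ∈ S, p.Prime ∧ p ≤ M) (F : ℕ → ℝ) (hF : ∀ n, 0 ≤ F n) :
    ∑ z ∈ S.offDiag, F (Nat.dist z.1 z.2) ≤
      2 * ∑ h ∈ Icc 1 M, F h * #((Ioc 0 (0 + M)).filter (fun n => n.Prime ∧ (n + h).Prime)) := by
  classical
  have h0 : S.offDiag ⊆ (S ×ˢ S).filter (fun x => x.1 < x.2) ∪ (S ×ˢ S).filter (fun x => x.2 < x.1) := by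
    intro x hx
    rw [mem_offDiag] at hx
    rw [mem_union, mem_filter, mem_filter, mem_product]
    rcases lt_or_gt_of_ne hx.2.2 with h | h
    · exact Or.inl ⟨⟨hx.1, hx.2.1⟩, h⟩
    · exact Or.inr ⟨⟨hx.1, hx.2.1⟩, h⟩
  have key : ∑ z ∈ (S ×ˢ S).filter (fun x => x.1 < x.2), F (Nat.dist z.1 z.2) ≤
      ∑ h ∈ Icc 1 M, F h * #((Ioc 0 (0 + M)).filter (fun n => n.Prime ∧ (n + h).Prime)) := by
    have hmap : ∀ z ∈ (S ×ˢ S).filter (fun x => x.1 < x.2), z.2 - z.1 ∈ Icc 1 M := by
      intro z hz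
      rw [mem_filter, mem_product] at hz
      have := (hS z.2 hz.1.2).2
      rw [mem_Icc]
      omega
    rw [← Finset.sum_fiberwise_of_maps_to hmap]
    apply Finset.sum_le_sum
    intro h _
    have h1 : ∀ z ∈ ((S ×ˢ S).filter (fun x => x.1 < x.2)).filter (fun z => z.2 - z.1 = h),
        F (Nat.dist z.1 z.2) = F h := by
      intro z hz
      rw [mem_filter, mem_filter] at hz
      rw [Nat.dist_eq_sub_of_le hz.1.2.le, hz.2]
    rw [Finset.sum_congr rfl h1, Finset.sum_const, nsmul_eq_mul, mul_comm]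
    apply mul_le_mul_of_nonneg_left _ (hF h)
    have h2 : #(((S ×ˢ S).filter (fun x => x.1 < x.2)).filter (fun z => z.2 - z.1 = h)) ≤
        #((Ioc 0 (0 + M)).filter (fun n => n.Prime ∧ (n + h).Prime)) := by
      apply card_le_card_of_injOn (fun z => z.1)
      · intro z hz
        rw [mem_coe, mem_filter, mem_filter, mem_product] at hz
        obtain ⟨⟨⟨h3, h4⟩, h5⟩, h6⟩ := hz
        show z.1 ∈ (((Ioc 0 (0 + M)).filter (fun n => n.Prime ∧ (n + h).Prime) : Finset ℕ) : Set ℕ)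
        rw [mem_coe, mem_filter, mem_Ioc]
        have h7 := hS z.1 h3
        have h8 := hS z.2 h4
        have h9 : z.1 + h = z.2 := by omega
        refine ⟨⟨h7.1.pos, by omega⟩, h7.1, ?_⟩
        rw [h9]
        exact h8.1
      · intro z hz z' hz' heq
        rw [mem_coe, mem_filter, mem_filter, mem_product] at hz hz'
        have heq' : z.1 = z'.1 := heq
        exact Prod.ext heq' (by omega)
    exact_mod_cast h2
  have hsymm : ∑ z ∈ (S ×ˢ S).filter (fun x => x.2 < x.1), F (Nat.dist z.1 z.2) =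
      ∑ z ∈ (S ×ˢ S).filter (fun x => x.1 < x.2), F (Nat.dist z.1 z.2) := by
    apply Finset.sum_nbij' (fun z => (z.2, z.1)) (fun z => (z.2, z.1))
    · intro z hz
      rw [mem_filter, mem_product] at hz ⊢
      exact ⟨⟨hz.1.2, hz.1.1⟩, hz.2⟩
    · intro z hz
      rw [mem_filter, mem_product] at hz ⊢
      exact ⟨⟨hz.1.2, hz.1.1⟩, hz.2⟩
    · intro z _
      rfl
    · intro z _
      rfl
    · intro z _
      rw [Nat.dist_comm]
  have hd : Disjoint ((S ×ˢ S).filter (fun x => x.1 < x.2)) ((S ×ˢ S).filter (fun x => x.2 < x.1)) := by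
    rw [Finset.disjoint_left]
    intro z hz hz'
    rw [mem_filter] at hz hz'
    omega
  calc ∑ z ∈ S.offDiag, F (Nat.dist z.1 z.2) ≤
      ∑ z ∈ (S ×ˢ S).filter (fun x => x.1 < x.2) ∪ (S ×ˢ S).filter (fun x => x.2 < x.1),
        F (Nat.dist z.1 z.2) :=
        Finset.sum_le_sum_of_subset_of_nonneg h0 (fun z _ _ => hF _)
    _ = ∑ z ∈ (S ×ˢ S).filter (fun x => x.1 < x.2), F (Nat.dist z.1 z.2) +
        ∑ z ∈ (S ×ˢ S).filter (fun x => x.2 < x.1), F (Nat.dist z.1 z.2) := Finset.sum_union hd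
    _ ≤ _ := by
        rw [hsymm]
        linarith

/-- the moments of the rough factor over the differences of the primes up to `M` -/
lemma moment_primes : ∃ K : ℝ, 1 ≤ K ∧ ∃ M0 : ℕ, 2 ≤ M0 ∧ ∀ w q M : ℕ, 1 ≤ q → q + 1 ≤ w → 3 ≤ w → M0 ≤ M →
    ∀ S : Finset ℕ, (∀ p ∈ S, p.Prime ∧ p ≤ M) →
    ∑ z ∈ S.offDiag, gw w (Nat.dist z.1 z.2) ^ q ≤ K * Real.log w * (M / Real.log M) ^ 2 := by
  classical
  obtain ⟨C, hC, u0, hps⟩ := pair_sieve_all
  obtain ⟨Cs, hCs, hsmall⟩ := small_le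
  refine ⟨16 * C * Cs, ?_, max u0 2, le_max_right _ _, fun w q M hq hqw hw3 hM S hS => ?_⟩
  · nlinarith
  have hM2 : 2 ≤ M := (le_max_right _ _).trans hM
  have hMu : u0 ≤ M := (le_max_left _ _).trans hM
  have hMr : (2 : ℝ) ≤ M := by exact_mod_cast hM2
  have hlM : 0 < Real.log M := Real.log_pos (by linarith)
  have hwr : (3 : ℝ) ≤ w := by exact_mod_cast hw3
  have hlw : 0 < Real.log w := Real.log_pos (by linarith)
  have h1 := sum_pairs S M hS (fun n => gw w n ^ q) (fun n => pow_nonneg (by linarith [one_le_gw w n]) _)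
  have h2 : ∀ h ∈ Icc 1 M, gw w h ^ q * (#((Ioc 0 (0 + M)).filter (fun n => n.Prime ∧ (n + h).Prime)) : ℝ) ≤
      C * (Cs * Real.log w) * (M / Real.log M ^ 2) * gw w h ^ (q + 1) := by
    intro h hh
    rw [mem_Icc] at hh
    have h3 := hps h 0 M (by omega) hMu hh.2
    have h4 := gg_le_split w (by omega) h (by omega)
    have h5 := hsmall w hw3
    have h6 : gg (2 * h) ≤ (Cs * Real.log w) * gw w h :=
      h4.trans (mul_le_mul_of_nonneg_right h5 (by linarith [one_le_gw w h]))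
    have h7 : 0 ≤ gw w h ^ q := pow_nonneg (by linarith [one_le_gw w h]) _
    calc gw w h ^ q * (#((Ioc 0 (0 + M)).filter (fun n => n.Prime ∧ (n + h).Prime)) : ℝ) ≤
        gw w h ^ q * (C * gg (2 * h) * M / Real.log M ^ 2) := mul_le_mul_of_nonneg_left h3 h7
      _ ≤ gw w h ^ q * (C * ((Cs * Real.log w) * gw w h) * M / Real.log M ^ 2) := by
          apply mul_le_mul_of_nonneg_left _ h7
          gcongr
      _ = _ := by rw [pow_succ]; ring
  have h3 := (Finset.sum_le_sum h2).trans (le_of_eq (Finset.mul_sum _ _ _).symm)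
  have h4 := moment_gw_le w (q + 1) M (by omega) hqw
  have he := exp_two_le_eight
  have h5 : C * (Cs * Real.log w) * (M / Real.log M ^ 2) * ∑ h ∈ Icc 1 M, gw w h ^ (q + 1) ≤
      C * (Cs * Real.log w) * (M / Real.log M ^ 2) * (M * 8) := by
    apply mul_le_mul_of_nonneg_left _ (by positivity)
    exact h4.trans (mul_le_mul_of_nonneg_left he (by linarith))
  have h6 : 2 * ∑ h ∈ Icc 1 M, gw w h ^ q * (#((Ioc 0 (0 + M)).filter (fun n => n.Prime ∧ (n + h).Prime)) : ℝ) ≤
      2 * (C * (Cs * Real.log w) * (M / Real.log M ^ 2) * (M * 8)) := by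
    have := h3.trans h5
    linarith
  refine h1.trans (h6.trans (le_of_eq ?_))
  field_simp
  ring

lemma gg_le_self (n : ℕ) (hn : 0 < n) : gg n ≤ n := by
  have h1 : gg n ≤ (∏ p ∈ n.primeFactors, (p : ℝ)) := by
    unfold gg
    apply Finset.prod_le_prod
    · intro p _
      positivity
    · intro p hp
      have h2 : (2 : ℝ) ≤ p := by exact_mod_cast (Nat.prime_of_mem_primeFactors hp).two_le
      have h3 : 1 / (p : ℝ) ≤ 1 / 2 := one_div_le_one_div_of_le (by norm_num) h2
      linarith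
  refine h1.trans ?_
  have h2 : (∏ p ∈ n.primeFactors, p) ≤ n := Nat.le_of_dvd hn (Nat.prod_primeFactors_dvd n)
  calc (∏ p ∈ n.primeFactors, (p : ℝ)) = ((∏ p ∈ n.primeFactors, p : ℕ) : ℝ) := by
        rw [Nat.cast_prod]
    _ ≤ n := by exact_mod_cast h2

/-- the average of the singular factor over the differences of an arbitrary set of primes -/
theorem sum_gg_primes : ∃ K : ℝ, 1 ≤ K ∧ ∀ (M : ℕ) (S : Finset ℕ) (r : ℝ), 16 ≤ r →
    (∀ p ∈ S, p.Prime ∧ p ≤ M) → 2 ≤ M → (M : ℝ) / Real.log M ≤ r * #S →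
    ∑ z ∈ S.offDiag, gg (2 * Nat.dist z.1 z.2) ≤ K * Real.log (Real.log r) * (#S : ℝ) ^ 2 := by
  classical
  obtain ⟨K, hK, M0, hM0, hmom⟩ := moment_primes
  obtain ⟨Cs, hCs, hsmall⟩ := small_le
  refine ⟨2 * M0 + Cs * 3 * (Real.exp 3 * K), ?_, fun M S r hr hS hM2 hMr => ?_⟩
  · have : (2 : ℝ) ≤ M0 := by exact_mod_cast hM0
    have : 0 ≤ Cs * 3 * (Real.exp 3 * K) := by positivity
    linarith
  obtain ⟨l, hl⟩ : ∃ l : ℝ, l = Real.log (Real.log r) := ⟨_, rfl⟩
  have hl1 : 1 ≤ l := by rw [hl]; exact one_le_loglog hr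
  rw [← hl]
  have hcard : (#S.offDiag : ℝ) ≤ (#S : ℝ) ^ 2 := by
    have : #S.offDiag ≤ #S * #S := by
      rw [offDiag_card]
      exact Nat.sub_le _ _
    calc (#S.offDiag : ℝ) ≤ ((#S * #S : ℕ) : ℝ) := by exact_mod_cast this
      _ = (#S : ℝ) ^ 2 := by push_cast; ring
  have hs2 : (0 : ℝ) ≤ (#S : ℝ) ^ 2 := by positivity
  rcases Nat.lt_or_ge M M0 with hMM | hMM
  · have h1 : ∀ z ∈ S.offDiag, gg (2 * Nat.dist z.1 z.2) ≤ 2 * M0 := by
      intro z hz
      rw [mem_offDiag] at hz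
      have hd : 0 < Nat.dist z.1 z.2 := Nat.dist_pos_of_ne hz.2.2
      have h2 := gg_le_self (2 * Nat.dist z.1 z.2) (by omega)
      have h3 : 2 * Nat.dist z.1 z.2 ≤ 2 * M0 := by
        have h4 := (hS z.1 hz.1).2
        have h5 := (hS z.2 hz.2.1).2
        unfold Nat.dist
        omega
      exact h2.trans (by exact_mod_cast h3)
    refine (Finset.sum_le_sum h1).trans ?_
    rw [Finset.sum_const, nsmul_eq_mul]
    have h4 : (0 : ℝ) ≤ Cs * 3 * (Real.exp 3 * K) := by positivity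
    have h5 : (0 : ℝ) ≤ M0 := Nat.cast_nonneg _
    calc (#S.offDiag : ℝ) * (2 * M0) ≤ (#S : ℝ) ^ 2 * (2 * M0) :=
          mul_le_mul_of_nonneg_right hcard (by positivity)
      _ = (2 * M0) * 1 * (#S : ℝ) ^ 2 := by ring
      _ ≤ (2 * M0 + Cs * 3 * (Real.exp 3 * K)) * l * (#S : ℝ) ^ 2 := by
          apply mul_le_mul_of_nonneg_right _ hs2
          apply mul_le_mul (by linarith) hl1 (by norm_num) (by positivity)
  · have he := e_le_log hr
    have hlr : 2 < Real.log r := by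
      have := Real.exp_one_gt_d9
      linarith
    obtain ⟨q, hq⟩ : ∃ q : ℕ, q = ⌈2 * Real.log r⌉₊ := ⟨_, rfl⟩
    have hq1 : 2 * Real.log r ≤ q := by rw [hq]; exact Nat.le_ceil _
    have hq2 : (q : ℝ) < 2 * Real.log r + 1 := by rw [hq]; exact Nat.ceil_lt_add_one (by linarith)
    have hq4 : 4 ≤ q := by
      have : (4 : ℝ) ≤ q := by linarith
      exact_mod_cast this
    obtain ⟨w, hw⟩ : ∃ w : ℕ, w = 2 * q := ⟨_, rfl⟩
    have hwr : (8 : ℝ) ≤ w := by
      rw [hw]
      have : (4 : ℝ) ≤ q := by exact_mod_cast hq4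
      push_cast
      linarith
    have hlw : 0 < Real.log w := Real.log_pos (by linarith)
    have hlogw : Real.log w ≤ 3 * l := by
      have h1 : (w : ℝ) ≤ 6 * Real.log r := by
        rw [hw]
        push_cast
        linarith
      have h2 : Real.log w ≤ Real.log (6 * Real.log r) := Real.log_le_log (by linarith) h1
      rw [Real.log_mul (by norm_num) (by linarith), ← hl] at h2
      have h3 : Real.log 6 ≤ 2 := by
        rw [Real.log_le_iff_le_exp (by norm_num)]
        have h8 := Real.exp_one_gt_d9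
        have h9 : Real.exp 2 = Real.exp 1 * Real.exp 1 := by
          rw [← Real.exp_add]; norm_num
        rw [h9]
        nlinarith
      linarith
    obtain ⟨X, hX⟩ : ∃ X : ℝ, X = ∑ z ∈ S.offDiag, gw w (Nat.dist z.1 z.2) := ⟨_, rfl⟩
    have hX1 : X ≤ (Real.exp 3 * K) * (#S : ℝ) ^ 2 := by
      have h5 := hmom w q M (by omega) (by omega) (by omega) hMM S hS
      obtain ⟨m, hm⟩ : ∃ m, q = m + 1 := ⟨q - 1, by omega⟩
      rw [hm] at h5
      have h1 : X ^ (m + 1) ≤ (#S.offDiag : ℝ) ^ m * ∑ z ∈ S.offDiag, gw w (Nat.dist z.1 z.2) ^ (m + 1) := by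
        rw [hX]
        exact pow_sum_le_card_mul_sum_pow (fun z _ => by linarith [one_le_gw w (Nat.dist z.1 z.2)]) m
      have h6 : K * Real.log w * (M / Real.log M) ^ 2 ≤ (Real.exp 3 * K) ^ (m + 1) * (#S : ℝ) ^ 2 := by
        have hqr : ((m + 1 : ℕ) : ℝ) = q := by rw [hm]
        have h7 : Real.log w ≤ Real.exp 1 ^ (m + 1) := by
          rw [← Real.exp_nat_mul, mul_one, hqr]
          have h8 : Real.log w ≤ 2 * q - 1 := by
            have := Real.log_le_sub_one_of_pos (show (0 : ℝ) < w by linarith)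
            have h9 : (w : ℝ) = 2 * q := by rw [hw]; push_cast; ring
            linarith
          have h9 := Real.quadratic_le_exp_of_nonneg (Nat.cast_nonneg (α := ℝ) q)
          have h10 : (4 : ℝ) ≤ q := by exact_mod_cast hq4
          nlinarith
        have h8 : r ^ 2 ≤ Real.exp 1 ^ (m + 1) := by
          rw [← Real.exp_nat_mul, mul_one, hqr]
          calc r ^ 2 = Real.exp (2 * Real.log r) := by
                rw [two_mul, Real.exp_add, Real.exp_log (by linarith)]
                ring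
            _ ≤ Real.exp q := Real.exp_le_exp.2 hq1
        have h9 : (M / Real.log M : ℝ) ^ 2 ≤ r ^ 2 * (#S : ℝ) ^ 2 := by
          rw [← mul_pow]
          have hMr2 : (2 : ℝ) ≤ M := by exact_mod_cast hM2
          have : 0 < Real.log M := Real.log_pos (by linarith)
          exact pow_le_pow_left₀ (by positivity) hMr 2
        have h10 : K ≤ K ^ (m + 1) := le_self_pow₀ hK (by omega)
        have h11 : (1 : ℝ) ≤ Real.exp 1 ^ (m + 1) := one_le_pow₀ (Real.one_le_exp (by norm_num))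
        have h12 : Real.exp 3 = Real.exp 1 * (Real.exp 1 * Real.exp 1) := by
          rw [← Real.exp_add, ← Real.exp_add]; norm_num
        calc K * Real.log w * (M / Real.log M) ^ 2 ≤
            K ^ (m + 1) * Real.exp 1 ^ (m + 1) * (r ^ 2 * (#S : ℝ) ^ 2) := by
              apply mul_le_mul _ h9 (by positivity) (by positivity)
              exact mul_le_mul h10 h7 hlw.le (by positivity)
          _ ≤ K ^ (m + 1) * Real.exp 1 ^ (m + 1) * (Real.exp 1 ^ (m + 1) * (#S : ℝ) ^ 2) := by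
              apply mul_le_mul_of_nonneg_left _ (by positivity)
              exact mul_le_mul_of_nonneg_right h8 hs2
          _ ≤ K ^ (m + 1) * Real.exp 1 ^ (m + 1) * (Real.exp 1 ^ (m + 1) * (#S : ℝ) ^ 2) *
                Real.exp 1 ^ (m + 1) := by
              apply le_mul_of_one_le_right (by positivity) h11
          _ = (Real.exp 3 * K) ^ (m + 1) * (#S : ℝ) ^ 2 := by
              rw [h12, mul_pow, mul_pow, mul_pow]
              ring
      have h8 : X ^ (m + 1) ≤ ((Real.exp 3 * K) * (#S : ℝ) ^ 2) ^ (m + 1) := by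
        calc X ^ (m + 1) ≤ (#S.offDiag : ℝ) ^ m * ∑ z ∈ S.offDiag, gw w (Nat.dist z.1 z.2) ^ (m + 1) := h1
          _ ≤ ((#S : ℝ) ^ 2) ^ m * ((Real.exp 3 * K) ^ (m + 1) * (#S : ℝ) ^ 2) := by
              apply mul_le_mul
              · gcongr
              · exact h5.trans h6
              · apply Finset.sum_nonneg
                intro z _
                exact pow_nonneg (by linarith [one_le_gw w (Nat.dist z.1 z.2)]) _
              · positivity
          _ = ((Real.exp 3 * K) * (#S : ℝ) ^ 2) ^ (m + 1) := by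
              rw [mul_pow (Real.exp 3 * K) ((#S : ℝ) ^ 2) (m + 1), pow_succ ((#S : ℝ) ^ 2) m]
              ring
      exact le_of_pow_le_pow_left₀ (by omega) (by positivity) h8
    have h2 : ∀ z ∈ S.offDiag, gg (2 * Nat.dist z.1 z.2) ≤ (Cs * (3 * l)) * gw w (Nat.dist z.1 z.2) := by
      intro z hz
      rw [mem_offDiag] at hz
      have hd : 0 < Nat.dist z.1 z.2 := Nat.dist_pos_of_ne hz.2.2
      refine (gg_le_split w (by omega) _ hd).trans ?_
      apply mul_le_mul_of_nonneg_right _ (by linarith [one_le_gw w (Nat.dist z.1 z.2)])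
      exact (hsmall w (by omega)).trans (mul_le_mul_of_nonneg_left hlogw (by linarith))
    have h3 := (Finset.sum_le_sum h2).trans (le_of_eq (Finset.mul_sum _ _ _).symm)
    rw [← hX] at h3
    have hM00 : (0 : ℝ) ≤ M0 := Nat.cast_nonneg _
    calc ∑ z ∈ S.offDiag, gg (2 * Nat.dist z.1 z.2) ≤ (Cs * (3 * l)) * X := h3
      _ ≤ (Cs * (3 * l)) * ((Real.exp 3 * K) * (#S : ℝ) ^ 2) :=
          mul_le_mul_of_nonneg_left hX1 (by positivity)
      _ = (Cs * 3 * (Real.exp 3 * K)) * l * (#S : ℝ) ^ 2 := by ring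
      _ ≤ (2 * M0 + Cs * 3 * (Real.exp 3 * K)) * l * (#S : ℝ) ^ 2 := by
          apply mul_le_mul_of_nonneg_right _ hs2
          apply mul_le_mul_of_nonneg_right _ (by linarith)
          linarith

end Pool.Agent.Y561.SQ
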