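import Pool.Agent.Y561.SQ.PAvg
import Pool.Agent.Y561.SQ.Main

set_option autoImplicit false
set_option maxHeartbeats 1000000

/-! # Even integers `p + q`, the prime `p` in an arbitrary finite set `S` -/

namespace Pool.Agent.Y561.SQ

open Finset Filter Pool.Agent.H197R2.PG Pool.Agent.TH685.TI

lemma log_three_le : Real.log 3 ≤ 1.1 := by
  rw [Real.log_le_iff_le_exp (by norm_num)]
  have h8 := Real.exp_one_gt_d9
  have h9 : Real.exp 1.1 = Real.exp 1 * Real.exp 0.1 := by
    rw [← Real.exp_add]; norm_num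
  have h10 := Real.quadratic_le_exp_of_nonneg (show (0 : ℝ) ≤ 0.1 by norm_num)
  rw [h9]
  nlinarith [Real.exp_pos 0.1]

lemma pi_low (M : ℕ) (hM : 2 ≤ M) : (M : ℝ) / Real.log M ≤ 16 * Nat.primeCounting M := by
  have hMr : (2 : ℝ) ≤ M := by exact_mod_cast hM
  have hl : 0 < Real.log M := Real.log_pos (by linarith)
  have h := Chebyshev.pi_ge M
  have h1 : Real.log ((M : ℝ) + 1) ≤ Real.log 3 + (((M : ℝ) + 1) / 3 - 1) := by
    have h2 := Real.log_le_sub_one_of_pos (show (0 : ℝ) < ((M : ℝ) + 1) / 3 by positivity)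
    rw [Real.log_div (by positivity) (by norm_num)] at h2
    linarith
  have h3 := log_three_le
  have h4 := Real.log_two_gt_d9
  have h5 : (M : ℝ) / 16 ≤ M * Real.log 2 - Real.log ((M : ℝ) + 1) := by nlinarith
  have h6 : (M : ℝ) / 16 / Real.log M ≤ (M * Real.log 2 - Real.log ((M : ℝ) + 1)) / Real.log M :=
    div_le_div_of_nonneg_right h5 hl.le
  have h7 := h6.trans h
  have h8 : (M : ℝ) / Real.log M = 16 * ((M : ℝ) / 16 / Real.log M) := by ring
  rw [h8]
  linarith

lemma card_le_pi (S : Finset ℕ) (M : ℕ) (hS : ∀ p ∈ S, p.Prime ∧ p ≤ M) : #S ≤ Nat.primeCounting M := by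
  have h1 : S ⊆ (range (M + 1)).filter Nat.Prime := by
    intro p hp
    have := hS p hp
    rw [mem_filter, mem_range]
    exact ⟨by omega, this.1⟩
  have := card_le_card h1
  rwa [← Nat.count_eq_card_filter_range] at this

theorem lower_primes : ∃ c : ℝ, 0 < c ∧ ∃ x0 : ℕ, ∀ x M : ℕ, x0 ≤ x → M ≤ x →
    ∀ S : Finset ℕ, S.Nonempty → (∀ p ∈ S, p.Prime ∧ 3 ≤ p ∧ p ≤ M) →
    c * (x * min (#S / Real.log x) (1 / Real.log (Real.log (16 * Nat.primeCounting M / #S)))) ≤
      #(RR S x) := by
  classical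
  obtain ⟨C2, hC2, u0, hsm⟩ := second_moment_all
  obtain ⟨K, hK, hsum⟩ := sum_gg_primes
  obtain ⟨x1, hx1⟩ := eventually_atTop.mp QQ_card
  refine ⟨1 / (2 * (1 + 2 * (C2 * K))), by positivity, max (max u0 x1) 3, ?_⟩
  intro x M hx hMx S hSne hS
  have hxu : u0 ≤ x := (le_max_left _ _).trans ((le_max_left _ _).trans hx)
  have hxx1 : x1 ≤ x := (le_max_right _ _).trans ((le_max_left _ _).trans hx)
  have hx3 : 3 ≤ x := (le_max_right _ _).trans hx
  have hxr : (3 : ℝ) ≤ x := by exact_mod_cast hx3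
  have hL : 0 < Real.log x := Real.log_pos (by linarith)
  have hs1 : 1 ≤ #S := card_pos.2 hSne
  have hsr : (1 : ℝ) ≤ #S := by exact_mod_cast hs1
  have hSM1 : S ⊆ Icc 1 M := by
    intro m hm
    have := hS m hm
    rw [mem_Icc]
    omega
  have hM3 : 3 ≤ M := by
    obtain ⟨p, hp⟩ := hSne
    have := hS p hp
    omega
  have hsM : #S ≤ Nat.primeCounting M := card_le_pi S M (fun p hp => ⟨(hS p hp).1, (hS p hp).2.2⟩)
  have hsMr : (#S : ℝ) ≤ Nat.primeCounting M := by exact_mod_cast hsM
  obtain ⟨r, hr⟩ : ∃ r : ℝ, r = 16 * Nat.primeCounting M / #S := ⟨_, rfl⟩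
  have hr16 : 16 ≤ r := by
    rw [hr, le_div_iff₀ (by linarith)]
    linarith
  obtain ⟨l, hl⟩ : ∃ l : ℝ, l = Real.log (Real.log r) := ⟨_, rfl⟩
  have hl1 : 1 ≤ l := by rw [hl]; exact one_le_loglog hr16
  have hrs : (M : ℝ) / Real.log M ≤ r * #S := by
    have h1 : r * #S = 16 * Nat.primeCounting M := by
      rw [hr]
      field_simp
    rw [h1]
    exact pi_low M (by omega)
  have hsum2 := hsum M S r hr16 (fun p hp => ⟨(hS p hp).1, (hS p hp).2.2⟩) (by omega) hrs
  rw [← hl] at hsum2
  have hodd2 : ∀ a ∈ S, 3 ≤ a ∧ a % 2 = 1 := by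
    intro a ha
    have h1 := hS a ha
    refine ⟨h1.2.1, ?_⟩
    rcases h1.1.eq_two_or_odd with h | h
    · omega
    · exact h
  have hmain := hsm x M S hxu hMx hSM1 hodd2
  have hQ := hx1 x hxx1
  obtain ⟨L, hLd⟩ : ∃ L : ℝ, L = Real.log x := ⟨_, rfl⟩
  rw [← hLd] at hL hmain hQ ⊢
  rw [← hr, ← hl]
  obtain ⟨B, hB⟩ : ∃ B : ℝ, B = C2 * K * l * (#S : ℝ) ^ 2 * x / L ^ 2 := ⟨_, rfl⟩
  refine final_ineq _ ((#S : ℝ) * #(QQ x)) ((#S : ℝ) * x / (2 * L)) B x L #S l (C2 * K)
    (Nat.cast_nonneg _) (by linarith) hL (by linarith) hl1 (by positivity) rfl hB ?_ ?_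
  · calc (#S : ℝ) * x / (2 * L) = #S * (x / (2 * L)) := by ring
      _ ≤ _ := mul_le_mul_of_nonneg_left hQ (by linarith)
  · refine hmain.trans ?_
    apply mul_le_mul_of_nonneg_left _ (Nat.cast_nonneg _)
    have h1 : C2 * (∑ z ∈ S.offDiag, gg (2 * Nat.dist z.1 z.2)) * x / L ^ 2 ≤ B := by
      rw [hB]
      calc C2 * (∑ z ∈ S.offDiag, gg (2 * Nat.dist z.1 z.2)) * x / L ^ 2 ≤
          C2 * (K * l * (#S : ℝ) ^ 2) * x / L ^ 2 := by gcongr
        _ = _ := by ring
    linarith

open Classical in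
/-- The even integers `n` with `1 ≤ n ≤ x` of the form `p + q`, `p ∈ S`, `q` prime and `q ≠ p`. -/
noncomputable def gold (S : Finset ℕ) (x : ℕ) : Finset ℕ :=
  (Icc 1 x).filter (fun n => Even n ∧ ∃ p ∈ S, ∃ q : ℕ, q.Prime ∧ q ≠ p ∧ p + q = n)

lemma RR_gold (S : Finset ℕ) (x : ℕ) : #(RR S (x / 2)) ≤ #(gold S x) + #S := by
  classical
  have h1 : RR S (x / 2) ⊆ ((RR S (x / 2)).filter (fun n => n ∉ S)) ∪ S := by
    intro n hn
    rw [mem_union, mem_filter]
    by_cases h : n ∈ S
    · exact Or.inr h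
    · exact Or.inl ⟨hn, h⟩
  refine (card_le_card h1).trans ((card_union_le _ _).trans ?_)
  apply Nat.add_le_add_right
  apply card_le_card_of_injOn (fun n => 2 * n)
  · intro n hn
    rw [mem_coe, mem_filter] at hn
    obtain ⟨hn1, hnS⟩ := hn
    unfold RR at hn1
    rw [mem_filter, mem_Icc] at hn1
    obtain ⟨⟨h1, h2⟩, a, ha, q, hq, hqa⟩ := hn1
    show 2 * n ∈ (gold S x : Set ℕ)
    rw [mem_coe]
    unfold gold
    rw [mem_filter, mem_Icc]
    refine ⟨⟨by omega, by omega⟩, even_two_mul n, a, ha, q, hq, ?_, hqa⟩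
    rintro rfl
    apply hnS
    have : n = q := by omega
    rw [this]
    exact ha
  · intro a _ b _ h
    have h' : 2 * a = 2 * b := h
    omega

lemma gold_le (S : Finset ℕ) (x : ℕ) : #(gold S x) ≤ x := by
  classical
  unfold gold
  refine (card_filter_le _ _).trans ?_
  rw [Nat.card_Icc]
  omega

lemma gold_union (S : Finset ℕ) (x : ℕ) : #(gold S x) ≤ #S * Nat.primeCounting x := by
  classical
  have h1 : gold S x ⊆ S.biUnion (fun m => ((range (x + 1)).filter Nat.Prime).image (fun q => m + q)) := by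
    intro n hn
    unfold gold at hn
    rw [mem_filter, mem_Icc] at hn
    obtain ⟨⟨h1, h2⟩, _, m, hm, q, hq, _, hqm⟩ := hn
    rw [mem_biUnion]
    refine ⟨m, hm, ?_⟩
    rw [mem_image]
    refine ⟨q, ?_, hqm⟩
    rw [mem_filter, mem_range]
    exact ⟨by omega, hq⟩
  refine (card_le_card h1).trans (card_biUnion_le.trans ?_)
  rw [← smul_eq_mul, ← sum_const]
  apply sum_le_sum
  intro m _
  refine card_image_le.trans ?_
  rw [Nat.primeCounting, Nat.primeCounting', Nat.count_eq_card_filter_range]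

/-- a set of primes in one residue class -/
lemma gold_class (w a x : ℕ) (P : ℕ) (hP : P = ∏ p ∈ (Icc 1 w).filter Nat.Prime, p)
    (S : Finset ℕ) (hS : ∀ p ∈ S, p % P = a) :
    #(gold S x) ≤ Nat.totient P * (x / P + 1) + #S * (w + 1) := by
  classical
  have hPpos : 0 < P := by
    rw [hP]
    exact prod_pos fun p hp => (mem_filter.1 hp).2.pos
  have h1 : gold S x ⊆ ((Ico 1 (1 + x)).filter (fun k => P.Coprime k)).image (fun k => k + a) ∪
      (S ×ˢ (range (w + 1))).image (fun z => z.1 + z.2) := by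
    intro n hn
    unfold gold at hn
    rw [mem_filter, mem_Icc] at hn
    obtain ⟨⟨h1, h2⟩, _, m, hm, q, hq, _, hqm⟩ := hn
    rw [mem_union]
    by_cases hqw : q ≤ w
    · right
      rw [mem_image]
      exact ⟨(m, q), by rw [mem_product, mem_range]; exact ⟨hm, by omega⟩, hqm⟩
    · left
      push Not at hqw
      rw [mem_image]
      have h3 := hS m hm
      have h4 := Nat.mod_add_div m P
      rw [h3] at h4
      have hq1 := hq.pos
      refine ⟨n - a, ?_, by omega⟩
      rw [mem_filter, mem_Ico]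
      have hna : n - a = q + P * (m / P) := by omega
      refine ⟨⟨by omega, by omega⟩, ?_⟩
      rw [hna, Nat.coprime_add_mul_left_right]
      rw [hP]
      apply Nat.Coprime.prod_left
      intro p hp
      rw [mem_filter, mem_Icc] at hp
      exact (Nat.coprime_primes hp.2 hq).2 (by omega)
  refine (card_le_card h1).trans ((card_union_le _ _).trans ?_)
  apply Nat.add_le_add
  · refine card_image_le.trans ?_
    exact Nat.Ico_filter_coprime_le 1 x hPpos.ne'
  · refine card_image_le.trans ?_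
    rw [card_product, card_range]

lemma ev_small (c : ℝ) (hc : 0 < c) : ∀ᶠ y : ℕ in atTop, Real.log y ≤ c * y ∧
    Real.log (Real.log (16 * y)) ≤ c * Real.log y := by
  have h1 := (Real.isLittleO_log_id_atTop.bound hc)
  have h2 := (tendsto_natCast_atTop_atTop (R := ℝ)).eventually h1
  have h3 := (Real.isLittleO_log_id_atTop.bound (show (0 : ℝ) < c / 2 by positivity))
  have h4 : Tendsto (fun y : ℕ => Real.log (16 * (y : ℝ))) atTop atTop :=
    Real.tendsto_log_atTop.comp ((tendsto_natCast_atTop_atTop (R := ℝ)).const_mul_atTop (by norm_num))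
  have h5 := h4.eventually h3
  filter_upwards [h2, h5, eventually_ge_atTop 16] with y h2 h5 hy
  have hyr : (16 : ℝ) ≤ y := by exact_mod_cast hy
  simp only [id] at h2 h5
  rw [Real.norm_of_nonneg (Real.log_nonneg (by linarith)), Real.norm_of_nonneg (by linarith)] at h2
  have h6 : 0 < Real.log (16 * (y : ℝ)) := Real.log_pos (by linarith)
  rw [Real.norm_of_nonneg h6.le] at h5
  refine ⟨h2, (Real.le_norm_self _).trans (h5.trans ?_)⟩
  have h7 : Real.log (16 * (y : ℝ)) ≤ 2 * Real.log y := by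
    rw [Real.log_mul (by norm_num) (by linarith)]
    have := Real.log_le_log (by norm_num) hyr
    linarith
  have h8 : c / 2 * Real.log (16 * (y : ℝ)) ≤ c / 2 * (2 * Real.log y) :=
    mul_le_mul_of_nonneg_left h7 (by positivity)
  linarith

theorem lower_gold : ∃ c : ℝ, 0 < c ∧ ∃ x0 : ℕ, ∀ x M : ℕ, x0 ≤ x → 2 * M ≤ x →
    ∀ S : Finset ℕ, S.Nonempty → (∀ p ∈ S, p.Prime ∧ 3 ≤ p ∧ p ≤ M) →
    c * (x * min (#S / Real.log x) (1 / Real.log (Real.log (16 * Nat.primeCounting M / #S)))) ≤
      #(gold S x) := by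
  classical
  obtain ⟨c, hc, x0, h⟩ := lower_primes
  obtain ⟨x1, hx1⟩ := eventually_atTop.mp (ev_small (c / 4) (by positivity))
  obtain ⟨x2, hx2⟩ := eventually_atTop.mp pi_up
  refine ⟨c / 6, by positivity, 2 * (x0 + x1 + x2) + 100, fun x M hx hM S hSne hS => ?_⟩
  have hx100 : 100 ≤ x := by omega
  have hxr : (100 : ℝ) ≤ x := by exact_mod_cast hx100
  obtain ⟨y, hy⟩ : ∃ y : ℕ, y = x / 2 := ⟨_, rfl⟩
  have hy3 : (x : ℝ) / 3 ≤ y := by
    have : x ≤ 3 * y := by omega
    have : (x : ℝ) ≤ 3 * y := by exact_mod_cast this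
    linarith
  have hyx : (y : ℝ) ≤ x := by exact_mod_cast (by omega : y ≤ x)
  have hy30 : (30 : ℝ) ≤ y := by exact_mod_cast (by omega : 30 ≤ y)
  have hMy : M ≤ y := by omega
  have hmain := h y M (by omega) hMy S hSne hS
  obtain ⟨hs1, hs2⟩ := hx1 y (by omega)
  have hs3 := hx2 y (by omega)
  have hcard : (#(RR S y) : ℝ) ≤ #(gold S x) + #S := by
    rw [hy]
    exact_mod_cast RR_gold S x
  have hly : 0 < Real.log y := Real.log_pos (by linarith)
  have hlyx : Real.log y ≤ Real.log x := Real.log_le_log (by linarith) hyx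
  have hs : 1 ≤ #S := card_pos.2 hSne
  have hsr : (1 : ℝ) ≤ #S := by exact_mod_cast hs
  have hsM : #S ≤ Nat.primeCounting M := card_le_pi S M (fun p hp => ⟨(hS p hp).1, (hS p hp).2.2⟩)
  have hsMr : (#S : ℝ) ≤ Nat.primeCounting M := by exact_mod_cast hsM
  obtain ⟨r, hr⟩ : ∃ r : ℝ, r = 16 * Nat.primeCounting M / #S := ⟨_, rfl⟩
  have hr16 : 16 ≤ r := by
    rw [hr, le_div_iff₀ (by linarith)]
    linarith
  obtain ⟨l, hl⟩ : ∃ l : ℝ, l = Real.log (Real.log r) := ⟨_, rfl⟩
  have hl1 : 1 ≤ l := by rw [hl]; exact one_le_loglog hr16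
  rw [← hr, ← hl] at hmain ⊢
  have hpiM : (Nat.primeCounting M : ℝ) ≤ Nat.primeCounting y := by
    exact_mod_cast Nat.monotone_primeCounting hMy
  have hpiy : (Nat.primeCounting y : ℝ) ≤ y := by
    have h1 : Nat.primeCounting y ≤ y := by
      rw [Nat.primeCounting, Nat.primeCounting', Nat.count_eq_card_filter_range]
      have h2 : (range (y + 1)).filter Nat.Prime ⊆ Icc 1 y := by
        intro p hp
        rw [mem_filter, mem_range] at hp
        rw [mem_Icc]
        have := hp.2.pos
        omega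
      have := card_le_card h2
      rwa [Nat.card_Icc, Nat.add_sub_cancel] at this
    exact_mod_cast h1
  have hly2 : l ≤ Real.log (Real.log (16 * y)) := by
    rw [hl]
    apply Real.log_le_log (Real.log_pos (by linarith))
    apply Real.log_le_log (by linarith)
    rw [hr, div_le_iff₀ (by linarith)]
    nlinarith
  obtain ⟨m, hm⟩ : ∃ m, m = min ((#S : ℝ) / Real.log y) (1 / l) := ⟨_, rfl⟩
  rw [← hm] at hmain
  have hSs : (#S : ℝ) ≤ c / 2 * (y * m) := by
    rw [hm]
    rcases le_total ((#S : ℝ) / Real.log y) (1 / l) with h1 | h1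
    · rw [min_eq_left h1]
      have h2 : Real.log y ≤ c / 2 * y := by
        have : c / 4 * (y : ℝ) ≤ c / 2 * y := by
          apply mul_le_mul_of_nonneg_right _ (by linarith)
          linarith
        linarith
      calc (#S : ℝ) = #S / Real.log y * Real.log y := by field_simp
        _ ≤ #S / Real.log y * (c / 2 * y) := mul_le_mul_of_nonneg_left h2 (by positivity)
        _ = c / 2 * (y * (#S / Real.log y)) := by ring
    · rw [min_eq_right h1]
      have h2 : (#S : ℝ) ≤ 2 * (y / Real.log y) := hsMr.trans (hpiM.trans hs3)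
      have h3 : l ≤ c / 4 * Real.log y := hly2.trans hs2
      refine h2.trans ?_
      rw [mul_one_div, ← mul_div_assoc, ← mul_div_assoc, div_le_div_iff₀ hly (by linarith)]
      calc 2 * (y : ℝ) * l ≤ 2 * y * (c / 4 * Real.log y) :=
            mul_le_mul_of_nonneg_left h3 (by linarith)
        _ = c / 2 * y * Real.log y := by ring
  have hgold : c / 2 * (y * m) ≤ #(gold S x) := by
    have h1 : c * (y * m) = c / 2 * (y * m) + c / 2 * (y * m) := by ring
    linarith
  have hmin : min ((#S : ℝ) / Real.log x) (1 / l) ≤ m := by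
    rw [hm]
    apply min_le_min _ le_rfl
    exact div_le_div_of_nonneg_left (Nat.cast_nonneg _) hly hlyx
  have hmin0 : 0 ≤ min ((#S : ℝ) / Real.log x) (1 / l) :=
    le_min (div_nonneg (Nat.cast_nonneg _) (by linarith)) (by positivity)
  refine le_trans ?_ hgold
  calc c / 6 * (x * min ((#S : ℝ) / Real.log x) (1 / l)) =
      c / 2 * ((x / 3) * min ((#S : ℝ) / Real.log x) (1 / l)) := by ring
    _ ≤ c / 2 * (y * m) := by
        apply mul_le_mul_of_nonneg_left _ (by positivity)
        exact mul_le_mul hy3 hmin hmin0 (by linarith)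

theorem upper_gold : ∃ C : ℝ, 0 < C ∧ ∃ x0 : ℕ, ∀ x M s : ℕ, x0 ≤ x → M ≤ x → 1 ≤ s →
    s + 1 ≤ Nat.primeCounting M → ∃ S : Finset ℕ, (∀ p ∈ S, p.Prime ∧ 3 ≤ p ∧ p ≤ M) ∧ #S = s ∧
    (#(gold S x) : ℝ) ≤
      C * (x * min (s / Real.log x) (1 / Real.log (Real.log (16 * Nat.primeCounting M / s)))) := by
  classical
  obtain ⟨Ct, hCt, htot⟩ := totient_le
  obtain ⟨x1, hx1⟩ := eventually_atTop.mp pi_up
  refine ⟨6 * Ct + 3, by positivity, x1 + 3, fun x M s hx hMx hs hsM => ?_⟩
  have hpi := hx1 x (by omega)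
  have hx3 : (3 : ℝ) ≤ x := by exact_mod_cast (by omega : 3 ≤ x)
  have hL : 0 < Real.log x := Real.log_pos (by linarith)
  have hsr : (1 : ℝ) ≤ s := by exact_mod_cast hs
  obtain ⟨N, hN⟩ : ∃ N : ℕ, N = Nat.primeCounting M := ⟨_, rfl⟩
  rw [← hN] at hsM ⊢
  have hsNr : (s : ℝ) ≤ N := by exact_mod_cast (by omega : s ≤ N)
  obtain ⟨T, hT⟩ : ∃ T : Finset ℕ, T = (range (M + 1)).filter Nat.Prime := ⟨_, rfl⟩
  have hTc : #T = N := by
    rw [hT, hN, Nat.primeCounting, Nat.primeCounting', Nat.count_eq_card_filter_range]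
  have hTx : N ≤ x := by
    have h1 : T ⊆ Icc 1 M := by
      intro p hp
      rw [hT, mem_filter, mem_range] at hp
      rw [mem_Icc]
      have := hp.2.pos
      omega
    have := card_le_card h1
    rw [Nat.card_Icc, Nat.add_sub_cancel] at this
    omega
  obtain ⟨r, hr⟩ : ∃ r : ℝ, r = 16 * N / s := ⟨_, rfl⟩
  have hr16 : 16 ≤ r := by
    rw [hr, le_div_iff₀ (by linarith)]
    linarith
  obtain ⟨l, hl⟩ : ∃ l : ℝ, l = Real.log (Real.log r) := ⟨_, rfl⟩
  have hl1 : 1 ≤ l := by rw [hl]; exact one_le_loglog hr16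
  rw [← hr, ← hl]
  -- some set of `s` odd primes
  obtain ⟨S₁, hS₁T, hS₁c⟩ : ∃ S₁ ⊆ T.erase 2, #S₁ = s := by
    apply Finset.exists_subset_card_eq
    have := Finset.pred_card_le_card_erase (s := T) (a := 2)
    omega
  have hTodd : ∀ p ∈ T.erase 2, p.Prime ∧ 3 ≤ p ∧ p ≤ M := by
    intro p hp
    rw [mem_erase, hT, mem_filter, mem_range] at hp
    have := hp.2.2.two_le
    exact ⟨hp.2.2, by omega, by omega⟩
  by_cases hcase : (s : ℝ) / Real.log x ≤ 1 / l
  · refine ⟨S₁, fun p hp => hTodd p (hS₁T hp), hS₁c, ?_⟩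
    rw [min_eq_left hcase]
    have h1 : (#(gold S₁ x) : ℝ) ≤ s * Nat.primeCounting x := by
      have := gold_union S₁ x
      rw [hS₁c] at this
      exact_mod_cast this
    calc (#(gold S₁ x) : ℝ) ≤ s * Nat.primeCounting x := h1
      _ ≤ s * (2 * (x / Real.log x)) := mul_le_mul_of_nonneg_left hpi (by linarith)
      _ = 2 * (x * (s / Real.log x)) := by ring
      _ ≤ (6 * Ct + 3) * (x * (s / Real.log x)) := by
          apply mul_le_mul_of_nonneg_right (by linarith) (by positivity)
  · push Not at hcase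
    rw [min_eq_right hcase.le]
    obtain ⟨K, hK⟩ : ∃ K : ℕ, K = N / (2 * s) := ⟨_, rfl⟩
    have hKs : K * (2 * s) ≤ N := by rw [hK]; exact Nat.div_mul_le_self _ _
    have hKs2 : N < 2 * s * (K + 1) := by
      rw [hK]
      exact Nat.lt_mul_div_succ _ (by omega)
    obtain ⟨w, hw⟩ : ∃ w : ℕ, w = Nat.log 4 K := ⟨_, rfl⟩
    have hw1 : K < 4 ^ (w + 1) := by rw [hw]; exact Nat.lt_pow_succ_log_self (by norm_num) K
    have hNs : N ≤ 2 * s * 4 ^ (w + 1) := by
      have h1 : 2 * s * (K + 1) ≤ 2 * s * 4 ^ (w + 1) := Nat.mul_le_mul_left _ hw1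
      omega
    have hrw : r ≤ 4 ^ (w + 4) := by
      have h1 : (N : ℝ) ≤ 2 * s * 4 ^ (w + 1) := by exact_mod_cast hNs
      rw [hr, div_le_iff₀ (by linarith)]
      have h2 : (0 : ℝ) ≤ s * 4 ^ (w + 1) := by positivity
      calc 16 * (N : ℝ) ≤ 16 * (2 * s * 4 ^ (w + 1)) := by linarith
        _ = 32 * (s * 4 ^ (w + 1)) := by ring
        _ ≤ 64 * (s * 4 ^ (w + 1)) := by linarith
        _ = 4 ^ (w + 4) * s := by ring
    have hlr0 : 0 < Real.log r := Real.log_pos (by linarith)
    have hlog4 : Real.log 4 < 1.3863 := by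
      have h3 : Real.log 4 = 2 * Real.log 2 := by
        rw [show (4 : ℝ) = 2 ^ 2 by norm_num, Real.log_pow]
        norm_num
      have h4 := Real.log_two_lt_d9
      linarith
    have hlrw : Real.log r ≤ (w + 4) * 1.3863 := by
      have h1 := Real.log_le_log (by linarith) hrw
      rw [Real.log_pow] at h1
      push_cast at h1
      have h2 : ((w : ℝ) + 4) * Real.log 4 ≤ (w + 4) * 1.3863 :=
        mul_le_mul_of_nonneg_left hlog4.le (by positivity)
      linarith
    by_cases hw3 : w < 3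
    · refine ⟨S₁, fun p hp => hTodd p (hS₁T hp), hS₁c, ?_⟩
      have h1 : (#(gold S₁ x) : ℝ) ≤ x := by exact_mod_cast gold_le S₁ x
      have h2 : (w : ℝ) ≤ 2 := by exact_mod_cast (by omega : w ≤ 2)
      have h3 : Real.log r ≤ 9 := by
        refine hlrw.trans ?_
        nlinarith
      have h4 : l ≤ 3 := by
        rw [hl, Real.log_le_iff_le_exp hlr0]
        have h5 := Real.exp_one_gt_d9
        have h6 : Real.exp 3 = Real.exp 1 * (Real.exp 1 * Real.exp 1) := by
          rw [← Real.exp_add, ← Real.exp_add]; norm_num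
        rw [h6]
        have h7 : (7 : ℝ) ≤ Real.exp 1 * Real.exp 1 := by nlinarith
        nlinarith
      refine h1.trans ?_
      have h5 : (1 : ℝ) / 3 ≤ 1 / l := div_le_div_of_nonneg_left (by norm_num) (by linarith) h4
      calc (x : ℝ) = 3 * (x * (1 / 3)) := by ring
        _ ≤ (6 * Ct + 3) * (x * (1 / l)) := by
            apply mul_le_mul (by linarith) _ (by positivity) (by positivity)
            exact mul_le_mul_of_nonneg_left h5 (by linarith)
    · push Not at hw3
      have hK1 : K ≠ 0 := by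
        rintro rfl
        rw [hw, Nat.log_zero_right] at hw3
        omega
      have hw2 : 4 ^ w ≤ K := by rw [hw]; exact Nat.pow_log_le_self 4 hK1
      have hww : w < 4 ^ w := Nat.lt_pow_self (by norm_num)
      obtain ⟨P, hP⟩ : ∃ P : ℕ, P = ∏ p ∈ (Icc 1 w).filter Nat.Prime, p := ⟨_, rfl⟩
      have hP4 : P ≤ 4 ^ w := by
        have h1 := primorial_le_four_pow w
        refine le_trans (le_of_eq ?_) h1
        rw [hP]
        unfold primorial
        congr 1
        ext p
        rw [mem_filter, mem_filter, mem_Icc, mem_range]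
        constructor
        · rintro ⟨h2, h3⟩
          exact ⟨by omega, h3⟩
        · rintro ⟨h2, h3⟩
          exact ⟨⟨h3.one_lt.le, by omega⟩, h3⟩
      have hPpos : 0 < P := by
        rw [hP]
        exact prod_pos fun p hp => (mem_filter.1 hp).2.pos
      -- the primes above `w`
      obtain ⟨T', hT'⟩ : ∃ T' : Finset ℕ, T' = T.filter (fun p => w < p) := ⟨_, rfl⟩
      have hT'c : N ≤ #T' + w := by
        have h1 : T ⊆ T' ∪ Icc 1 w := by
          intro p hp
          rw [mem_union, hT', mem_filter, mem_Icc]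
          by_cases h : w < p
          · exact Or.inl ⟨hp, h⟩
          · right
            rw [hT, mem_filter] at hp
            have := hp.2.pos
            omega
        have h2 := (card_le_card h1).trans (card_union_le _ _)
        rw [Nat.card_Icc, Nat.add_sub_cancel, hTc] at h2
        exact h2
      have hT'big : P * s ≤ #T' := by
        have h1 : P * s ≤ K * s := Nat.mul_le_mul_right s (hP4.trans hw2)
        have h2 : K * (2 * s) = 2 * (K * s) := by ring
        have h3 : w * 1 ≤ K * s := Nat.mul_le_mul (hww.le.trans hw2) hs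
        omega
      obtain ⟨a, ha, haS⟩ : ∃ a ∈ range P, s ≤ #(T'.filter (fun p => p % P = a)) := by
        apply Finset.exists_le_card_fiber_of_mul_le_card_of_maps_to
        · intro p _
          rw [mem_range]
          exact Nat.mod_lt _ hPpos
        · exact ⟨0, mem_range.2 hPpos⟩
        · rw [card_range]
          exact hT'big
      obtain ⟨S, hSsub, hSc⟩ := Finset.exists_subset_card_eq haS
      refine ⟨S, ?_, hSc, ?_⟩
      · intro p hp
        have h1 := hSsub hp
        rw [mem_filter, hT', mem_filter, hT, mem_filter, mem_range] at h1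
        exact ⟨h1.1.1.2, by omega, by omega⟩
      · have h1 := gold_class w a x P hP S (fun p hp => (mem_filter.1 (hSsub hp)).2)
        rw [hSc] at h1
        have h2 := htot w hw3
        rw [← hP] at h2
        have hw3r : (3 : ℝ) ≤ w := by exact_mod_cast hw3
        have hlw : 0 < Real.log w := Real.log_pos (by linarith)
        have hll : l ≤ 3 * Real.log w := by
          have h3 : Real.log r ≤ (w : ℝ) ^ 3 := by
            refine hlrw.trans ?_
            nlinarith [mul_nonneg (mul_nonneg (show (0 : ℝ) ≤ w by linarith) (show (0 : ℝ) ≤ (w : ℝ) - 3 by linarith))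
              (show (0 : ℝ) ≤ (w : ℝ) by linarith)]
          have h4 : Real.log ((w : ℝ) ^ 3) = 3 * Real.log w := by
            rw [Real.log_pow]
            norm_num
          rw [hl, ← h4]
          exact Real.log_le_log hlr0 h3
        have hPx : (P : ℝ) ≤ x := by
          have h3 : P ≤ x := by
            have h4 : P * 1 ≤ P * s := Nat.mul_le_mul_left P hs
            have h5 : K * 1 ≤ K * (2 * s) := Nat.mul_le_mul_left K (by omega)
            have h6 := hP4.trans hw2
            omega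
          exact_mod_cast h3
        have h3 : ((Nat.totient P * (x / P + 1) : ℕ) : ℝ) ≤ 6 * Ct * (x * (1 / l)) := by
          push_cast
          have h4 : (((x / P : ℕ) : ℝ)) ≤ x / P := Nat.cast_div_le
          have hPr : (0 : ℝ) < P := by exact_mod_cast hPpos
          calc (Nat.totient P : ℝ) * (((x / P : ℕ) : ℝ) + 1) ≤
              (Ct / Real.log w * P) * (x / P + 1) := by
                apply mul_le_mul h2 (by linarith) (by positivity) (by positivity)
            _ = Ct / Real.log w * (x + P) := by field_simp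
            _ ≤ Ct / Real.log w * (2 * x) := by
                apply mul_le_mul_of_nonneg_left (by linarith) (by positivity)
            _ ≤ Ct * (3 / l) * (2 * x) := by
                apply mul_le_mul_of_nonneg_right _ (by positivity)
                rw [div_eq_mul_one_div Ct]
                apply mul_le_mul_of_nonneg_left _ (by linarith)
                rw [div_le_div_iff₀ hlw (by linarith)]
                linarith
            _ = 6 * Ct * (x * (1 / l)) := by ring
        have h4 : ((s * (w + 1) : ℕ) : ℝ) ≤ 3 * (x * (1 / l)) := by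
          have h5 : 2 * w * (w + 1) ≤ 4 ^ w := pow_aux w hw3
          have h6 : s * (2 * w * (w + 1)) ≤ x := by
            calc s * (2 * w * (w + 1)) ≤ s * K := Nat.mul_le_mul_left s (h5.trans hw2)
              _ = K * s := mul_comm _ _
              _ ≤ K * (2 * s) := Nat.mul_le_mul_left K (by omega)
              _ ≤ x := by omega
          have h6r : (s : ℝ) * (2 * w * (w + 1)) ≤ x := by exact_mod_cast h6
          have h7 : l ≤ 3 * w := by
            have := Real.log_le_sub_one_of_pos (show (0 : ℝ) < w by linarith)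
            linarith
          push_cast
          rw [← mul_assoc, mul_one_div, le_div_iff₀ (by linarith)]
          calc (s : ℝ) * (w + 1) * l ≤ s * (w + 1) * (3 * w) := by gcongr
            _ = 3 / 2 * (s * (2 * w * (w + 1))) := by ring
            _ ≤ 3 / 2 * x := by linarith
            _ ≤ 3 * x := by linarith
        have h5 : (#(gold S x) : ℝ) ≤ ((Nat.totient P * (x / P + 1) : ℕ) : ℝ) + ((s * (w + 1) : ℕ) : ℝ) := by
          exact_mod_cast h1
        calc (#(gold S x) : ℝ) ≤ _ := h5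
          _ ≤ 6 * Ct * (x * (1 / l)) + 3 * (x * (1 / l)) := add_le_add h3 h4
          _ = (6 * Ct + 3) * (x * (1 / l)) := by ring

end Pool.Agent.Y561.SQ
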