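import Pool.Agent.Y561.SQ.PMain
import Pool.Agent.TH685.TI.PairSig

set_option autoImplicit false
set_option maxHeartbeats 1000000

/-! # The singular factor over the differences of the values of a quadratic polynomial at an arbitrary
set of primes -/

namespace Pool.Agent.Y561.SQ

open Finset Filter Pool.Agent.H197R2.PG Pool.Agent.TH685.TI

/-- the least argument -/
def p0 (b c : ℤ) : ℕ := b.natAbs + c.natAbs + 3

/-- `p² + b p + c + 1` -/
def va (b c : ℤ) (p : ℕ) : ℕ := ((p : ℤ) ^ 2 + b * p + c + 1).toNat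

lemma lower_val (b c : ℤ) (p : ℕ) (hp : p0 b c ≤ p) : 3 * (p : ℤ) ≤ (p : ℤ) ^ 2 + b * p + c := by
  unfold p0 at hp
  have h1 : -(b.natAbs : ℤ) ≤ b := by omega
  have h2 : -(c.natAbs : ℤ) ≤ c := by omega
  have h3 : ((b.natAbs : ℤ)) + c.natAbs + 3 ≤ p := by exact_mod_cast hp
  have h4 : (0 : ℤ) ≤ b.natAbs := by positivity
  have h5 : (0 : ℤ) ≤ c.natAbs := by positivity
  generalize (b.natAbs : ℤ) = B at *
  generalize (c.natAbs : ℤ) = D at *
  have h6 : (p : ℤ) * (B + D + 3) ≤ p * p := mul_le_mul_of_nonneg_left h3 (by positivity)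
  have h7 : -B * p ≤ b * p := mul_le_mul_of_nonneg_right h1 (by positivity)
  have h8 : D ≤ p * D := by nlinarith
  nlinarith

lemma va_cast (b c : ℤ) (p : ℕ) (hp : p0 b c ≤ p) : ((va b c p : ℕ) : ℤ) = (p : ℤ) ^ 2 + b * p + c + 1 := by
  unfold va
  have h := lower_val b c p hp
  rw [Int.toNat_of_nonneg]
  have : (0 : ℤ) ≤ p := by positivity
  linarith

lemma sum_pos (b c : ℤ) (p p' : ℕ) (hp : p0 b c ≤ p) (hp' : p0 b c ≤ p') : 0 < (p : ℤ) + p' + b := by
  unfold p0 at hp hp'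
  omega

lemma va_dist (b c : ℤ) (p p' : ℕ) (hp : p0 b c ≤ p) (hp' : p0 b c ≤ p') :
    Nat.dist (va b c p) (va b c p') = Nat.dist p p' * ((p : ℤ) + p' + b).toNat := by
  have hs := sum_pos b c p p' hp hp'
  have h1 := va_cast b c p hp
  have h2 := va_cast b c p' hp'
  have h3 : ((((p : ℤ) + p' + b).toNat : ℕ) : ℤ) = (p : ℤ) + p' + b := Int.toNat_of_nonneg hs.le
  rcases le_total p p' with h | h
  · have h4 : (0 : ℤ) ≤ (p' : ℤ) - p := by omega
    have h5 : ((va b c p' : ℕ) : ℤ) - va b c p = ((p' : ℤ) - p) * ((p : ℤ) + p' + b) := by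
      rw [h1, h2]
      ring
    have h6 : va b c p ≤ va b c p' := by
      have : (0 : ℤ) ≤ ((va b c p' : ℕ) : ℤ) - va b c p := by
        rw [h5]
        exact mul_nonneg h4 hs.le
      omega
    rw [Nat.dist_eq_sub_of_le h, Nat.dist_eq_sub_of_le h6]
    have h7 : ((va b c p' - va b c p : ℕ) : ℤ) = (((p' - p) * ((p : ℤ) + p' + b).toNat : ℕ) : ℤ) := by
      rw [Nat.cast_sub h6, Nat.cast_mul, Nat.cast_sub h, h3]
      exact h5
    exact_mod_cast h7
  · have h4 : (0 : ℤ) ≤ (p : ℤ) - p' := by omega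
    have h5 : ((va b c p : ℕ) : ℤ) - va b c p' = ((p : ℤ) - p') * ((p : ℤ) + p' + b) := by
      rw [h1, h2]
      ring
    have h6 : va b c p' ≤ va b c p := by
      have : (0 : ℤ) ≤ ((va b c p : ℕ) : ℤ) - va b c p' := by
        rw [h5]
        exact mul_nonneg h4 hs.le
      omega
    rw [Nat.dist_eq_sub_of_le_right h, Nat.dist_eq_sub_of_le_right h6]
    have h7 : ((va b c p - va b c p' : ℕ) : ℤ) = (((p - p') * ((p : ℤ) + p' + b).toNat : ℕ) : ℤ) := by
      rw [Nat.cast_sub h6, Nat.cast_mul, Nat.cast_sub h, h3]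
      exact h5
    exact_mod_cast h7

lemma va_inj (b c : ℤ) (p p' : ℕ) (hp : p0 b c ≤ p) (hp' : p0 b c ≤ p') (h : va b c p = va b c p') : p = p' := by
  by_contra hne
  have h1 := va_dist b c p p' hp hp'
  rw [h, Nat.dist_self] at h1
  have h2 : 0 < Nat.dist p p' := Nat.dist_pos_of_ne hne
  have h3 := sum_pos b c p p' hp hp'
  have h4 : 0 < ((p : ℤ) + p' + b).toNat := by omega
  have := Nat.mul_pos h2 h4
  omega

lemma gg_le_two (k : ℕ) (hk : 0 < k) : gg k ≤ gg (2 * k) := by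
  unfold gg
  apply prod_sub_le
  exact Nat.primeFactors_mono (Dvd.intro_left 2 rfl) (by omega)

/-- sums over the pairs of a set of primes, ordered by the sum -/
lemma sum_pairs_plus (S : Finset ℕ) (M : ℕ) (hS : ∀ p ∈ S, p.Prime ∧ p ≤ M) (F : ℕ → ℝ) (hF : ∀ n, 0 ≤ F n) :
    ∑ z ∈ S.offDiag, F (z.1 + z.2) ≤
      ∑ k ∈ Icc 1 (2 * M), F k *
        (Set.ncard {t : ℕ | t ≤ M ∧ t.Prime ∧ (Int.natAbs (-1 * t + k)).Prime} : ℝ) := by
  classical
  have hmap : ∀ z ∈ S.offDiag, z.1 + z.2 ∈ Icc 1 (2 * M) := by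
    intro z hz
    rw [mem_offDiag] at hz
    have h1 := hS z.1 hz.1
    have h2 := hS z.2 hz.2.1
    have h3 := h1.1.pos
    rw [mem_Icc]
    omega
  rw [← Finset.sum_fiberwise_of_maps_to hmap]
  apply Finset.sum_le_sum
  intro k _
  have h1 : ∀ z ∈ S.offDiag.filter (fun z => z.1 + z.2 = k), F (z.1 + z.2) = F k := by
    intro z hz
    rw [(mem_filter.1 hz).2]
  rw [Finset.sum_congr rfl h1, Finset.sum_const, nsmul_eq_mul, mul_comm]
  apply mul_le_mul_of_nonneg_left _ (hF k)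
  have hfin : {t : ℕ | t ≤ M ∧ t.Prime ∧ (Int.natAbs (-1 * t + k)).Prime}.Finite :=
    (Set.finite_Iic M).subset (fun t ht => ht.1)
  have h2 : #(S.offDiag.filter (fun z => z.1 + z.2 = k)) ≤
      Set.ncard {t : ℕ | t ≤ M ∧ t.Prime ∧ (Int.natAbs (-1 * t + k)).Prime} := by
    rw [← Set.ncard_coe_finset]
    apply Set.ncard_le_ncard_of_injOn (fun z => z.1) _ _ hfin
    · intro z hz
      rw [mem_coe, mem_filter, mem_offDiag] at hz
      obtain ⟨⟨h3, h4, _⟩, h6⟩ := hz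
      have h7 := hS z.1 h3
      have h8 := hS z.2 h4
      refine ⟨h7.2, h7.1, ?_⟩
      have h9 : Int.natAbs (-1 * (z.1 : ℤ) + k) = z.2 := by omega
      show (Int.natAbs (-1 * (z.1 : ℤ) + k)).Prime
      rw [h9]
      exact h8.1
    · intro z hz z' hz' heq
      rw [mem_coe, mem_filter, mem_offDiag] at hz hz'
      have heq' : z.1 = z'.1 := heq
      exact Prod.ext heq' (by omega)
  exact_mod_cast h2

/-- the rough part for a pair -/
noncomputable def fq (b : ℤ) (w : ℕ) (z : ℕ × ℕ) : ℝ :=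
  gw w (Nat.dist z.1 z.2) * gw w ((z.1 : ℤ) + z.2 + b).toNat

lemma one_le_fq (b : ℤ) (w : ℕ) (z : ℕ × ℕ) : 1 ≤ fq b w z := by
  unfold fq
  have h1 := one_le_gw w (Nat.dist z.1 z.2)
  have h2 := one_le_gw w ((z.1 : ℤ) + z.2 + b).toNat
  nlinarith

lemma sum_shift (b : ℤ) (w q M : ℕ) (hq : 1 ≤ q) (hqw : q ≤ w) (hM : b.natAbs ≤ M) :
    ∑ k ∈ Icc 1 (2 * M), gw w (((k : ℤ) + b).toNat) ^ q ≤ 26 * M := by
  classical
  have h0 : ∑ k ∈ Icc 1 (2 * M), gw w (((k : ℤ) + b).toNat) ^ q =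
      ∑ k ∈ (Icc 1 (2 * M)).filter (fun k : ℕ => (k : ℤ) + b ≤ 0), gw w (((k : ℤ) + b).toNat) ^ q +
      ∑ k ∈ (Icc 1 (2 * M)).filter (fun k : ℕ => ¬ (k : ℤ) + b ≤ 0), gw w (((k : ℤ) + b).toNat) ^ q :=
    (Finset.sum_filter_add_sum_filter_not _ _ _).symm
  have h1 : ∑ k ∈ (Icc 1 (2 * M)).filter (fun k : ℕ => (k : ℤ) + b ≤ 0), gw w (((k : ℤ) + b).toNat) ^ q ≤
      2 * M := by
    have h2 : ∀ k ∈ (Icc 1 (2 * M)).filter (fun k : ℕ => (k : ℤ) + b ≤ 0),
        gw w (((k : ℤ) + b).toNat) ^ q = 1 := by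
      intro k hk
      have h3 : ((k : ℤ) + b).toNat = 0 := Int.toNat_of_nonpos (mem_filter.1 hk).2
      rw [h3]
      unfold gw
      rw [Nat.primeFactors_zero]
      simp
    rw [Finset.sum_congr rfl h2, Finset.sum_const, nsmul_eq_mul, mul_one]
    have h3 := card_filter_le (Icc 1 (2 * M)) (fun k : ℕ => (k : ℤ) + b ≤ 0)
    rw [Nat.card_Icc, Nat.add_sub_cancel] at h3
    exact_mod_cast h3
  have hf : ∀ n, 0 ≤ gw w n ^ q := fun n => pow_nonneg (by linarith [one_le_gw w n]) _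
  have h2 : ∑ k ∈ (Icc 1 (2 * M)).filter (fun k : ℕ => ¬ (k : ℤ) + b ≤ 0), gw w (((k : ℤ) + b).toNat) ^ q ≤
      24 * M := by
    have hinj : Set.InjOn (fun k : ℕ => ((k : ℤ) + b).toNat)
        ((Icc 1 (2 * M)).filter (fun k : ℕ => ¬ (k : ℤ) + b ≤ 0) : Finset ℕ) := by
      intro k hk k' hk' heq
      rw [mem_coe, mem_filter] at hk hk'
      have h3 : ((k : ℤ) + b).toNat = ((k' : ℤ) + b).toNat := heq
      omega
    have h3 : ∑ k ∈ (Icc 1 (2 * M)).filter (fun k : ℕ => ¬ (k : ℤ) + b ≤ 0), gw w (((k : ℤ) + b).toNat) ^ q =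
        ∑ n ∈ ((Icc 1 (2 * M)).filter (fun k : ℕ => ¬ (k : ℤ) + b ≤ 0)).image
          (fun k : ℕ => ((k : ℤ) + b).toNat), gw w n ^ q :=
      (Finset.sum_image (f := fun n => gw w n ^ q) hinj).symm
    rw [h3]
    have h4 : ∑ n ∈ ((Icc 1 (2 * M)).filter (fun k : ℕ => ¬ (k : ℤ) + b ≤ 0)).image
          (fun k : ℕ => ((k : ℤ) + b).toNat), gw w n ^ q ≤ ∑ n ∈ Icc 1 (3 * M), gw w n ^ q := by
      apply Finset.sum_le_sum_of_subset_of_nonneg
      · intro n hn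
        obtain ⟨k, hk, rfl⟩ := mem_image.1 hn
        rw [mem_filter, mem_Icc] at hk
        rw [mem_Icc]
        omega
      · intro n _ _
        exact hf n
    refine h4.trans ((moment_gw_le w q (3 * M) hq hqw).trans ?_)
    have he := exp_two_le_eight
    have hM0 : (0 : ℝ) ≤ ((3 * M : ℕ) : ℝ) := Nat.cast_nonneg _
    have h5 := mul_le_mul_of_nonneg_left he hM0
    push_cast at h5 ⊢
    linarith
  rw [h0]
  linarith

lemma moment_quad (b : ℤ) : ∃ K : ℝ, 1 ≤ K ∧ ∃ M0 : ℕ, 2 ≤ M0 ∧ ∀ w q M : ℕ, 1 ≤ q → 4 * q ≤ w → 3 ≤ w →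
    M0 ≤ M → ∀ S : Finset ℕ, (∀ p ∈ S, p.Prime ∧ p ≤ M) →
    ∑ z ∈ S.offDiag, fq b w z ^ q ≤ K * Real.log w ^ 2 * (M / Real.log M) ^ 2 := by
  classical
  obtain ⟨K1, hK1, M1, hM1, hmom⟩ := moment_primes
  obtain ⟨K2, hK2, hpb⟩ := Pool.Agent.TH685.PairSig.pair_bound
  obtain ⟨Cs, hCs, hsmall⟩ := small_le
  refine ⟨K1 + 21 * K2 * Cs ^ 2, by nlinarith [sq_nonneg Cs], max M1 (b.natAbs + 2), by omega,
    fun w q M hq hqw hw3 hM S hS => ?_⟩
  have hM1' : M1 ≤ M := (le_max_left _ _).trans hM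
  have hMb : b.natAbs + 2 ≤ M := (le_max_right _ _).trans hM
  have hMr : (2 : ℝ) ≤ M := by exact_mod_cast (by omega : 2 ≤ M)
  have hlM : 0 < Real.log M := Real.log_pos (by linarith)
  have hwr : (3 : ℝ) ≤ w := by exact_mod_cast hw3
  have hlw1 : 1 ≤ Real.log w := by
    have h1 : Real.exp 1 ≤ w := by
      have := Real.exp_one_lt_d9
      linarith
    rw [Real.le_log_iff_exp_le (by linarith)]
    exact h1
  have hpt : ∀ z ∈ S.offDiag, fq b w z ^ q ≤
      gw w (Nat.dist z.1 z.2) ^ (2 * q) + gw w ((z.1 : ℤ) + z.2 + b).toNat ^ (2 * q) := by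
    intro z _
    unfold fq
    have h1 : 0 ≤ gw w (Nat.dist z.1 z.2) ^ q := pow_nonneg (by linarith [one_le_gw w (Nat.dist z.1 z.2)]) _
    have h2 : 0 ≤ gw w ((z.1 : ℤ) + z.2 + b).toNat ^ q :=
      pow_nonneg (by linarith [one_le_gw w ((z.1 : ℤ) + z.2 + b).toNat]) _
    rw [mul_pow, two_mul, pow_add, pow_add]
    nlinarith [sq_nonneg (gw w (Nat.dist z.1 z.2) ^ q - gw w ((z.1 : ℤ) + z.2 + b).toNat ^ q)]
  have h1 := Finset.sum_le_sum hpt
  rw [Finset.sum_add_distrib] at h1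
  have h2 := hmom w (2 * q) M (by omega) (by omega) hw3 hM1' S hS
  have h3 : ∑ z ∈ S.offDiag, gw w ((z.1 : ℤ) + z.2 + b).toNat ^ (2 * q) ≤
      21 * K2 * Cs ^ 2 * Real.log w ^ 2 * (M / Real.log M) ^ 2 := by
    have h4 := sum_pairs_plus S M hS (fun k => gw w (((k : ℤ) + b).toNat) ^ (2 * q))
      (fun n => pow_nonneg (by linarith [one_le_gw w (((n : ℤ) + b).toNat)]) _)
    push_cast at h4
    refine h4.trans ?_
    have h5 : ∀ k ∈ Icc 1 (2 * M), gw w (((k : ℤ) + b).toNat) ^ (2 * q) *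
        (Set.ncard {t : ℕ | t ≤ M ∧ t.Prime ∧ (Int.natAbs (-1 * t + k)).Prime} : ℝ) ≤
        K2 * (M / Real.log M ^ 2) * (Cs * Real.log w) ^ 2 *
          ((gw w (((k : ℤ) + b).toNat) ^ (4 * q) + gw w k ^ 4) / 2) := by
      intro k hk
      rw [mem_Icc] at hk
      have h6 := hpb M (by omega) (-1) (Or.inr rfl) k hk.1
      have h7 : gg k ≤ Cs * Real.log w * gw w k := by
        refine (gg_le_two k (by omega)).trans ((gg_le_split w (by omega) k (by omega)).trans ?_)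
        exact mul_le_mul_of_nonneg_right (hsmall w hw3) (by linarith [one_le_gw w k])
      have h8 : gg k ^ 2 ≤ (Cs * Real.log w) ^ 2 * gw w k ^ 2 := by
        rw [← mul_pow]
        exact pow_le_pow_left₀ (by linarith [one_le_gg k]) h7 2
      have h9 : 0 ≤ gw w (((k : ℤ) + b).toNat) ^ (2 * q) :=
        pow_nonneg (by linarith [one_le_gw w (((k : ℤ) + b).toNat)]) _
      have h10 : gw w (((k : ℤ) + b).toNat) ^ (2 * q) * gw w k ^ 2 ≤
          (gw w (((k : ℤ) + b).toNat) ^ (4 * q) + gw w k ^ 4) / 2 := by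
        have e1 : gw w (((k : ℤ) + b).toNat) ^ (4 * q) = (gw w (((k : ℤ) + b).toNat) ^ (2 * q)) ^ 2 := by
          rw [← pow_mul]
          congr 1
          ring
        have e2 : gw w k ^ 4 = (gw w k ^ 2) ^ 2 := by
          rw [← pow_mul]
        rw [e1, e2]
        nlinarith [sq_nonneg (gw w (((k : ℤ) + b).toNat) ^ (2 * q) - gw w k ^ 2)]
      calc gw w (((k : ℤ) + b).toNat) ^ (2 * q) *
          (Set.ncard {t : ℕ | t ≤ M ∧ t.Prime ∧ (Int.natAbs (-1 * t + k)).Prime} : ℝ) ≤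
          gw w (((k : ℤ) + b).toNat) ^ (2 * q) * (K2 * (M / Real.log M ^ 2) * gg k ^ 2) :=
            mul_le_mul_of_nonneg_left h6 h9
        _ ≤ gw w (((k : ℤ) + b).toNat) ^ (2 * q) *
            (K2 * (M / Real.log M ^ 2) * ((Cs * Real.log w) ^ 2 * gw w k ^ 2)) := by
            apply mul_le_mul_of_nonneg_left _ h9
            apply mul_le_mul_of_nonneg_left h8 (by positivity)
        _ = K2 * (M / Real.log M ^ 2) * (Cs * Real.log w) ^ 2 *
            (gw w (((k : ℤ) + b).toNat) ^ (2 * q) * gw w k ^ 2) := by ring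
        _ ≤ _ := mul_le_mul_of_nonneg_left h10 (by positivity)
    have h6 := (Finset.sum_le_sum h5).trans (le_of_eq (Finset.mul_sum _ _ _).symm)
    have h7 : ∑ k ∈ Icc 1 (2 * M), (gw w (((k : ℤ) + b).toNat) ^ (4 * q) + gw w k ^ 4) / 2 ≤ 21 * (M : ℝ) := by
      rw [← Finset.sum_div, Finset.sum_add_distrib]
      have h8 := sum_shift b w (4 * q) M (by omega) hqw (by omega)
      have h9 := moment_gw_le w 4 (2 * M) (by norm_num) (by omega)
      have he := exp_two_le_eight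
      have hM0 : (0 : ℝ) ≤ ((2 * M : ℕ) : ℝ) := Nat.cast_nonneg _
      have h10 := mul_le_mul_of_nonneg_left he hM0
      push_cast at h9 h10
      linarith
    refine h6.trans ?_
    calc K2 * (M / Real.log M ^ 2) * (Cs * Real.log w) ^ 2 *
          ∑ k ∈ Icc 1 (2 * M), (gw w (((k : ℤ) + b).toNat) ^ (4 * q) + gw w k ^ 4) / 2 ≤
        K2 * (M / Real.log M ^ 2) * (Cs * Real.log w) ^ 2 * (21 * M) :=
          mul_le_mul_of_nonneg_left h7 (by positivity)
      _ = _ := by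
          field_simp
  have h4 : K1 * Real.log w * (M / Real.log M) ^ 2 ≤ K1 * Real.log w ^ 2 * (M / Real.log M) ^ 2 := by
    apply mul_le_mul_of_nonneg_right _ (by positivity)
    apply mul_le_mul_of_nonneg_left _ (by linarith)
    nlinarith
  calc ∑ z ∈ S.offDiag, fq b w z ^ q ≤ _ := h1
    _ ≤ K1 * Real.log w ^ 2 * (M / Real.log M) ^ 2 + 21 * K2 * Cs ^ 2 * Real.log w ^ 2 * (M / Real.log M) ^ 2 :=
        add_le_add (h2.trans h4) h3
    _ = _ := by ring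

end Pool.Agent.Y561.SQ
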