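import Pool.Agent.Y561.SQ.QAvg

set_option autoImplicit false
set_option maxHeartbeats 1000000

/-! # Odd integers `f(p) + q`, `f` a monic quadratic polynomial, the prime `p` in an arbitrary finite set -/

namespace Pool.Agent.Y561.SQ

open Finset Filter Pool.Agent.H197R2.PG Pool.Agent.TH685.TI

theorem sum_gg_quad (b c : ℤ) : ∃ K : ℝ, 1 ≤ K ∧ ∀ (M : ℕ) (S : Finset ℕ) (r : ℝ), 16 ≤ r →
    (∀ p ∈ S, p.Prime ∧ p0 b c ≤ p ∧ p ≤ M) → 2 ≤ M → (M : ℝ) / Real.log M ≤ r * #S →
    ∑ z ∈ (S.image (va b c)).offDiag, gg (2 * Nat.dist z.1 z.2) ≤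
      K * Real.log (Real.log r) * (#S : ℝ) ^ 2 := by
  classical
  obtain ⟨K, hK, M0, hM0, hmom⟩ := moment_quad b
  obtain ⟨Cs, hCs, hsmall⟩ := small_le
  obtain ⟨B0, hB0⟩ : ∃ B0 : ℕ, B0 = 2 * (M0 * (2 * M0 + b.natAbs)) := ⟨_, rfl⟩
  refine ⟨B0 + 1 + Cs * 5 * (Real.exp 4 * K), ?_, fun M S r hr hS hM2 hMr => ?_⟩
  · have : (0 : ℝ) ≤ B0 := Nat.cast_nonneg _
    have : 0 ≤ Cs * 5 * (Real.exp 4 * K) := by positivity
    linarith
  obtain ⟨l, hl⟩ : ∃ l : ℝ, l = Real.log (Real.log r) := ⟨_, rfl⟩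
  have hl1 : 1 ≤ l := by rw [hl]; exact one_le_loglog hr
  rw [← hl]
  have hsub : (S.image (va b c)).offDiag ⊆ S.offDiag.image (fun z : ℕ × ℕ => (va b c z.1, va b c z.2)) := by
    intro z hz
    rw [mem_offDiag, mem_image, mem_image] at hz
    obtain ⟨⟨p, hp, hpe⟩, ⟨p', hp', hpe'⟩, hne⟩ := hz
    rw [mem_image]
    refine ⟨(p, p'), ?_, Prod.ext hpe hpe'⟩
    rw [mem_offDiag]
    refine ⟨hp, hp', ?_⟩
    rintro h
    apply hne
    have h' : p = p' := h
    rw [← hpe, ← hpe', h']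
  have h1 : ∑ z ∈ (S.image (va b c)).offDiag, gg (2 * Nat.dist z.1 z.2) ≤
      ∑ z ∈ S.offDiag, gg (2 * Nat.dist (va b c z.1) (va b c z.2)) := by
    refine (Finset.sum_le_sum_of_subset_of_nonneg hsub (fun z _ _ => by
      linarith [one_le_gg (2 * Nat.dist z.1 z.2)])).trans ?_
    rw [Finset.sum_image]
    intro z hz z' hz' h
    rw [mem_coe, mem_offDiag] at hz hz'
    have h2 := congrArg Prod.fst h
    have h3 := congrArg Prod.snd h
    exact Prod.ext (va_inj b c _ _ (hS _ hz.1).2.1 (hS _ hz'.1).2.1 h2)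
      (va_inj b c _ _ (hS _ hz.2.1).2.1 (hS _ hz'.2.1).2.1 h3)
  refine h1.trans ?_
  have hdist : ∀ z ∈ S.offDiag, Nat.dist (va b c z.1) (va b c z.2) =
      Nat.dist z.1 z.2 * ((z.1 : ℤ) + z.2 + b).toNat := by
    intro z hz
    rw [mem_offDiag] at hz
    exact va_dist b c _ _ (hS _ hz.1).2.1 (hS _ hz.2.1).2.1
  have hcard : (#S.offDiag : ℝ) ≤ (#S : ℝ) ^ 2 := by
    have : #S.offDiag ≤ #S * #S := by
      rw [offDiag_card]
      exact Nat.sub_le _ _
    calc (#S.offDiag : ℝ) ≤ ((#S * #S : ℕ) : ℝ) := by exact_mod_cast this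
      _ = (#S : ℝ) ^ 2 := by push_cast; ring
  have hs2 : (0 : ℝ) ≤ (#S : ℝ) ^ 2 := by positivity
  have hpos : ∀ z ∈ S.offDiag, 0 < Nat.dist z.1 z.2 ∧ 0 < ((z.1 : ℤ) + z.2 + b).toNat := by
    intro z hz
    rw [mem_offDiag] at hz
    have h3 := sum_pos b c z.1 z.2 (hS _ hz.1).2.1 (hS _ hz.2.1).2.1
    exact ⟨Nat.dist_pos_of_ne hz.2.2, by omega⟩
  rcases Nat.lt_or_ge M M0 with hMM | hMM
  · have h2 : ∀ z ∈ S.offDiag, gg (2 * Nat.dist (va b c z.1) (va b c z.2)) ≤ B0 := by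
      intro z hz
      rw [hdist z hz]
      obtain ⟨h3, h4⟩ := hpos z hz
      refine (gg_le_self _ (by have := Nat.mul_pos h3 h4; omega)).trans ?_
      rw [mem_offDiag] at hz
      have h5 := (hS z.1 hz.1).2.2
      have h6 := (hS z.2 hz.2.1).2.2
      have h7 : Nat.dist z.1 z.2 ≤ M0 := by
        unfold Nat.dist
        omega
      have h8 : ((z.1 : ℤ) + z.2 + b).toNat ≤ 2 * M0 + b.natAbs := by omega
      have h9 : 2 * (Nat.dist z.1 z.2 * ((z.1 : ℤ) + z.2 + b).toNat) ≤ B0 := by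
        rw [hB0]
        exact Nat.mul_le_mul_left 2 (Nat.mul_le_mul h7 h8)
      exact_mod_cast h9
    refine (Finset.sum_le_sum h2).trans ?_
    rw [Finset.sum_const, nsmul_eq_mul]
    have h4 : (0 : ℝ) ≤ Cs * 5 * (Real.exp 4 * K) := by positivity
    have h5 : (0 : ℝ) ≤ B0 := Nat.cast_nonneg _
    calc (#S.offDiag : ℝ) * B0 ≤ (#S : ℝ) ^ 2 * B0 :=
          mul_le_mul_of_nonneg_right hcard (by positivity)
      _ = B0 * 1 * (#S : ℝ) ^ 2 := by ring
      _ ≤ (B0 + 1 + Cs * 5 * (Real.exp 4 * K)) * l * (#S : ℝ) ^ 2 := by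
          apply mul_le_mul_of_nonneg_right _ hs2
          apply mul_le_mul (by linarith) hl1 (by norm_num) (by positivity)
  · have he := e_le_log hr
    have hlr : 2 < Real.log r := by
      have := Real.exp_one_gt_d9
      linarith
    obtain ⟨q, hq⟩ : ∃ q : ℕ, q = ⌈2 * Real.log r⌉₊ := ⟨_, rfl⟩
    have hq1 : 2 * Real.log r ≤ q := by rw [hq]; exact Nat.le_ceil _
    have hq2 : (q : ℝ) < 2 * Real.log r + 1 := by rw [hq]; exact Nat.ceil_lt_add_one (by linarith)
    have hq4 : 4 ≤ q := by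
      have : (4 : ℝ) ≤ q := by linarith
      exact_mod_cast this
    have hq4r : (4 : ℝ) ≤ q := by exact_mod_cast hq4
    obtain ⟨w, hw⟩ : ∃ w : ℕ, w = 4 * q := ⟨_, rfl⟩
    have hwr : (16 : ℝ) ≤ w := by
      rw [hw]
      push_cast
      linarith
    have hlw : 0 < Real.log w := Real.log_pos (by linarith)
    have hlogw : Real.log w ≤ 5 * l := by
      have h1 : (w : ℝ) ≤ 12 * Real.log r := by
        rw [hw]
        push_cast
        linarith
      have h2 : Real.log w ≤ Real.log (12 * Real.log r) := Real.log_le_log (by linarith) h1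
      rw [Real.log_mul (by norm_num) (by linarith), ← hl] at h2
      have h3 : Real.log 12 ≤ 4 := by
        have h4 : Real.log 12 ≤ Real.log 16 := Real.log_le_log (by norm_num) (by norm_num)
        have h5 : Real.log 16 = 4 * Real.log 2 := by
          rw [show (16 : ℝ) = 2 ^ 4 by norm_num, Real.log_pow]
          norm_num
        have h6 := Real.log_two_lt_d9
        linarith
      linarith
    obtain ⟨X, hX⟩ : ∃ X : ℝ, X = ∑ z ∈ S.offDiag, fq b w z := ⟨_, rfl⟩
    have hX1 : X ≤ (Real.exp 4 * K) * (#S : ℝ) ^ 2 := by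
      have h5 := hmom w q M (by omega) (by omega) (by omega) hMM S (fun p hp => ⟨(hS p hp).1, (hS p hp).2.2⟩)
      obtain ⟨m, hm⟩ : ∃ m, q = m + 1 := ⟨q - 1, by omega⟩
      rw [hm] at h5
      have h1 : X ^ (m + 1) ≤ (#S.offDiag : ℝ) ^ m * ∑ z ∈ S.offDiag, fq b w z ^ (m + 1) := by
        rw [hX]
        exact pow_sum_le_card_mul_sum_pow (fun z _ => by linarith [one_le_fq b w z]) m
      have h6 : K * Real.log w ^ 2 * (M / Real.log M) ^ 2 ≤ (Real.exp 4 * K) ^ (m + 1) * (#S : ℝ) ^ 2 := by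
        have hqr : ((m + 1 : ℕ) : ℝ) = q := by rw [hm]
        have h7 : Real.log w ^ 2 ≤ Real.exp 1 ^ (m + 1) * Real.exp 1 ^ (m + 1) := by
          have h8 : Real.log w ≤ Real.exp 1 ^ (m + 1) := by
            rw [← Real.exp_nat_mul, mul_one, hqr]
            have h8 : Real.log w ≤ Real.log 4 + (q - 1) := by
              have h9 : (w : ℝ) = 4 * q := by rw [hw]; push_cast; ring
              rw [h9, Real.log_mul (by norm_num) (by linarith)]
              have := Real.log_le_sub_one_of_pos (show (0 : ℝ) < q by linarith)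
              linarith
            have h10 : Real.log 4 ≤ 1.3863 := by
              have h3 : Real.log 4 = 2 * Real.log 2 := by
                rw [show (4 : ℝ) = 2 ^ 2 by norm_num, Real.log_pow]
                norm_num
              have h4 := Real.log_two_lt_d9
              linarith
            have h9 := Real.quadratic_le_exp_of_nonneg (Nat.cast_nonneg (α := ℝ) q)
            nlinarith
          rw [sq]
          exact mul_le_mul h8 h8 hlw.le (by positivity)
        have h8 : r ^ 2 ≤ Real.exp 1 ^ (m + 1) := by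
          rw [← Real.exp_nat_mul, mul_one, hqr]
          calc r ^ 2 = Real.exp (2 * Real.log r) := by
                rw [two_mul, Real.exp_add, Real.exp_log (by linarith)]
                ring
            _ ≤ Real.exp q := Real.exp_le_exp.2 hq1
        have h9 : (M / Real.log M : ℝ) ^ 2 ≤ r ^ 2 * (#S : ℝ) ^ 2 := by
          rw [← mul_pow]
          have hMr2 : (2 : ℝ) ≤ M := by exact_mod_cast hM2
          have : 0 < Real.log M := Real.log_pos (by linarith)
          exact pow_le_pow_left₀ (by positivity) hMr 2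
        have h10 : K ≤ K ^ (m + 1) := le_self_pow₀ hK (by omega)
        have h11 : (1 : ℝ) ≤ Real.exp 1 ^ (m + 1) := one_le_pow₀ (Real.one_le_exp (by norm_num))
        have h12 : Real.exp 4 = Real.exp 1 * (Real.exp 1 * (Real.exp 1 * Real.exp 1)) := by
          rw [← Real.exp_add, ← Real.exp_add, ← Real.exp_add]; norm_num
        have h13 : (0 : ℝ) ≤ Real.exp 1 ^ (m + 1) := by positivity
        calc K * Real.log w ^ 2 * (M / Real.log M) ^ 2 ≤
            K ^ (m + 1) * (Real.exp 1 ^ (m + 1) * Real.exp 1 ^ (m + 1)) * (r ^ 2 * (#S : ℝ) ^ 2) := by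
              apply mul_le_mul _ h9 (by positivity) (by positivity)
              exact mul_le_mul h10 h7 (by positivity) (by positivity)
          _ ≤ K ^ (m + 1) * (Real.exp 1 ^ (m + 1) * Real.exp 1 ^ (m + 1)) *
              (Real.exp 1 ^ (m + 1) * (#S : ℝ) ^ 2) := by
              apply mul_le_mul_of_nonneg_left _ (by positivity)
              exact mul_le_mul_of_nonneg_right h8 hs2
          _ ≤ K ^ (m + 1) * (Real.exp 1 ^ (m + 1) * Real.exp 1 ^ (m + 1)) *
              (Real.exp 1 ^ (m + 1) * (#S : ℝ) ^ 2) * Real.exp 1 ^ (m + 1) := by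
              apply le_mul_of_one_le_right (by positivity) h11
          _ = (Real.exp 4 * K) ^ (m + 1) * (#S : ℝ) ^ 2 := by
              rw [h12, mul_pow, mul_pow, mul_pow, mul_pow]
              ring
      have h8 : X ^ (m + 1) ≤ ((Real.exp 4 * K) * (#S : ℝ) ^ 2) ^ (m + 1) := by
        calc X ^ (m + 1) ≤ (#S.offDiag : ℝ) ^ m * ∑ z ∈ S.offDiag, fq b w z ^ (m + 1) := h1
          _ ≤ ((#S : ℝ) ^ 2) ^ m * ((Real.exp 4 * K) ^ (m + 1) * (#S : ℝ) ^ 2) := by
              apply mul_le_mul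
              · gcongr
              · exact h5.trans h6
              · apply Finset.sum_nonneg
                intro z _
                exact pow_nonneg (by linarith [one_le_fq b w z]) _
              · positivity
          _ = ((Real.exp 4 * K) * (#S : ℝ) ^ 2) ^ (m + 1) := by
              rw [mul_pow (Real.exp 4 * K) ((#S : ℝ) ^ 2) (m + 1), pow_succ ((#S : ℝ) ^ 2) m]
              ring
      exact le_of_pow_le_pow_left₀ (by omega) (by positivity) h8
    have h2 : ∀ z ∈ S.offDiag, gg (2 * Nat.dist (va b c z.1) (va b c z.2)) ≤ (Cs * (5 * l)) * fq b w z := by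
      intro z hz
      rw [hdist z hz]
      obtain ⟨h3, h4⟩ := hpos z hz
      refine (gg_split w (by omega) _ _ h3 h4).trans ?_
      apply mul_le_mul_of_nonneg_right _ (by have := one_le_fq b w z; unfold fq at this; linarith)
      exact (hsmall w (by omega)).trans (mul_le_mul_of_nonneg_left hlogw (by linarith))
    have h3 := (Finset.sum_le_sum h2).trans (le_of_eq (Finset.mul_sum _ _ _).symm)
    rw [← hX] at h3
    have hM00 : (0 : ℝ) ≤ B0 := Nat.cast_nonneg _
    calc ∑ z ∈ S.offDiag, gg (2 * Nat.dist (va b c z.1) (va b c z.2)) ≤ (Cs * (5 * l)) * X := h3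
      _ ≤ (Cs * (5 * l)) * ((Real.exp 4 * K) * (#S : ℝ) ^ 2) :=
          mul_le_mul_of_nonneg_left hX1 (by positivity)
      _ = (Cs * 5 * (Real.exp 4 * K)) * l * (#S : ℝ) ^ 2 := by ring
      _ ≤ (B0 + 1 + Cs * 5 * (Real.exp 4 * K)) * l * (#S : ℝ) ^ 2 := by
          apply mul_le_mul_of_nonneg_right _ hs2
          apply mul_le_mul_of_nonneg_right _ (by linarith)
          linarith

lemma va_upper (b c : ℤ) (p : ℕ) (hp : p0 b c ≤ p) : va b c p ≤ 2 * p ^ 2 := by
  have h1 := va_cast b c p hp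
  unfold p0 at hp
  have h2 : b ≤ (b.natAbs : ℤ) := by omega
  have h3 : c ≤ (c.natAbs : ℤ) := by omega
  have h4 : ((b.natAbs : ℤ)) + c.natAbs + 3 ≤ p := by exact_mod_cast hp
  have h5 : (0 : ℤ) ≤ b.natAbs := by positivity
  have h6 : (0 : ℤ) ≤ c.natAbs := by positivity
  generalize (b.natAbs : ℤ) = B at *
  generalize (c.natAbs : ℤ) = D at *
  have h7 : (p : ℤ) * (B + D + 3) ≤ p * p := mul_le_mul_of_nonneg_left h4 (by positivity)
  have h8 : b * p ≤ B * p := mul_le_mul_of_nonneg_right h2 (by positivity)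
  have h9 : D ≤ p * D := by nlinarith
  have h10 : ((va b c p : ℕ) : ℤ) ≤ 2 * (p : ℤ) ^ 2 := by
    rw [h1]
    nlinarith
  exact_mod_cast h10

lemma va_odd (b c : ℤ) (hbc : Odd (b + c)) (p : ℕ) (hp : p0 b c ≤ p) (hodd : p % 2 = 1) :
    va b c p % 2 = 1 := by
  have h1 := va_cast b c p hp
  obtain ⟨k, hk⟩ := hbc
  obtain ⟨j, hj⟩ : ∃ j : ℕ, p = 2 * j + 1 := ⟨p / 2, by omega⟩
  have h2 : ((va b c p : ℕ) : ℤ) = 2 * (2 * (j : ℤ) ^ 2 + 2 * j + b * j + k + 1) + 1 := by
    rw [h1, hj]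
    have : c = 2 * k + 1 - b := by linarith
    rw [this]
    push_cast
    ring
  generalize (2 * (j : ℤ) ^ 2 + 2 * j + b * j + k + 1) = y at h2
  omega

theorem lower_quad (b c : ℤ) (hbc : Odd (b + c)) : ∃ κ : ℝ, 0 < κ ∧ ∃ x0 : ℕ, ∀ x M : ℕ, x0 ≤ x →
    2 * M ^ 2 ≤ x → ∀ S : Finset ℕ, S.Nonempty → (∀ p ∈ S, p.Prime ∧ p0 b c ≤ p ∧ p ≤ M) →
    κ * (x * min (#S / Real.log x) (1 / Real.log (Real.log (16 * Nat.primeCounting M / #S)))) ≤
      #(RR (S.image (va b c)) x) := by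
  classical
  obtain ⟨C2, hC2, u0, hsm⟩ := second_moment_all
  obtain ⟨K, hK, hsum⟩ := sum_gg_quad b c
  obtain ⟨x1, hx1⟩ := eventually_atTop.mp QQ_card
  refine ⟨1 / (2 * (1 + 2 * (C2 * K))), by positivity, max (max u0 x1) 3, ?_⟩
  intro x M hx hMx S hSne hS
  have hxu : u0 ≤ x := (le_max_left _ _).trans ((le_max_left _ _).trans hx)
  have hxx1 : x1 ≤ x := (le_max_right _ _).trans ((le_max_left _ _).trans hx)
  have hx3 : 3 ≤ x := (le_max_right _ _).trans hx
  have hxr : (3 : ℝ) ≤ x := by exact_mod_cast hx3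
  have hL : 0 < Real.log x := Real.log_pos (by linarith)
  have hs1 : 1 ≤ #S := card_pos.2 hSne
  have hsr : (1 : ℝ) ≤ #S := by exact_mod_cast hs1
  have hM3 : 3 ≤ M := by
    obtain ⟨p, hp⟩ := hSne
    have := hS p hp
    unfold p0 at this
    omega
  have hcardI : #(S.image (va b c)) = #S := by
    apply card_image_of_injOn
    intro p hp p' hp' h
    exact va_inj b c p p' (hS p hp).2.1 (hS p' hp').2.1 h
  have hSM1 : S.image (va b c) ⊆ Icc 1 (2 * M ^ 2) := by
    intro m hm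
    obtain ⟨p, hp, rfl⟩ := mem_image.1 hm
    have h1 := hS p hp
    have h2 := va_upper b c p h1.2.1
    have h3 := va_cast b c p h1.2.1
    have h4 := lower_val b c p h1.2.1
    have h5 : p ^ 2 ≤ M ^ 2 := Nat.pow_le_pow_left h1.2.2 2
    have h6 := h1.1.pos
    rw [mem_Icc]
    omega
  have hsM : #S ≤ Nat.primeCounting M := card_le_pi S M (fun p hp => ⟨(hS p hp).1, (hS p hp).2.2⟩)
  have hsMr : (#S : ℝ) ≤ Nat.primeCounting M := by exact_mod_cast hsM
  obtain ⟨r, hr⟩ : ∃ r : ℝ, r = 16 * Nat.primeCounting M / #S := ⟨_, rfl⟩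
  have hr16 : 16 ≤ r := by
    rw [hr, le_div_iff₀ (by linarith)]
    linarith
  obtain ⟨l, hl⟩ : ∃ l : ℝ, l = Real.log (Real.log r) := ⟨_, rfl⟩
  have hl1 : 1 ≤ l := by rw [hl]; exact one_le_loglog hr16
  have hrs : (M : ℝ) / Real.log M ≤ r * #S := by
    have h1 : r * #S = 16 * Nat.primeCounting M := by
      rw [hr]
      field_simp
    rw [h1]
    exact pi_low M (by omega)
  have hsum2 := hsum M S r hr16 hS (by omega) hrs
  rw [← hl] at hsum2
  have hodd2 : ∀ a ∈ S.image (va b c), 3 ≤ a ∧ a % 2 = 1 := by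
    intro a ha
    obtain ⟨p, hp, rfl⟩ := mem_image.1 ha
    have h1 := hS p hp
    have h2 : p % 2 = 1 := by
      rcases h1.1.eq_two_or_odd with h | h
      · have := h1.2.1
        unfold p0 at this
        omega
      · exact h
    have h3 := va_cast b c p h1.2.1
    have h4 := lower_val b c p h1.2.1
    have h6 := h1.1.pos
    exact ⟨by omega, va_odd b c hbc p h1.2.1 h2⟩
  have hmain := hsm x (2 * M ^ 2) (S.image (va b c)) hxu hMx hSM1 hodd2
  rw [hcardI] at hmain
  have hQ := hx1 x hxx1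
  obtain ⟨L, hLd⟩ : ∃ L : ℝ, L = Real.log x := ⟨_, rfl⟩
  rw [← hLd] at hL hmain hQ ⊢
  rw [← hr, ← hl]
  obtain ⟨B, hB⟩ : ∃ B : ℝ, B = C2 * K * l * (#S : ℝ) ^ 2 * x / L ^ 2 := ⟨_, rfl⟩
  refine final_ineq _ ((#S : ℝ) * #(QQ x)) ((#S : ℝ) * x / (2 * L)) B x L #S l (C2 * K)
    (Nat.cast_nonneg _) (by linarith) hL (by linarith) hl1 (by positivity) rfl hB ?_ ?_
  · calc (#S : ℝ) * x / (2 * L) = #S * (x / (2 * L)) := by ring
      _ ≤ _ := mul_le_mul_of_nonneg_left hQ (by linarith)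
  · refine hmain.trans ?_
    apply mul_le_mul_of_nonneg_left _ (Nat.cast_nonneg _)
    have h1 : C2 * (∑ z ∈ (S.image (va b c)).offDiag, gg (2 * Nat.dist z.1 z.2)) * x / L ^ 2 ≤ B := by
      rw [hB]
      calc C2 * (∑ z ∈ (S.image (va b c)).offDiag, gg (2 * Nat.dist z.1 z.2)) * x / L ^ 2 ≤
          C2 * (K * l * (#S : ℝ) ^ 2) * x / L ^ 2 := by gcongr
        _ = _ := by ring
    linarith

open Classical in
/-- The odd integers `n` with `1 ≤ n ≤ x` of the form `f(p) + q`, `p ∈ S`, `q` prime,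
`f = X² + b X + c`. -/
noncomputable def qsums (b c : ℤ) (S : Finset ℕ) (x : ℕ) : Finset ℕ :=
  (Icc 1 x).filter (fun n => Odd n ∧ ∃ p ∈ S, ∃ q : ℕ, q.Prime ∧ ((p : ℤ) ^ 2 + b * p + c) + q = n)

lemma RR_qsums (b c : ℤ) (S : Finset ℕ) (x : ℕ) (hS : ∀ p ∈ S, p0 b c ≤ p) :
    #(RR (S.image (va b c)) (x / 2)) ≤ #(qsums b c S x) := by
  classical
  apply card_le_card_of_injOn (fun n => 2 * n - 1)
  · intro n hn
    rw [mem_coe] at hn
    unfold RR at hn
    rw [mem_filter, mem_Icc] at hn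
    obtain ⟨⟨h1, h2⟩, a, ha, q, hq, hqa⟩ := hn
    obtain ⟨p, hp, rfl⟩ := mem_image.1 ha
    have h3 := va_cast b c p (hS p hp)
    show 2 * n - 1 ∈ (qsums b c S x : Set ℕ)
    rw [mem_coe]
    unfold qsums
    rw [mem_filter, mem_Icc]
    refine ⟨⟨by omega, by omega⟩, ⟨n - 1, by omega⟩, p, hp, q, hq, ?_⟩
    have h4 : ((2 * n - 1 : ℕ) : ℤ) = 2 * n - 1 := by omega
    rw [h4]
    have h5 : ((va b c p : ℕ) : ℤ) + q = 2 * n := by exact_mod_cast hqa
    linarith
  · intro n hn n' hn' h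
    rw [mem_coe] at hn hn'
    unfold RR at hn hn'
    rw [mem_filter, mem_Icc] at hn hn'
    have h' : 2 * n - 1 = 2 * n' - 1 := h
    omega

theorem lower_qsums (b c : ℤ) (hbc : Odd (b + c)) : ∃ κ : ℝ, 0 < κ ∧ ∃ x0 : ℕ, ∀ x M : ℕ, x0 ≤ x →
    4 * M ^ 2 ≤ x → ∀ S : Finset ℕ, S.Nonempty → (∀ p ∈ S, p.Prime ∧ p0 b c ≤ p ∧ p ≤ M) →
    κ * (x * min (#S / Real.log x) (1 / Real.log (Real.log (16 * Nat.primeCounting M / #S)))) ≤
      #(qsums b c S x) := by
  obtain ⟨κ, hκ, x0, h⟩ := lower_quad b c hbc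
  refine ⟨κ / 3, by positivity, 2 * x0 + 100, fun x M hx hM S hSne hS => ?_⟩
  have hx100 : 100 ≤ x := by omega
  have hxr : (100 : ℝ) ≤ x := by exact_mod_cast hx100
  obtain ⟨y, hy⟩ : ∃ y : ℕ, y = x / 2 := ⟨_, rfl⟩
  have hy3 : (x : ℝ) / 3 ≤ y := by
    have : x ≤ 3 * y := by omega
    have : (x : ℝ) ≤ 3 * y := by exact_mod_cast this
    linarith
  have hyx : (y : ℝ) ≤ x := by exact_mod_cast (by omega : y ≤ x)
  have hy30 : (30 : ℝ) ≤ y := by exact_mod_cast (by omega : 30 ≤ y)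
  have hmain := h y M (by omega) (by omega) S hSne hS
  have hcard : (#(RR (S.image (va b c)) y) : ℝ) ≤ #(qsums b c S x) := by
    rw [hy]
    exact_mod_cast RR_qsums b c S x (fun p hp => (hS p hp).2.1)
  refine le_trans ?_ (hmain.trans hcard)
  have hly : 0 < Real.log y := Real.log_pos (by linarith)
  have hlyx : Real.log y ≤ Real.log x := Real.log_le_log (by linarith) hyx
  have hs1 : 1 ≤ #S := card_pos.2 hSne
  have hsr : (1 : ℝ) ≤ #S := by exact_mod_cast hs1
  have hsM : #S ≤ Nat.primeCounting M := card_le_pi S M (fun p hp => ⟨(hS p hp).1, (hS p hp).2.2⟩)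
  have hsMr : (#S : ℝ) ≤ Nat.primeCounting M := by exact_mod_cast hsM
  have hl1 := one_le_loglog (r := 16 * Nat.primeCounting M / #S) (by
    rw [le_div_iff₀ (by linarith)]
    linarith)
  have hmin : min ((#S : ℝ) / Real.log x) (1 / Real.log (Real.log (16 * Nat.primeCounting M / #S))) ≤
      min (#S / Real.log y) (1 / Real.log (Real.log (16 * Nat.primeCounting M / #S))) := by
    apply min_le_min _ le_rfl
    exact div_le_div_of_nonneg_left (Nat.cast_nonneg _) hly hlyx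
  have hmin0 : 0 ≤ min ((#S : ℝ) / Real.log x) (1 / Real.log (Real.log (16 * Nat.primeCounting M / #S))) :=
    le_min (div_nonneg (Nat.cast_nonneg _) (by linarith)) (by positivity)
  calc κ / 3 * (x * min ((#S : ℝ) / Real.log x) (1 / Real.log (Real.log (16 * Nat.primeCounting M / #S)))) =
      κ * ((x / 3) * min ((#S : ℝ) / Real.log x) (1 / Real.log (Real.log (16 * Nat.primeCounting M / #S)))) := by
        ring
    _ ≤ κ * (y * min (#S / Real.log y) (1 / Real.log (Real.log (16 * Nat.primeCounting M / #S)))) := by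
        apply mul_le_mul_of_nonneg_left _ hκ.le
        exact mul_le_mul hy3 hmin hmin0 (by linarith)

end Pool.Agent.Y561.SQ
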