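import Pool.Agent.Y561.SQ.QMain

set_option autoImplicit false
set_option maxHeartbeats 1000000

/-! # Odd integers `f(p) + q`: sets of primes for which the lower bound is sharp -/

namespace Pool.Agent.Y561.SQ

open Finset Filter

lemma qsums_le (b c : ℤ) (S : Finset ℕ) (x : ℕ) : #(qsums b c S x) ≤ x := by
  classical
  unfold qsums
  refine (card_filter_le _ _).trans ?_
  rw [Nat.card_Icc]
  omega

lemma qsums_nat (b c : ℤ) (p q n : ℕ) (hp : p0 b c ≤ p)
    (h : ((p : ℤ) ^ 2 + b * p + c) + q = n) : (va b c p - 1) + q = n ∧ 0 < va b c p - 1 := by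
  have h1 := va_cast b c p hp
  have h2 := lower_val b c p hp
  have h3 : 3 ≤ p := by
    unfold p0 at hp
    omega
  have h4 : ((va b c p : ℕ) : ℤ) + q = n + 1 := by
    rw [h1]
    linarith
  have h5 : (9 : ℤ) ≤ (p : ℤ) ^ 2 + b * p + c := by
    have : (3 : ℤ) ≤ p := by exact_mod_cast h3
    linarith
  have h6 : (10 : ℤ) ≤ ((va b c p : ℕ) : ℤ) := by
    rw [h1]
    linarith
  omega

lemma qsums_union (b c : ℤ) (S : Finset ℕ) (x : ℕ) (hS : ∀ p ∈ S, p0 b c ≤ p) :
    #(qsums b c S x) ≤ #S * Nat.primeCounting x := by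
  classical
  have h1 : qsums b c S x ⊆ S.biUnion (fun m => ((range (x + 1)).filter Nat.Prime).image
      (fun q => (va b c m - 1) + q)) := by
    intro n hn
    unfold qsums at hn
    rw [mem_filter, mem_Icc] at hn
    obtain ⟨⟨h1, h2⟩, _, m, hm, q, hq, hqm⟩ := hn
    have h3 := qsums_nat b c m q n (hS m hm) hqm
    rw [mem_biUnion]
    refine ⟨m, hm, ?_⟩
    rw [mem_image]
    refine ⟨q, ?_, h3.1⟩
    rw [mem_filter, mem_range]
    exact ⟨by omega, hq⟩
  refine (card_le_card h1).trans (card_biUnion_le.trans ?_)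
  rw [← smul_eq_mul, ← sum_const]
  apply sum_le_sum
  intro m _
  refine card_image_le.trans ?_
  rw [Nat.primeCounting, Nat.primeCounting', Nat.count_eq_card_filter_range]

/-- a set of primes whose values are in one residue class -/
lemma qsums_class (b c : ℤ) (w a x : ℕ) (P : ℕ) (hP : P = ∏ p ∈ (Icc 1 w).filter Nat.Prime, p)
    (S : Finset ℕ) (hS : ∀ p ∈ S, p0 b c ≤ p) (hSa : ∀ p ∈ S, (va b c p - 1) % P = a) :
    #(qsums b c S x) ≤ Nat.totient P * (x / P + 1) + #S * (w + 1) := by
  classical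
  have hPpos : 0 < P := by
    rw [hP]
    exact prod_pos fun p hp => (mem_filter.1 hp).2.pos
  have h1 : qsums b c S x ⊆ ((Ico 1 (1 + x)).filter (fun k => P.Coprime k)).image (fun k => k + a) ∪
      (S ×ˢ (range (w + 1))).image (fun z => (va b c z.1 - 1) + z.2) := by
    intro n hn
    unfold qsums at hn
    rw [mem_filter, mem_Icc] at hn
    obtain ⟨⟨h1, h2⟩, _, m, hm, q, hq, hqm'⟩ := hn
    obtain ⟨hqm, _⟩ := qsums_nat b c m q n (hS m hm) hqm'
    rw [mem_union]
    by_cases hqw : q ≤ w
    · right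
      rw [mem_image]
      exact ⟨(m, q), by rw [mem_product, mem_range]; exact ⟨hm, by omega⟩, hqm⟩
    · left
      push Not at hqw
      rw [mem_image]
      have h3 := hSa m hm
      have h4 := Nat.mod_add_div (va b c m - 1) P
      rw [h3] at h4
      have hq1 := hq.pos
      have hna : n - a = q + P * ((va b c m - 1) / P) := by omega
      refine ⟨n - a, ?_, by omega⟩
      rw [mem_filter, mem_Ico]
      refine ⟨⟨by omega, by omega⟩, ?_⟩
      rw [hna, Nat.coprime_add_mul_left_right]
      rw [hP]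
      apply Nat.Coprime.prod_left
      intro p hp
      rw [mem_filter, mem_Icc] at hp
      exact (Nat.coprime_primes hp.2 hq).2 (by omega)
  refine (card_le_card h1).trans ((card_union_le _ _).trans ?_)
  apply Nat.add_le_add
  · refine card_image_le.trans ?_
    exact Nat.Ico_filter_coprime_le 1 x hPpos.ne'
  · refine card_image_le.trans ?_
    rw [card_product, card_range]

theorem upper_qsums (b c : ℤ) : ∃ C : ℝ, 0 < C ∧ ∃ x0 : ℕ, ∀ x M s : ℕ, x0 ≤ x → M ≤ x → 1 ≤ s →
    s ≤ #((range (M + 1)).filter (fun p => p.Prime ∧ p0 b c ≤ p)) →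
    ∃ S : Finset ℕ, (∀ p ∈ S, p.Prime ∧ p0 b c ≤ p ∧ p ≤ M) ∧ #S = s ∧
    (#(qsums b c S x) : ℝ) ≤
      C * (x * min (s / Real.log x) (1 / Real.log (Real.log (16 * Nat.primeCounting M / s)))) := by
  classical
  obtain ⟨Ct, hCt, htot⟩ := totient_le
  obtain ⟨x1, hx1⟩ := eventually_atTop.mp pi_up
  obtain ⟨k0, hk0⟩ : ∃ k0 : ℕ, k0 = p0 b c := ⟨_, rfl⟩
  have hk03 : 3 ≤ k0 := by
    rw [hk0]
    unfold p0
    omega
  refine ⟨6 * Ct + 3 + (k0 + 6) * 1.3863, by positivity, x1 + 3, fun x M s hx hMx hs hsM => ?_⟩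
  rw [← hk0] at hsM ⊢
  have hpi := hx1 x (by omega)
  have hx3 : (3 : ℝ) ≤ x := by exact_mod_cast (by omega : 3 ≤ x)
  have hL : 0 < Real.log x := Real.log_pos (by linarith)
  have hsr : (1 : ℝ) ≤ s := by exact_mod_cast hs
  obtain ⟨N, hN⟩ : ∃ N : ℕ, N = Nat.primeCounting M := ⟨_, rfl⟩
  rw [← hN]
  obtain ⟨T, hT⟩ : ∃ T : Finset ℕ, T = (range (M + 1)).filter Nat.Prime := ⟨_, rfl⟩
  obtain ⟨T0, hT0⟩ : ∃ T0 : Finset ℕ, T0 = (range (M + 1)).filter (fun p => p.Prime ∧ k0 ≤ p) := ⟨_, rfl⟩
  rw [← hT0] at hsM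
  have hTc : #T = N := by
    rw [hT, hN, Nat.primeCounting, Nat.primeCounting', Nat.count_eq_card_filter_range]
  have hT0T : T0 ⊆ T := by
    intro p hp
    rw [hT0, mem_filter] at hp
    rw [hT, mem_filter]
    exact ⟨hp.1, hp.2.1⟩
  have hsN : s ≤ N := by
    have := card_le_card hT0T
    omega
  have hsNr : (s : ℝ) ≤ N := by exact_mod_cast hsN
  have hTx : N ≤ x := by
    have h1 : T ⊆ Icc 1 M := by
      intro p hp
      rw [hT, mem_filter, mem_range] at hp
      rw [mem_Icc]
      have := hp.2.pos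
      omega
    have := card_le_card h1
    rw [Nat.card_Icc, Nat.add_sub_cancel] at this
    omega
  obtain ⟨r, hr⟩ : ∃ r : ℝ, r = 16 * N / s := ⟨_, rfl⟩
  have hr16 : 16 ≤ r := by
    rw [hr, le_div_iff₀ (by linarith)]
    linarith
  obtain ⟨l, hl⟩ : ∃ l : ℝ, l = Real.log (Real.log r) := ⟨_, rfl⟩
  have hl1 : 1 ≤ l := by rw [hl]; exact one_le_loglog hr16
  rw [← hr, ← hl]
  obtain ⟨S₁, hS₁T, hS₁c⟩ : ∃ S₁ ⊆ T0, #S₁ = s := Finset.exists_subset_card_eq hsM
  have hTodd : ∀ p ∈ T0, p.Prime ∧ k0 ≤ p ∧ p ≤ M := by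
    intro p hp
    rw [hT0, mem_filter, mem_range] at hp
    exact ⟨hp.2.1, hp.2.2, by omega⟩
  have hk0r : (0 : ℝ) ≤ k0 := Nat.cast_nonneg _
  by_cases hcase : (s : ℝ) / Real.log x ≤ 1 / l
  · refine ⟨S₁, fun p hp => hTodd p (hS₁T hp), hS₁c, ?_⟩
    rw [min_eq_left hcase]
    have h1 : (#(qsums b c S₁ x) : ℝ) ≤ s * Nat.primeCounting x := by
      have := qsums_union b c S₁ x (fun p hp => by rw [← hk0]; exact (hTodd p (hS₁T hp)).2.1)
      rw [hS₁c] at this
      exact_mod_cast this
    calc (#(qsums b c S₁ x) : ℝ) ≤ s * Nat.primeCounting x := h1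
      _ ≤ s * (2 * (x / Real.log x)) := mul_le_mul_of_nonneg_left hpi (by linarith)
      _ = 2 * (x * (s / Real.log x)) := by ring
      _ ≤ (6 * Ct + 3 + (k0 + 6) * 1.3863) * (x * (s / Real.log x)) := by
          apply mul_le_mul_of_nonneg_right _ (by positivity)
          linarith
  · push Not at hcase
    rw [min_eq_right hcase.le]
    obtain ⟨K, hK⟩ : ∃ K : ℕ, K = N / (2 * s) := ⟨_, rfl⟩
    have hKs : K * (2 * s) ≤ N := by rw [hK]; exact Nat.div_mul_le_self _ _
    have hKs2 : N < 2 * s * (K + 1) := by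
      rw [hK]
      exact Nat.lt_mul_div_succ _ (by omega)
    obtain ⟨w, hw⟩ : ∃ w : ℕ, w = Nat.log 4 K := ⟨_, rfl⟩
    have hw1 : K < 4 ^ (w + 1) := by rw [hw]; exact Nat.lt_pow_succ_log_self (by norm_num) K
    have hNs : N ≤ 2 * s * 4 ^ (w + 1) := by
      have h1 : 2 * s * (K + 1) ≤ 2 * s * 4 ^ (w + 1) := Nat.mul_le_mul_left _ hw1
      omega
    have hrw : r ≤ 4 ^ (w + 4) := by
      have h1 : (N : ℝ) ≤ 2 * s * 4 ^ (w + 1) := by exact_mod_cast hNs
      rw [hr, div_le_iff₀ (by linarith)]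
      have h2 : (0 : ℝ) ≤ s * 4 ^ (w + 1) := by positivity
      calc 16 * (N : ℝ) ≤ 16 * (2 * s * 4 ^ (w + 1)) := by linarith
        _ = 32 * (s * 4 ^ (w + 1)) := by ring
        _ ≤ 64 * (s * 4 ^ (w + 1)) := by linarith
        _ = 4 ^ (w + 4) * s := by ring
    have hlr0 : 0 < Real.log r := Real.log_pos (by linarith)
    have hlog4 : Real.log 4 < 1.3863 := by
      have h3 : Real.log 4 = 2 * Real.log 2 := by
        rw [show (4 : ℝ) = 2 ^ 2 by norm_num, Real.log_pow]
        norm_num
      have h4 := Real.log_two_lt_d9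
      linarith
    have hlrw : Real.log r ≤ (w + 4) * 1.3863 := by
      have h1 := Real.log_le_log (by linarith) hrw
      rw [Real.log_pow] at h1
      push_cast at h1
      have h2 : ((w : ℝ) + 4) * Real.log 4 ≤ (w + 4) * 1.3863 :=
        mul_le_mul_of_nonneg_left hlog4.le (by positivity)
      linarith
    by_cases hw3 : w < k0
    · refine ⟨S₁, fun p hp => hTodd p (hS₁T hp), hS₁c, ?_⟩
      have h1 : (#(qsums b c S₁ x) : ℝ) ≤ x := by exact_mod_cast qsums_le b c S₁ x
      have h2 : (w : ℝ) ≤ k0 := by exact_mod_cast (by omega : w ≤ k0)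
      have h3 : l ≤ (k0 + 6) * 1.3863 := by
        have h4 := Real.log_le_sub_one_of_pos hlr0
        rw [← hl] at h4
        linarith
      refine h1.trans ?_
      have h5 : (1 : ℝ) ≤ ((k0 + 6) * 1.3863) * (1 / l) := by
        rw [mul_one_div, le_div_iff₀ (by linarith)]
        linarith
      have h6 : (0 : ℝ) ≤ x * (1 / l) := by positivity
      calc (x : ℝ) = x * 1 := by ring
        _ ≤ x * (((k0 + 6) * 1.3863) * (1 / l)) := mul_le_mul_of_nonneg_left h5 (by linarith)
        _ = ((k0 + 6) * 1.3863) * (x * (1 / l)) := by ring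
        _ ≤ (6 * Ct + 3 + (k0 + 6) * 1.3863) * (x * (1 / l)) := by
            apply mul_le_mul_of_nonneg_right _ h6
            linarith
    · push Not at hw3
      have hw3' : 3 ≤ w := by omega
      have hK1 : K ≠ 0 := by
        rintro rfl
        rw [hw, Nat.log_zero_right] at hw3'
        omega
      have hw2 : 4 ^ w ≤ K := by rw [hw]; exact Nat.pow_log_le_self 4 hK1
      have hww : w < 4 ^ w := Nat.lt_pow_self (by norm_num)
      obtain ⟨P, hP⟩ : ∃ P : ℕ, P = ∏ p ∈ (Icc 1 w).filter Nat.Prime, p := ⟨_, rfl⟩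
      have hP4 : P ≤ 4 ^ w := by
        have h1 := primorial_le_four_pow w
        refine le_trans (le_of_eq ?_) h1
        rw [hP]
        unfold primorial
        congr 1
        ext p
        rw [mem_filter, mem_filter, mem_Icc, mem_range]
        constructor
        · rintro ⟨h2, h3⟩
          exact ⟨by omega, h3⟩
        · rintro ⟨h2, h3⟩
          exact ⟨⟨h3.one_lt.le, by omega⟩, h3⟩
      have hPpos : 0 < P := by
        rw [hP]
        exact prod_pos fun p hp => (mem_filter.1 hp).2.pos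
      obtain ⟨T', hT'⟩ : ∃ T' : Finset ℕ, T' = T.filter (fun p => w < p) := ⟨_, rfl⟩
      have hT'c : N ≤ #T' + w := by
        have h1 : T ⊆ T' ∪ Icc 1 w := by
          intro p hp
          rw [mem_union, hT', mem_filter, mem_Icc]
          by_cases h : w < p
          · exact Or.inl ⟨hp, h⟩
          · right
            rw [hT, mem_filter] at hp
            have := hp.2.pos
            omega
        have h2 := (card_le_card h1).trans (card_union_le _ _)
        rw [Nat.card_Icc, Nat.add_sub_cancel, hTc] at h2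
        exact h2
      have hT'big : P * s ≤ #T' := by
        have h1 : P * s ≤ K * s := Nat.mul_le_mul_right s (hP4.trans hw2)
        have h2 : K * (2 * s) = 2 * (K * s) := by ring
        have h3 : w * 1 ≤ K * s := Nat.mul_le_mul (hww.le.trans hw2) hs
        omega
      obtain ⟨a, ha, haS⟩ : ∃ a ∈ range P, s ≤ #(T'.filter (fun p => (va b c p - 1) % P = a)) := by
        apply Finset.exists_le_card_fiber_of_mul_le_card_of_maps_to
        · intro p _
          rw [mem_range]
          exact Nat.mod_lt _ hPpos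
        · exact ⟨0, mem_range.2 hPpos⟩
        · rw [card_range]
          exact hT'big
      obtain ⟨S, hSsub, hSc⟩ := Finset.exists_subset_card_eq haS
      have hSprop : ∀ p ∈ S, p.Prime ∧ k0 ≤ p ∧ p ≤ M := by
        intro p hp
        have h1 := hSsub hp
        rw [mem_filter, hT', mem_filter, hT, mem_filter, mem_range] at h1
        exact ⟨h1.1.1.2, by omega, by omega⟩
      refine ⟨S, hSprop, hSc, ?_⟩
      have h1 := qsums_class b c w a x P hP S (fun p hp => by rw [← hk0]; exact (hSprop p hp).2.1)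
        (fun p hp => (mem_filter.1 (hSsub hp)).2)
      rw [hSc] at h1
      have h2 := htot w hw3'
      rw [← hP] at h2
      have hw3r : (3 : ℝ) ≤ w := by exact_mod_cast hw3'
      have hlw : 0 < Real.log w := Real.log_pos (by linarith)
      have hll : l ≤ 3 * Real.log w := by
        have h3 : Real.log r ≤ (w : ℝ) ^ 3 := by
          refine hlrw.trans ?_
          nlinarith [mul_nonneg (mul_nonneg (show (0 : ℝ) ≤ w by linarith) (show (0 : ℝ) ≤ (w : ℝ) - 3 by linarith))
            (show (0 : ℝ) ≤ (w : ℝ) by linarith)]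
        have h4 : Real.log ((w : ℝ) ^ 3) = 3 * Real.log w := by
          rw [Real.log_pow]
          norm_num
        rw [hl, ← h4]
        exact Real.log_le_log hlr0 h3
      have hPx : (P : ℝ) ≤ x := by
        have h3 : P ≤ x := by
          have h4 : P * 1 ≤ P * s := Nat.mul_le_mul_left P hs
          have h5 : K * 1 ≤ K * (2 * s) := Nat.mul_le_mul_left K (by omega)
          have h6 := hP4.trans hw2
          omega
        exact_mod_cast h3
      have h3 : ((Nat.totient P * (x / P + 1) : ℕ) : ℝ) ≤ 6 * Ct * (x * (1 / l)) := by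
        push_cast
        have h4 : (((x / P : ℕ) : ℝ)) ≤ x / P := Nat.cast_div_le
        have hPr : (0 : ℝ) < P := by exact_mod_cast hPpos
        calc (Nat.totient P : ℝ) * (((x / P : ℕ) : ℝ) + 1) ≤
            (Ct / Real.log w * P) * (x / P + 1) := by
              apply mul_le_mul h2 (by linarith) (by positivity) (by positivity)
          _ = Ct / Real.log w * (x + P) := by field_simp
          _ ≤ Ct / Real.log w * (2 * x) := by
              apply mul_le_mul_of_nonneg_left (by linarith) (by positivity)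
          _ ≤ Ct * (3 / l) * (2 * x) := by
              apply mul_le_mul_of_nonneg_right _ (by positivity)
              rw [div_eq_mul_one_div Ct]
              apply mul_le_mul_of_nonneg_left _ (by linarith)
              rw [div_le_div_iff₀ hlw (by linarith)]
              linarith
          _ = 6 * Ct * (x * (1 / l)) := by ring
      have h4 : ((s * (w + 1) : ℕ) : ℝ) ≤ 3 * (x * (1 / l)) := by
        have h5 : 2 * w * (w + 1) ≤ 4 ^ w := pow_aux w hw3'
        have h6 : s * (2 * w * (w + 1)) ≤ x := by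
          calc s * (2 * w * (w + 1)) ≤ s * K := Nat.mul_le_mul_left s (h5.trans hw2)
            _ = K * s := mul_comm _ _
            _ ≤ K * (2 * s) := Nat.mul_le_mul_left K (by omega)
            _ ≤ x := by omega
        have h6r : (s : ℝ) * (2 * w * (w + 1)) ≤ x := by exact_mod_cast h6
        have h7 : l ≤ 3 * w := by
          have := Real.log_le_sub_one_of_pos (show (0 : ℝ) < w by linarith)
          linarith
        push_cast
        rw [← mul_assoc, mul_one_div, le_div_iff₀ (by linarith)]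
        calc (s : ℝ) * (w + 1) * l ≤ s * (w + 1) * (3 * w) := by gcongr
          _ = 3 / 2 * (s * (2 * w * (w + 1))) := by ring
          _ ≤ 3 / 2 * x := by linarith
          _ ≤ 3 * x := by linarith
      have h5 : (#(qsums b c S x) : ℝ) ≤ ((Nat.totient P * (x / P + 1) : ℕ) : ℝ) + ((s * (w + 1) : ℕ) : ℝ) := by
        exact_mod_cast h1
      have h6 : (0 : ℝ) ≤ x * (1 / l) := by positivity
      calc (#(qsums b c S x) : ℝ) ≤ _ := h5
        _ ≤ 6 * Ct * (x * (1 / l)) + 3 * (x * (1 / l)) := add_le_add h3 h4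
        _ = (6 * Ct + 3) * (x * (1 / l)) := by ring
        _ ≤ (6 * Ct + 3 + (k0 + 6) * 1.3863) * (x * (1 / l)) := by
            apply mul_le_mul_of_nonneg_right _ h6
            linarith

end Pool.Agent.Y561.SQ
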