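import Pool.Agent.Y561.SQ.Lower

set_option autoImplicit false
set_option maxHeartbeats 1000000

/-! # Sets `S` with few integers `q + m²`, `m ∈ S` -/

namespace Pool.Agent.Y561.SQ

open Finset Filter Pool.Agent.H197R2.PG

open Classical in
/-- The even integers `n` with `1 ≤ n ≤ x` of the form `q + m ^ 2`, `m ∈ S` and `q` prime. -/
noncomputable def reps (S : Finset ℕ) (x : ℕ) : Finset ℕ :=
  (Icc 1 x).filter (fun n => Even n ∧ ∃ m ∈ S, ∃ q : ℕ, q.Prime ∧ q + m ^ 2 = n)

lemma RR_le (S : Finset ℕ) (x : ℕ) : #(RR (S.image (fun m => m ^ 2)) (x / 2)) ≤ #(reps S x) := by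
  classical
  apply card_le_card_of_injOn (fun n => 2 * n)
  · intro n hn
    rw [mem_coe] at hn
    unfold RR at hn
    rw [mem_filter, mem_Icc] at hn
    obtain ⟨⟨h1, h2⟩, a, ha, q, hq, hqa⟩ := hn
    obtain ⟨m, hm, rfl⟩ := mem_image.1 ha
    show 2 * n ∈ (reps S x : Set ℕ)
    rw [mem_coe]
    unfold reps
    rw [mem_filter, mem_Icc]
    refine ⟨⟨by omega, by omega⟩, even_two_mul n, m, hm, q, hq, by omega⟩
  · intro a _ b _ h
    have h' : 2 * a = 2 * b := h
    omega

lemma reps_le (S : Finset ℕ) (x : ℕ) : #(reps S x) ≤ x := by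
  classical
  unfold reps
  refine (card_filter_le _ _).trans ?_
  rw [Nat.card_Icc]
  omega

/-- the trivial bound -/
lemma reps_union (S : Finset ℕ) (x : ℕ) : #(reps S x) ≤ #S * Nat.primeCounting x := by
  classical
  have h1 : reps S x ⊆ S.biUnion (fun m => ((range (x + 1)).filter Nat.Prime).image (fun q => q + m ^ 2)) := by
    intro n hn
    unfold reps at hn
    rw [mem_filter, mem_Icc] at hn
    obtain ⟨⟨h1, h2⟩, _, m, hm, q, hq, hqm⟩ := hn
    rw [mem_biUnion]
    refine ⟨m, hm, ?_⟩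
    rw [mem_image]
    refine ⟨q, ?_, hqm⟩
    rw [mem_filter, mem_range]
    exact ⟨by omega, hq⟩
  refine (card_le_card h1).trans (card_biUnion_le.trans ?_)
  rw [← smul_eq_mul, ← sum_const]
  apply sum_le_sum
  intro m _
  refine card_image_le.trans ?_
  rw [Nat.primeCounting, Nat.primeCounting', Nat.count_eq_card_filter_range]

/-- numbers `m ≡ 1` modulo the primes up to `w` -/
lemma reps_prog (w j0 s x : ℕ) (P : ℕ) (hP : P = ∏ p ∈ (Icc 1 w).filter Nat.Prime, p)
    (S : Finset ℕ) (hS : S = (Icc 1 s).image (fun j => 1 + P * j)) (hj : j0 = 0) :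
    #(reps S x) ≤ Nat.totient P * (x / P + 1) + s * (w + 1) := by
  classical
  have hPpos : 0 < P := by
    rw [hP]
    exact prod_pos fun p hp => (mem_filter.1 hp).2.pos
  have h1 : reps S x ⊆ ((Ico 0 (0 + x)).filter (fun k => P.Coprime k)).image (fun k => k + 1) ∪
      ((Icc 1 s) ×ˢ (range (w + 1))).image (fun z => z.2 + (1 + P * z.1) ^ 2) := by
    intro n hn
    unfold reps at hn
    rw [mem_filter, mem_Icc] at hn
    obtain ⟨⟨h1, h2⟩, _, m, hm, q, hq, hqm⟩ := hn
    rw [hS, mem_image] at hm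
    obtain ⟨j, hj, rfl⟩ := hm
    rw [mem_union]
    by_cases hqw : q ≤ w
    · right
      rw [mem_image]
      exact ⟨(j, q), by rw [mem_product, mem_range]; exact ⟨hj, by omega⟩, hqm⟩
    · left
      push Not at hqw
      rw [mem_image]
      refine ⟨n - 1, ?_, by omega⟩
      rw [mem_filter, mem_Ico]
      refine ⟨⟨by omega, by omega⟩, ?_⟩
      have hn1 : n - 1 = q + P * (2 * j + P * j ^ 2) := by
        have : n = q + P * (2 * j + P * j ^ 2) + 1 := by
          rw [← hqm]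
          ring
        omega
      rw [hn1, Nat.coprime_add_mul_left_right]
      rw [hP]
      apply Nat.Coprime.prod_left
      intro p hp
      rw [mem_filter, mem_Icc] at hp
      exact (Nat.coprime_primes hp.2 hq).2 (by omega)
  refine (card_le_card h1).trans ((card_union_le _ _).trans ?_)
  apply Nat.add_le_add
  · refine card_image_le.trans ?_
    exact Nat.Ico_filter_coprime_le 0 x hPpos.ne'
  · refine card_image_le.trans ?_
    rw [card_product, card_range, Nat.card_Icc, Nat.add_sub_cancel]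

/-- the proportion of the units -/
lemma totient_le : ∃ C : ℝ, 1 ≤ C ∧ ∀ w : ℕ, 3 ≤ w →
    (Nat.totient (∏ p ∈ (Icc 1 w).filter Nat.Prime, p) : ℝ) ≤
      C / Real.log w * ((∏ p ∈ (Icc 1 w).filter Nat.Prime, p : ℕ) : ℝ) := by
  obtain ⟨C0, hC0⟩ := Pool.Agent.Helper601.Mertens.mertens_inv
  refine ⟨Real.exp |C0|, Real.one_le_exp (by positivity), fun w hw => ?_⟩
  have hw3 : (3 : ℝ) ≤ w := by exact_mod_cast hw
  have hlog : 0 < Real.log w := Real.log_pos (by linarith)
  obtain ⟨P, hP⟩ : ∃ P : ℕ, P = ∏ p ∈ (Icc 1 w).filter Nat.Prime, p := ⟨_, rfl⟩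
  have hpf : P.primeFactors = (Icc 1 w).filter Nat.Prime := by
    rw [hP]
    exact Nat.primeFactors_prod (fun p hp => (mem_filter.1 hp).2)
  have h1 : (Nat.totient P : ℝ) = P * ∏ p ∈ (Icc 1 w).filter Nat.Prime, (1 - (p : ℝ)⁻¹) := by
    have h2 := Nat.totient_eq_mul_prod_factors P
    rw [hpf] at h2
    have h3 : ((Nat.totient P : ℚ) : ℝ) = ((P * ∏ p ∈ (Icc 1 w).filter Nat.Prime, (1 - (p : ℚ)⁻¹) : ℚ) : ℝ) := by
      rw [h2]
    push_cast at h3
    exact h3
  rw [← hP, h1, mul_comm]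
  apply mul_le_mul_of_nonneg_right _ (Nat.cast_nonneg _)
  have h2 : ∏ p ∈ (Icc 1 w).filter Nat.Prime, (1 - (p : ℝ)⁻¹) ≤
      ∏ p ∈ (Icc 1 w).filter Nat.Prime, Real.exp (-(1 / (p : ℝ))) := by
    apply Finset.prod_le_prod
    · intro p hp
      have h3 : (1 : ℝ) ≤ p := by exact_mod_cast (mem_filter.1 hp).2.one_lt.le
      have h4 : (p : ℝ)⁻¹ ≤ 1 := inv_le_one_of_one_le₀ h3
      linarith
    · intro p _
      have := Real.add_one_le_exp (-(1 / (p : ℝ)))
      rw [one_div] at this ⊢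
      linarith
  refine h2.trans ?_
  rw [← Real.exp_sum, sum_neg_distrib]
  have h3 := (abs_le.mp (hC0 w hw)).1
  have h4 := le_abs_self C0
  calc Real.exp (-∑ p ∈ (Icc 1 w).filter Nat.Prime, (1 : ℝ) / p) ≤
        Real.exp (|C0| + -Real.log (Real.log w)) := Real.exp_le_exp.2 (by linarith)
    _ = Real.exp |C0| / Real.log w := by
        rw [Real.exp_add, Real.exp_neg, Real.exp_log hlog, div_eq_mul_inv]

end Pool.Agent.Y561.SQ
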